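import Pool.Agent.Run7.h882.Sum3

/-!
# The local lemma applied to the random edge colouring
-/

set_option autoImplicit false
set_option linter.unusedSectionVars false

namespace Run7.h882

open Finset Classical

variable {V K : Type} [Fintype V] [DecidableEq V] [Fintype K] [DecidableEq K]
  {G : SimpleGraph V} [DecidableRel G.Adj] {r : V → ℕ}
variable {pal : V → Finset K} {R : Finset K} {d K0 : ℕ}

/-- the indices of all bad events -/
abbrev Idx (G : SimpleGraph V) (r : V → ℕ) (K : Type) : Type :=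
  (Ed G r × Ed G r × K × Dt G r K × Dt G r K) ⊕
    (Σ t : Fin (Fintype.card V + 1), Ix G r K (2 * t.val + 2))

/-- the bad events -/
def EvA : Idx G r K → Finset ((Ed G r ⊕ Ed G r) × K)
  | Sum.inl x => Ev1 x
  | Sum.inr x => Ev2 (2 * x.1.val + 2) x.2

/-- the admissible indices -/
def PA (pal : V → Finset K) (R : Finset K) : Idx G r K → Prop
  | Sum.inl x => P1 pal R x
  | Sum.inr x => P2 pal R (2 * x.1.val + 2) x.2

theorem geom (x : ℝ) (h0 : 0 ≤ x) (h1 : x ≤ 1 / 2) (n : ℕ) :
    ∑ t ∈ range n, x ^ (t + 1) ≤ 2 * x := by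
  have h2 : ∀ n : ℕ, ∑ t ∈ range n, x ^ (t + 1) ≤ 2 * x - 2 * x ^ (n + 1) := by
    intro n
    induction n with
    | zero => simp
    | succ n ih =>
      rw [sum_range_succ]
      have h3 : x ^ (n + 1 + 1) = x * x ^ (n + 1) := by ring
      have h4 : 0 ≤ x ^ (n + 1) := pow_nonneg h0 _
      rw [h3]
      nlinarith
  exact (h2 n).trans (by linarith [pow_nonneg h0 (n + 1)])

theorem Hyp.star (h : Hyp G r pal R d K0) (p : (Ed G r ⊕ Ed G r) × K) :
    ∑ x ∈ univ.filter (fun x : Idx G r K => PA pal R x ∧ p ∈ EvA x),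
      xw gr (pl pal R) (EvA x) ≤ 1 / 24 * wp pal R p := by
  have hK := h.K0_pos
  have hR := h.R_pos
  have hd := h.d_pos
  have hw := wp_nonneg (pal := pal) (R := R) p
  have hb : (4000000000 : ℝ) * d ≤ K0 := by exact_mod_cast h.big
  have hr : (10000000 : ℝ) * d ≤ R.card := by exact_mod_cast h.res
  have hq : (d : ℝ) / K0 ≤ 1 / 4000000000 := by
    rw [div_le_div_iff₀ hK (by norm_num)]; linarith
  have hq' : (d : ℝ) / R.card ≤ 1 / 10000000 := by
    rw [div_le_div_iff₀ hR (by norm_num)]; linarith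
  have hq0 : (0 : ℝ) ≤ (d : ℝ) / K0 := by positivity
  rw [sum_filter, Fintype.sum_sum_type, Fintype.sum_sigma]
  have h1 : ∑ x : Ed G r × Ed G r × K × Dt G r K × Dt G r K,
      (if PA pal R (Sum.inl x) ∧ p ∈ EvA (Sum.inl x : Idx G r K) then
        xw gr (pl pal R) (EvA (Sum.inl x : Idx G r K)) else 0) ≤
      76 * (24 * d / K0 + 864 * d / R.card) * wp pal R p := by
    rw [← sum_filter]
    exact pair_sum h p
  have h2 : ∑ t : Fin (Fintype.card V + 1), ∑ y : Ix G r K (2 * t.val + 2),
      (if PA pal R (Sum.inr ⟨t, y⟩) ∧ p ∈ EvA (Sum.inr ⟨t, y⟩ : Idx G r K) then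
        xw gr (pl pal R) (EvA (Sum.inr ⟨t, y⟩ : Idx G r K)) else 0) ≤
      8448 * (2 * (2304 * d / K0)) * wp pal R p := by
    have h3 : ∀ t : Fin (Fintype.card V + 1), ∑ y : Ix G r K (2 * t.val + 2),
        (if PA pal R (Sum.inr ⟨t, y⟩) ∧ p ∈ EvA (Sum.inr ⟨t, y⟩ : Idx G r K) then
          xw gr (pl pal R) (EvA (Sum.inr ⟨t, y⟩ : Idx G r K)) else 0) ≤
        (if t.val = 0 then 0 else 8448 * (2304 * d / K0) ^ t.val * wp pal R p) := by
      intro t
      by_cases ht : t.val = 0
      · rw [if_pos ht]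
        apply le_of_eq
        apply sum_eq_zero
        intro y _
        rw [if_neg]
        rintro ⟨h3, -⟩
        have h4 : 4 ≤ 2 * t.val + 2 := h3.1
        omega
      · rw [if_neg ht, ← sum_filter]
        exact cyc_bound h t.val p
    refine (sum_le_sum fun t _ => h3 t).trans ?_
    rw [Fin.sum_univ_eq_sum_range
      (fun t => if t = 0 then 0 else 8448 * (2304 * (d : ℝ) / K0) ^ t * wp pal R p)
      (Fintype.card V + 1), sum_range_succ']
    simp only [Nat.add_eq_zero_iff, one_ne_zero, and_false, if_false, if_true, add_zero]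
    have h4 : ∀ t : ℕ, 8448 * (2304 * (d : ℝ) / K0) ^ (t + 1) * wp pal R p =
        (8448 * wp pal R p) * (2304 * (d : ℝ) / K0) ^ (t + 1) := fun t => by ring
    rw [sum_congr rfl fun t _ => h4 t, ← mul_sum]
    have h5 := geom (2304 * (d : ℝ) / K0) (by positivity)
      (by rw [mul_div_assoc]; linarith) (Fintype.card V)
    calc _ ≤ (8448 * wp pal R p) * (2 * (2304 * (d : ℝ) / K0)) :=
          mul_le_mul_of_nonneg_left h5 (by positivity)
      _ = _ := by ring
  refine (add_le_add h1 h2).trans ?_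
  rw [← add_mul]
  apply mul_le_mul_of_nonneg_right _ hw
  rw [mul_div_assoc, mul_div_assoc, mul_div_assoc]
  linarith

/-- the configuration given by the local lemma -/
theorem core (h : Hyp G r pal R d K0) :
    ∃ f : Ed G r ⊕ Ed G r → K, Good pal R f ∧ (∀ x, P1 pal R x → ¬ Sat f (Ev1 x)) ∧
      ∀ t : ℕ, t < Fintype.card V + 1 → ∀ x : Ix G r K (2 * t + 2), P2 pal R (2 * t + 2) x →
        ¬ Sat f (Ev2 (2 * t + 2) x) := by
  have hR := h.R_pos
  obtain ⟨f, h1, h2, h3⟩ := lll (g := gr (G := G) (r := r)) (pal := pl pal R)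
    (Ev := EvA (G := G) (r := r) (K := K))
    (univ.filter fun x : Idx G r K => PA pal R x)
    (by
      intro x hx
      rw [mem_filter] at hx
      rcases x with x | ⟨t, x⟩
      · obtain ⟨p, hp⟩ := W_nonempty x.1 x.2.2.1 x.2.2.1 x.2.2.2.1
        exact ⟨p, mem_union_left _ hp⟩
      · have i : Fin (2 * t.val + 2) := ⟨0, by omega⟩
        obtain ⟨p, hp⟩ := W_nonempty (x.2.1 i) (kp x.2.2.1 x.2.2.2.1 i) (kp x.2.2.2.1 x.2.2.1 i)
          (x.2.2.2.2 i)
        exact ⟨p, mem_biUnion.2 ⟨i, mem_univ _, hp⟩⟩)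
    (by
      intro x hx p hp
      rw [mem_filter] at hx
      rcases x with x | ⟨t, x⟩
      · have hx2 : P1 pal R x := hx.2
        rcases mem_union.1 hp with hp | hp
        · exact hx2.2.2.2.1.pal_mem p hp
        · exact hx2.2.2.2.2.1.pal_mem p hp
      · have hx2 : P2 pal R (2 * t.val + 2) x := hx.2
        obtain ⟨i, -, hp⟩ := mem_biUnion.1 hp
        exact (hx2.2.2.2.1 i).pal_mem p hp)
    (by
      intro a
      rcases a with e | e
      · have h4 : (univ.filter fun b : Ed G r ⊕ Ed G r => gr b = gr (Sum.inl e : Ed G r ⊕ Ed G r)) =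
            (univ.filter fun g : Ed G r => hd g = hd e).map ⟨Sum.inl, Sum.inl_injective⟩ := by
          ext b
          rw [mem_filter, mem_map]
          constructor
          · rintro ⟨-, hb⟩
            rcases b with b | b
            · refine ⟨b, ?_, rfl⟩
              rw [mem_filter]
              exact ⟨mem_univ _, Sum.inl_injective hb⟩
            · exact absurd hb (by simp [gr])
          · rintro ⟨b, hb, rfl⟩
            rw [mem_filter] at hb
            refine ⟨mem_univ _, ?_⟩
            show Sum.inl (hd b) = Sum.inl (hd e)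
            rw [hb.2]
        rw [h4, card_map, card_in]
        exact h.dn (hd e)
      · have h4 : (univ.filter fun b : Ed G r ⊕ Ed G r => gr b = gr (Sum.inr e : Ed G r ⊕ Ed G r)) ⊆
            {Sum.inr e} := by
          intro b hb
          rw [mem_filter] at hb
          rcases b with b | b
          · exact absurd hb.2 (by simp [gr])
          · rw [mem_singleton]
            exact congrArg Sum.inr (Sum.inr_injective hb.2)
        refine (card_le_card h4).trans ?_
        rw [card_singleton]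
        show 1 ≤ R.card
        have : 0 < R.card := by exact_mod_cast hR
        exact this)
    (by
      intro a c hc
      have h4 := h.star (a, c)
      rw [filter_filter]
      refine h4.trans (le_of_eq ?_)
      unfold wp
      have h5 : (0 : ℝ) < ((pl pal R (gr a)).card : ℝ) := by
        rcases a with e | e
        · exact h.pal_pos (hd e)
        · exact hR
      field_simp
      norm_num)
  refine ⟨f, ⟨?_, ?_, ?_, h.disj⟩, ?_, ?_⟩
  · exact fun e => h1 (Sum.inl e)
  · exact fun e => h1 (Sum.inr e)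
  · intro e e' he hf
    refine Sum.inl_injective (h2 (Sum.inl e) (Sum.inl e') ?_ hf)
    show Sum.inl (hd e) = Sum.inl (hd e')
    rw [he]
  · intro x hx
    exact h3 (Sum.inl x) (mem_filter.2 ⟨mem_univ _, hx⟩)
  · intro t ht x hx
    exact h3 (Sum.inr ⟨⟨t, ht⟩, x⟩) (mem_filter.2 ⟨mem_univ _, hx⟩)

end Run7.h882
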