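import Pool.Agent.Run7.h882.Cyc

/-!
# Counting closed walks through an edge
-/

set_option autoImplicit false
set_option linter.unusedSectionVars false

namespace Run7.h882

open Finset

variable {V : Type} [Fintype V] [DecidableEq V] (G : SimpleGraph V) [DecidableRel G.Adj] (r : V → ℕ)

/-- the neighbours of larger rank -/
def Up (v : V) : Finset V := univ.filter fun w => G.Adj v w ∧ r v < r w
/-- the neighbours of smaller rank -/
def Dn (v : V) : Finset V := univ.filter fun w => G.Adj v w ∧ r w < r v

/-- a step up or down -/
def stp (x : Bool) (v : V) : Finset V := if x then Up G r v else Dn G r v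

/-- the number of walks of a given type -/
def cw : List Bool → V → V → ℕ
  | [], b, a => if b = a then 1 else 0
  | x :: w, b, a => ∑ c ∈ stp G r x b, cw w c a

/-- bound for the number of walks from a given vertex -/
def rowb (d D : ℕ) : List Bool → ℕ
  | [] => 1
  | x :: w => (if x then d else D) * rowb d D w

variable {G r} {d D : ℕ}

theorem row_le (hd : ∀ v, (Up G r v).card ≤ d) (hD : ∀ v, (Dn G r v).card ≤ D) (w : List Bool)
    (b : V) : ∑ a, cw G r w b a ≤ rowb d D w := by
  induction w generalizing b with
  | nil => simp [cw, rowb]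
  | cons x w ih =>
    simp only [cw, rowb]
    rw [sum_comm]
    calc ∑ c ∈ stp G r x b, ∑ a, cw G r w c a ≤ ∑ _c ∈ stp G r x b, rowb d D w :=
          sum_le_sum fun c _ => ih c
      _ = (stp G r x b).card * rowb d D w := by rw [sum_const, smul_eq_mul]
      _ ≤ _ := by
        apply Nat.mul_le_mul_right
        unfold stp
        cases x
        · simpa using hD b
        · simpa using hd b

theorem mem_stp {x : Bool} {b c : V} : c ∈ stp G r x b ↔ b ∈ stp G r (!x) c := by
  unfold stp Up Dn
  cases x <;> simp [G.adj_comm]

theorem col_le (hd : ∀ v, (Up G r v).card ≤ d) (hD : ∀ v, (Dn G r v).card ≤ D) (w : List Bool)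
    (a : V) : ∑ b, cw G r w b a ≤ rowb D d w := by
  induction w generalizing a with
  | nil => simp [cw, rowb]
  | cons x w ih =>
    simp only [cw, rowb]
    have h1 : ∀ b, ∑ c ∈ stp G r x b, cw G r w c a =
        ∑ c, if b ∈ stp G r (!x) c then cw G r w c a else 0 := by
      intro b
      rw [← sum_filter]
      apply sum_congr _ fun _ _ => rfl
      ext c
      rw [mem_filter, mem_stp]
      simp
    rw [sum_congr rfl fun b _ => h1 b, sum_comm]
    have h2 : ∀ c, ∑ b, (if b ∈ stp G r (!x) c then cw G r w c a else 0) ≤
        (if x then D else d) * cw G r w c a := by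
      intro c
      rw [← sum_filter, sum_const, smul_eq_mul]
      apply Nat.mul_le_mul_right
      have h3 : univ.filter (fun b => b ∈ stp G r (!x) c) = stp G r (!x) c := by ext; simp
      rw [h3]
      unfold stp
      cases x
      · simpa using hd c
      · simpa using hD c
    refine (sum_le_sum fun c _ => h2 c).trans ?_
    rw [← mul_sum]
    exact Nat.mul_le_mul_left _ (ih a)

theorem close_first (hd : ∀ v, (Up G r v).card ≤ d) (hD : ∀ v, (Dn G r v).card ≤ D) (x : Bool)
    (w : List Bool) (b a : V) : cw G r (x :: w) b a ≤ rowb D d w := by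
  simp only [cw]
  exact (sum_le_sum_of_subset (subset_univ _)).trans (col_le hd hD w a)

theorem close_last (hd : ∀ v, (Up G r v).card ≤ d) (hD : ∀ v, (Dn G r v).card ≤ D) (x : Bool)
    (w : List Bool) (b a : V) : cw G r (w ++ [x]) b a ≤ rowb d D w := by
  induction w generalizing b with
  | nil =>
    simp only [List.nil_append, cw, rowb]
    rw [← sum_filter, sum_const, smul_eq_mul, mul_one]
    have h1 : (stp G r x b).filter (fun c => c = a) ⊆ {a} := by
      intro c hc
      rw [mem_filter] at hc
      rw [mem_singleton]; exact hc.2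
    exact (card_le_card h1).trans (by simp)
  | cons y w ih =>
    simp only [List.cons_append, cw, rowb]
    calc ∑ c ∈ stp G r y b, cw G r (w ++ [x]) c a ≤ ∑ _c ∈ stp G r y b, rowb d D w :=
          sum_le_sum fun c _ => ih c
      _ = (stp G r y b).card * rowb d D w := by rw [sum_const, smul_eq_mul]
      _ ≤ _ := by
        apply Nat.mul_le_mul_right
        unfold stp
        cases y
        · simpa using hD b
        · simpa using hd b

theorem rowb_eq (w : List Bool) : rowb d D w = d ^ (w.count true) * D ^ (w.count false) := by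
  induction w with
  | nil => simp [rowb]
  | cons x w ih =>
    simp only [rowb, ih]
    cases x
    · simp [pow_succ]; ring
    · simp [pow_succ]; ring

theorem count_add (w : List Bool) : w.count true + w.count false = w.length := by
  induction w with
  | nil => simp
  | cons x w ih => cases x <;> simp <;> omega

/-- `d ^ a * D ^ b ≤ (d * D) ^ t` if `a ≥ t` and `a + b = 2 t` -/
theorem pow_mul_le {a b t : ℕ} (hdD : d ≤ D) (h : a + b = 2 * t) (ht : t ≤ a) :
    d ^ a * D ^ b ≤ (d * D) ^ t := by
  have h1 : a = t + (a - t) := by omega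
  have h2 : t = b + (a - t) := by omega
  calc d ^ a * D ^ b = d ^ t * (d ^ (a - t) * D ^ b) := by
        conv_lhs => rw [h1, pow_add]
        ring
    _ ≤ d ^ t * (D ^ (a - t) * D ^ b) :=
        Nat.mul_le_mul_left _ (Nat.mul_le_mul_right _ (Nat.pow_le_pow_left hdD _))
    _ = d ^ t * D ^ t := by
        conv_rhs => rw [h2]
        rw [← pow_add, add_comm (a - t) b, ← h2]
    _ = _ := by rw [mul_pow]

theorem cw_le (hd : ∀ v, (Up G r v).card ≤ d) (hD : ∀ v, (Dn G r v).card ≤ D) (hdD : d ≤ D)
    {t : ℕ} (w : List Bool) (hw : w.length = 2 * t + 1) (b a : V) :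
    cw G r w b a ≤ (d * D) ^ t := by
  have hc := count_add w
  rcases Nat.lt_or_ge t (w.count true) with h | h
  · -- many steps up: the last step is forced
    rcases List.eq_nil_or_concat w with rfl | ⟨w', x, rfl⟩
    · simp at hw
    · rw [List.concat_eq_append] at *
      refine (close_last hd hD x w' b a).trans ?_
      rw [rowb_eq]
      rw [List.count_append, List.count_append] at hc
      rw [List.count_append] at h
      rw [List.length_append] at hw hc
      simp only [List.length_singleton] at hw hc
      have h2 := count_add w'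
      have h3 : List.count true [x] ≤ 1 := by cases x <;> simp
      exact pow_mul_le hdD (by omega) (by omega)
  · cases w with
    | nil => simp at hw
    | cons x w' =>
      refine (close_first hd hD x w' b a).trans ?_
      rw [rowb_eq, mul_comm]
      simp only [List.length_cons] at hw hc
      have h2 := count_add w'
      have h3 : List.count false (x :: w') ≤ List.count false w' + 1 := by
        cases x <;> simp
      exact pow_mul_le hdD (by omega) (by omega)

variable (G) in
/-- the number of walks of length `m` -/
def wk : ℕ → V → V → ℕ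
  | 0, b, a => if b = a then 1 else 0
  | m + 1, b, a => ∑ c ∈ univ.filter (fun c => G.Adj b c), wk m c a

/-- summing over the words of length `m` -/
def SW : ℕ → (List Bool → ℕ) → ℕ
  | 0, F => F []
  | m + 1, F => SW m (fun w => F (true :: w)) + SW m (fun w => F (false :: w))

theorem SW_add (m : ℕ) (F F' : List Bool → ℕ) : SW m (fun w => F w + F' w) = SW m F + SW m F' := by
  induction m generalizing F F' with
  | zero => rfl
  | succ m ih => simp only [SW]; rw [ih, ih]; ring

theorem SW_sum {β : Type} (m : ℕ) (s : Finset β) (F : β → List Bool → ℕ) :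
    SW m (fun w => ∑ c ∈ s, F c w) = ∑ c ∈ s, SW m (F c) := by
  classical
  induction s using Finset.induction_on with
  | empty =>
    simp only [sum_empty]
    induction m with
    | zero => rfl
    | succ m ih => simp only [SW]; omega
  | @insert c s hc ih =>
    simp only [sum_insert hc]
    rw [SW_add, ih]

theorem SW_le {m B : ℕ} {F : List Bool → ℕ} (h : ∀ w : List Bool, w.length = m → F w ≤ B) :
    SW m F ≤ 2 ^ m * B := by
  induction m generalizing F with
  | zero => simpa [SW] using h [] rfl
  | succ m ih =>
    simp only [SW]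
    have h1 := ih (F := fun w => F (true :: w)) fun w hw => h _ (by simp [hw])
    have h2 := ih (F := fun w => F (false :: w)) fun w hw => h _ (by simp [hw])
    have h3 : 2 ^ (m + 1) * B = 2 ^ m * B + 2 ^ m * B := by ring
    omega

theorem wk_eq (hr : ∀ u v, G.Adj u v → r u ≠ r v) (m : ℕ) (b a : V) :
    wk G m b a = SW m (fun w => cw G r w b a) := by
  induction m generalizing b with
  | zero => rfl
  | succ m ih =>
    simp only [wk, SW]
    rw [← SW_add]
    have h1 : univ.filter (fun c => G.Adj b c) = stp G r true b ∪ stp G r false b := by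
      ext c
      simp only [stp, Up, Dn, mem_filter, mem_univ, true_and, mem_union, if_true,
        Bool.false_eq_true, if_false]
      constructor
      · intro h
        rcases lt_or_gt_of_ne (hr b c h) with h2 | h2
        · exact Or.inl ⟨h, h2⟩
        · exact Or.inr ⟨h, h2⟩
      · rintro (h | h)
        · exact h.1
        · exact h.1
    have h2 : Disjoint (stp G r true b) (stp G r false b) := by
      rw [disjoint_left]
      intro c hc hc'
      simp only [stp, Up, Dn, mem_filter, mem_univ, true_and, if_true,
        Bool.false_eq_true, if_false] at hc hc'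
      exact lt_asymm hc.2 hc'.2
    rw [h1, sum_union h2]
    simp only [cw]
    rw [SW_add, SW_sum, SW_sum]
    congr 1
    · exact sum_congr rfl fun c _ => ih c
    · exact sum_congr rfl fun c _ => ih c

theorem wk_le (hr : ∀ u v, G.Adj u v → r u ≠ r v) (hd : ∀ v, (Up G r v).card ≤ d)
    (hD : ∀ v, (Dn G r v).card ≤ D) (hdD : d ≤ D) (t : ℕ) (b a : V) :
    wk G (2 * t + 1) b a ≤ 2 ^ (2 * t + 1) * (d * D) ^ t := by
  rw [wk_eq hr]
  exact SW_le fun w hw => cw_le hd hD hdD w hw b a

/-- the walks of length `m` from `b` to `a` -/
def Wset (G : SimpleGraph V) [DecidableRel G.Adj] (m : ℕ) (b a : V) : Finset (Fin (m + 1) → V) :=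
  univ.filter fun f => f 0 = b ∧ f (Fin.last m) = a ∧ ∀ i : Fin m, G.Adj (f i.castSucc) (f i.succ)

theorem Wset_card (m : ℕ) (b a : V) : (Wset G m b a).card ≤ wk G m b a := by
  classical
  induction m generalizing b with
  | zero =>
    simp only [wk]
    split_ifs with h
    · apply card_le_one.2
      intro f hf f' hf'
      unfold Wset at hf hf'
      rw [mem_filter] at hf hf'
      funext i
      have : i = 0 := Fin.ext (by have := i.isLt; simp only [Fin.val_zero]; omega)
      rw [this, hf.2.1, hf'.2.1]
    · rw [Nat.le_zero, card_eq_zero]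
      apply eq_empty_of_forall_notMem
      intro f hf
      unfold Wset at hf
      rw [mem_filter] at hf
      exact h (hf.2.1.symm.trans hf.2.2.1)
  | succ m ih =>
    simp only [wk]
    have h1 : (Wset G (m + 1) b a).image (fun f => Fin.tail f) ⊆
        (univ.filter (fun c => G.Adj b c)).biUnion fun c => Wset G m c a := by
      intro f' hf'
      rw [mem_image] at hf'
      obtain ⟨f, hf, rfl⟩ := hf'
      unfold Wset at hf
      rw [mem_filter] at hf
      obtain ⟨-, h1, h2, h3⟩ := hf
      rw [mem_biUnion]
      refine ⟨f 1, ?_, ?_⟩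
      · rw [mem_filter]
        refine ⟨mem_univ _, ?_⟩
        have := h3 0
        rw [Fin.castSucc_zero, h1, Fin.succ_zero_eq_one] at this
        exact this
      · unfold Wset
        rw [mem_filter]
        refine ⟨mem_univ _, ?_, ?_, ?_⟩
        · rfl
        · show f (Fin.last m).succ = a
          rw [Fin.succ_last]; exact h2
        · intro i
          have := h3 i.succ
          rw [← Fin.succ_castSucc] at this
          exact this
    have h2 : ((Wset G (m + 1) b a).image (fun f => Fin.tail f)).card =
        (Wset G (m + 1) b a).card := by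
      apply card_image_of_injOn
      intro f hf f' hf' h
      rw [mem_coe] at hf hf'
      unfold Wset at hf hf'
      rw [mem_filter] at hf hf'
      funext i
      refine Fin.cases ?_ (fun j => ?_) i
      · rw [hf.2.1, hf'.2.1]
      · exact congrFun h j
    rw [← h2]
    exact (card_le_card h1).trans (card_biUnion_le.trans (sum_le_sum fun c _ => ih c))

/-- closed walks of length `m + 1` with a given edge -/
theorem closed_card (m : ℕ) (i : Fin (m + 1)) (a b : V) :
    (univ.filter fun v : Fin (m + 1) → V =>
      (∀ j, G.Adj (v j) (v (nx j))) ∧ v i = a ∧ v (nx i) = b).card ≤ wk G m b a := by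
  classical
  refine le_trans ?_ (Wset_card m b a)
  apply card_le_card_of_injOn
    (fun v (t : Fin (m + 1)) => v ⟨(i.val + 1 + t.val) % (m + 1), Nat.mod_lt _ (Nat.succ_pos m)⟩)
  · intro v hv
    rw [mem_coe, mem_filter] at hv
    obtain ⟨-, h1, h2, h3⟩ := hv
    rw [mem_coe]
    unfold Wset
    rw [mem_filter]
    refine ⟨mem_univ _, ?_, ?_, ?_⟩
    · rw [← h3]
      simp [nx]
    · rw [← h2]
      show v _ = v i
      congr 1
      apply Fin.ext
      simp only [Fin.val_last]
      have hi := i.isLt
      rw [show i.val + 1 + m = i.val + (m + 1) by ring, Nat.add_mod_right, Nat.mod_eq_of_lt hi]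
    · intro t
      have h4 := h1 ⟨(i.val + 1 + t.val) % (m + 1), Nat.mod_lt _ (Nat.succ_pos m)⟩
      have h5 : nx (⟨(i.val + 1 + t.val) % (m + 1), Nat.mod_lt _ (Nat.succ_pos m)⟩ : Fin (m + 1)) =
          ⟨(i.val + 1 + t.succ.val) % (m + 1), Nat.mod_lt _ (Nat.succ_pos m)⟩ := by
        ext
        simp only [nx, Fin.val_succ]
        rw [Nat.mod_add_mod, ← add_assoc]
      rw [h5] at h4
      exact h4
  · intro v hv v' hv' h
    funext j
    have hi := i.isLt
    have hj := j.isLt
    -- j = i + 1 + t mod (m + 1)
    have h1 : ∃ t : Fin (m + 1), (i.val + 1 + t.val) % (m + 1) = j.val := by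
      refine ⟨⟨(j.val + (m + 1) - (i.val + 1)) % (m + 1), Nat.mod_lt _ (Nat.succ_pos m)⟩, ?_⟩
      simp only
      rw [Nat.add_mod_mod]
      have : i.val + 1 + (j.val + (m + 1) - (i.val + 1)) = j.val + (m + 1) := by omega
      rw [this, Nat.add_mod_right, Nat.mod_eq_of_lt hj]
    obtain ⟨t, ht⟩ := h1
    have h2 := congrFun h t
    simp only at h2
    have h3 : (⟨(i.val + 1 + t.val) % (m + 1), Nat.mod_lt _ (Nat.succ_pos m)⟩ : Fin (m + 1)) = j :=
      Fin.ext ht
    rw [h3] at h2
    exact h2

end Run7.h882
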