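import Pool.Agent.Run7.h882.Model

/-!
# The events for two-coloured cycles
-/

set_option autoImplicit false
set_option linter.unusedSectionVars false

namespace Run7.h882

open Finset

variable {V K : Type} [Fintype V] [DecidableEq V] [Fintype K] [DecidableEq K]
  {G : SimpleGraph V} [DecidableRel G.Adj] {r : V → ℕ} {pal : V → Finset K} {R : Finset K}

/-- the cyclic successor -/
def nx {n : ℕ} (i : Fin n) : Fin n := ⟨(i.val + 1) % n, Nat.mod_lt _ i.pos⟩

theorem nx_inj {n : ℕ} {i j : Fin n} (h : nx i = nx j) : i = j := by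
  have h1 := congrArg Fin.val h
  simp only [nx] at h1
  have hi := i.isLt
  have hj := j.isLt
  ext
  rcases Nat.lt_or_ge (i.val + 1) n with h2 | h2 <;> rcases Nat.lt_or_ge (j.val + 1) n with h3 | h3
  · rw [Nat.mod_eq_of_lt h2, Nat.mod_eq_of_lt h3] at h1; omega
  · have h4 : j.val + 1 = n := by omega
    rw [Nat.mod_eq_of_lt h2, h4, Nat.mod_self] at h1; omega
  · have h4 : i.val + 1 = n := by omega
    rw [Nat.mod_eq_of_lt h3, h4, Nat.mod_self] at h1; omega
  · omega

theorem nx_parity {n : ℕ} (hn : Even n) (i : Fin n) : Even (nx i).val ↔ ¬ Even i.val := by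
  have hi := i.isLt
  simp only [nx]
  rcases Nat.lt_or_ge (i.val + 1) n with h2 | h2
  · rw [Nat.mod_eq_of_lt h2, Nat.even_add_one]
  · have h4 : i.val + 1 = n := by omega
    rw [h4, Nat.mod_self]
    rw [← h4, Nat.even_add_one] at hn
    simp [hn]

/-- the colours along a cycle -/
def kp {n : ℕ} (α β : K) (i : Fin n) : K := if Even i.val then α else β

theorem kp_nx {n : ℕ} (hn : Even n) (α β : K) (i : Fin n) : kp α β (nx i) = kp β α i := by
  unfold kp
  by_cases h : Even i.val
  · rw [if_neg ((nx_parity hn i).not.2 (not_not.2 h)), if_pos h]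
  · rw [if_pos ((nx_parity hn i).2 h), if_neg h]

theorem kp_ne {n : ℕ} {α β : K} (h : α ≠ β) (i : Fin n) : kp α β i ≠ kp β α i := by
  unfold kp
  split_ifs
  · exact h
  · exact h.symm

/-- the indices of the events for cycles of length `n` -/
abbrev Ix (G : SimpleGraph V) (r : V → ℕ) (K : Type) (n : ℕ) : Type :=
  (Fin n → V) × (Fin n → Ed G r) × K × K × (Fin n → Dt G r K)

/-- the events for cycles -/
def P2 (pal : V → Finset K) (R : Finset K) (n : ℕ) (x : Ix G r K n) : Prop :=
  4 ≤ n ∧ Even n ∧ (∀ i, Ends (x.2.1 i) (x.1 i) (x.1 (nx i))) ∧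
    (∀ i, Va pal R (x.2.1 i) (kp x.2.2.1 x.2.2.2.1 i) (kp x.2.2.2.1 x.2.2.1 i) (x.2.2.2.2 i)) ∧
    ∀ i j, i ≠ j → Disjoint
      (W (x.2.1 i) (kp x.2.2.1 x.2.2.2.1 i) (kp x.2.2.2.1 x.2.2.1 i) (x.2.2.2.2 i))
      (W (x.2.1 j) (kp x.2.2.1 x.2.2.2.1 j) (kp x.2.2.2.1 x.2.2.1 j) (x.2.2.2.2 j))

/-- the event of a cycle -/
def Ev2 (n : ℕ) (x : Ix G r K n) : Finset ((Ed G r ⊕ Ed G r) × K) :=
  univ.biUnion fun i =>
    W (x.2.1 i) (kp x.2.2.1 x.2.2.2.1 i) (kp x.2.2.2.1 x.2.2.1 i) (x.2.2.2.2 i)

/-- two edges of a cycle with a common end are neighbours on the cycle -/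
theorem share {n : ℕ} {v : Fin n → V} (hv : Function.Injective v) {ee : Fin n → Ed G r}
    (hee : ∀ i, Ends (ee i) (v i) (v (nx i))) {i j : Fin n} (hij : i ≠ j) {z : V}
    (h1 : tl (ee i) = z ∨ hd (ee i) = z) (h2 : tl (ee j) = z ∨ hd (ee j) = z) :
    j = nx i ∨ i = nx j := by
  have h3 : z = v i ∨ z = v (nx i) := by
    rcases hee i with ⟨h3, h4⟩ | ⟨h3, h4⟩ <;> rcases h1 with h1 | h1
    · left; rw [← h1, h3]
    · right; rw [← h1, h4]
    · right; rw [← h1, h3]
    · left; rw [← h1, h4]
  have h4 : z = v j ∨ z = v (nx j) := by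
    rcases hee j with ⟨h3, h4⟩ | ⟨h3, h4⟩ <;> rcases h2 with h1 | h1
    · left; rw [← h1, h3]
    · right; rw [← h1, h4]
    · right; rw [← h1, h3]
    · left; rw [← h1, h4]
  rcases h3 with h3 | h3 <;> rcases h4 with h4 | h4
  · exact absurd (hv (h3.symm.trans h4)) hij
  · exact Or.inr (hv (h3.symm.trans h4))
  · exact Or.inl (hv (h4.symm.trans h3))
  · exact absurd (nx_inj (hv (h3.symm.trans h4))) hij

theorem share_ne {n : ℕ} (hn : 3 ≤ n) {v : Fin n → V} (hv : Function.Injective v)
    {ee : Fin n → Ed G r} (hee : ∀ i, Ends (ee i) (v i) (v (nx i))) {i j : Fin n} (hij : i ≠ j) :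
    ee i ≠ ee j := by
  intro h
  have h1 := share hv hee hij (z := tl (ee i)) (Or.inl rfl) (Or.inl (by rw [h]))
  -- the edges i and nx i have the ends v i, v (nx i) and v (nx i), v (nx (nx i))
  have key : ∀ i j : Fin n, j = nx i → ee i = ee j → False := by
    intro i j hj he
    subst hj
    have h2 := hee i
    have h3 := hee (nx i)
    rw [← he] at h3
    have h4 : v i = v (nx i) ∨ v i = v (nx (nx i)) := by
      rcases h2 with ⟨h4, h5⟩ | ⟨h4, h5⟩ <;> rcases h3 with ⟨h6, h7⟩ | ⟨h6, h7⟩
      · left; rw [← h4, h6]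
      · right; rw [← h4, h6]
      · right; rw [← h5, h7]
      · left; rw [← h5, h7]
    have hlt := i.isLt
    rcases h4 with h4 | h4
    · have h5 := congrArg Fin.val (hv h4)
      simp only [nx] at h5
      rcases Nat.lt_or_ge (i.val + 1) n with h6 | h6
      · rw [Nat.mod_eq_of_lt h6] at h5; omega
      · have h7 : i.val + 1 = n := by omega
        rw [h7, Nat.mod_self] at h5; omega
    · have h5 := congrArg Fin.val (hv h4)
      simp only [nx] at h5
      rcases Nat.lt_or_ge (i.val + 1) n with h6 | h6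
      · rw [Nat.mod_eq_of_lt h6] at h5
        rcases Nat.lt_or_ge (i.val + 1 + 1) n with h7 | h7
        · rw [Nat.mod_eq_of_lt h7] at h5; omega
        · have h8 : i.val + 1 + 1 = n := by omega
          rw [h8, Nat.mod_self] at h5; omega
      · have h7 : i.val + 1 = n := by omega
        rw [h7, Nat.mod_self, Nat.mod_eq_of_lt (by omega)] at h5
        omega
  rcases h1 with h1 | h1
  · exact key i j h1 h
  · exact key j i h1 h.symm

/-- a two-coloured cycle: a bad event holds -/
theorem cover_cycle {f : Ed G r ⊕ Ed G r → K} (hf : Good pal R f) {n : ℕ} (hn : 4 ≤ n)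
    (hev : Even n) {v : Fin n → V} (hv : Function.Injective v) {ee : Fin n → Ed G r}
    (hee : ∀ i, Ends (ee i) (v i) (v (nx i))) {α β : K}
    (hc : ∀ i, fc f (ee i) = kp α β i) :
    ∃ x : Ix G r K n, P2 pal R n x ∧ Sat f (Ev2 n x) := by
  have hdat := fun i => exists_data hf (ee i) (kp β α i)
  choose t ht1 ht2 ht3 using hdat
  have hinj : ∀ i j, i ≠ j → ee i ≠ ee j := fun i j hij => share_ne (by omega) hv hee hij
  refine ⟨(v, ee, α, β, t), ⟨hn, hev, hee, ?_, ?_⟩, ?_⟩
  · intro i
    show Va pal R (ee i) (kp α β i) (kp β α i) (t i)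
    rw [← hc i]; exact ht1 i
  · intro i j hij
    show Disjoint (W (ee i) (kp α β i) (kp β α i) (t i)) (W (ee j) (kp α β j) (kp β α j) (t j))
    rw [disjoint_left]
    intro p hp hp'
    -- the witness of one edge is another edge of the cycle
    have hcase : ∀ i j : Fin n, i ≠ j → (∀ g : Ed G r, tl g = hd (ee j) →
        f (Sum.inl g) = f (Sum.inl (ee j)) → ¬ bl (fun e => f (Sum.inl e)) g → ee i = g →
        f (Sum.inl (ee j)) ≠ kp β α j → False) := by
      intro i j hij g hg1 hg2 hg3 hg4 hne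
      have h3 : fc f (ee i) = f (Sum.inl (ee i)) := by
        unfold fc; rw [if_neg (by rw [hg4]; exact hg3)]
      have h4 := share hv hee hij (z := hd (ee j)) (Or.inl (by rw [hg4]; exact hg1)) (Or.inr rfl)
      apply hne
      rw [← hg2, ← hg4, ← h3, hc i]
      rcases h4 with h4 | h4
      · rw [h4, kp_nx hev]
      · rw [h4, kp_nx hev]
    have d1 := ht3 i
    have d2 := ht3 j
    rcases d1 with ⟨-, h1, -⟩ | ⟨-, -, -, h1⟩ | ⟨hb, -, hne, g, h1, hg1, hg2, hg3⟩ <;>
    rcases d2 with ⟨-, h1', -⟩ | ⟨-, -, -, h1'⟩ | ⟨hb', -, hne', g', h1', hg1', hg2', hg3'⟩ <;>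
    rw [h1] at hp <;> rw [h1'] at hp'
    · rw [W, mem_singleton] at hp hp'
      rw [hp] at hp'
      exact hinj i j hij (Sum.inl_injective (Prod.ext_iff.1 hp').1)
    · rw [W, mem_singleton] at hp
      rw [W, mem_insert, mem_singleton] at hp'
      subst hp
      rcases hp' with h | h
      · exact hinj i j hij (Sum.inl_injective (Prod.ext_iff.1 h).1)
      · exact absurd (Prod.ext_iff.1 h).1 (by simp)
    · rw [W, mem_singleton] at hp
      rw [W, mem_insert, mem_insert, mem_singleton] at hp'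
      subst hp
      rcases hp' with h | h | h
      · exact hinj i j hij (Sum.inl_injective (Prod.ext_iff.1 h).1)
      · exact hcase i j hij g' hg1' hg2' hg3' (Sum.inl_injective (Prod.ext_iff.1 h).1) hne'
      · exact absurd (Prod.ext_iff.1 h).1 (by simp)
    · rw [W, mem_singleton] at hp'
      rw [W, mem_insert, mem_singleton] at hp
      subst hp'
      rcases hp with h | h
      · exact hinj i j hij (Sum.inl_injective (Prod.ext_iff.1 h).1).symm
      · exact absurd (Prod.ext_iff.1 h).1 (by simp)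
    · rw [W, mem_insert, mem_singleton] at hp hp'
      rcases hp with rfl | rfl <;> rcases hp' with h | h
      · exact hinj i j hij (Sum.inl_injective (Prod.ext_iff.1 h).1)
      · exact absurd (Prod.ext_iff.1 h).1 (by simp)
      · exact absurd (Prod.ext_iff.1 h).1 (by simp)
      · exact hinj i j hij (Sum.inr_injective (Prod.ext_iff.1 h).1)
    · rw [W, mem_insert, mem_singleton] at hp
      rw [W, mem_insert, mem_insert, mem_singleton] at hp'
      rcases hp with rfl | rfl <;> rcases hp' with h | h | h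
      · exact hinj i j hij (Sum.inl_injective (Prod.ext_iff.1 h).1)
      · exact hcase i j hij g' hg1' hg2' hg3' (Sum.inl_injective (Prod.ext_iff.1 h).1) hne'
      · exact absurd (Prod.ext_iff.1 h).1 (by simp)
      · exact absurd (Prod.ext_iff.1 h).1 (by simp)
      · exact absurd (Prod.ext_iff.1 h).1 (by simp)
      · exact hinj i j hij (Sum.inr_injective (Prod.ext_iff.1 h).1)
    · rw [W, mem_singleton] at hp'
      rw [W, mem_insert, mem_insert, mem_singleton] at hp
      subst hp'
      rcases hp with h | h | h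
      · exact hinj i j hij (Sum.inl_injective (Prod.ext_iff.1 h).1).symm
      · exact hcase j i hij.symm g hg1 hg2 hg3 (Sum.inl_injective (Prod.ext_iff.1 h).1) hne
      · exact absurd (Prod.ext_iff.1 h).1 (by simp)
    · rw [W, mem_insert, mem_singleton] at hp'
      rw [W, mem_insert, mem_insert, mem_singleton] at hp
      rcases hp' with rfl | rfl <;> rcases hp with h | h | h
      · exact hinj i j hij (Sum.inl_injective (Prod.ext_iff.1 h).1).symm
      · exact hcase j i hij.symm g hg1 hg2 hg3 (Sum.inl_injective (Prod.ext_iff.1 h).1) hne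
      · exact absurd (Prod.ext_iff.1 h).1 (by simp)
      · exact absurd (Prod.ext_iff.1 h).1 (by simp)
      · exact absurd (Prod.ext_iff.1 h).1 (by simp)
      · exact hinj i j hij (Sum.inr_injective (Prod.ext_iff.1 h).1).symm
    · rw [W, mem_insert, mem_insert, mem_singleton] at hp hp'
      rcases hp with rfl | rfl | rfl <;> rcases hp' with h | h | h
      · exact hinj i j hij (Sum.inl_injective (Prod.ext_iff.1 h).1)
      · exact hcase i j hij g' hg1' hg2' hg3' (Sum.inl_injective (Prod.ext_iff.1 h).1) hne'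
      · exact absurd (Prod.ext_iff.1 h).1 (by simp)
      · exact hcase j i hij.symm g hg1 hg2 hg3 (Sum.inl_injective (Prod.ext_iff.1 h).1).symm hne
      · have h2 : g = g' := Sum.inl_injective (Prod.ext_iff.1 h).1
        have h3 : f (Sum.inl (ee i)) = f (Sum.inl (ee j)) := (Prod.ext_iff.1 h).2
        exact hinj i j hij (hf.inj _ _ (by rw [← hg1, h2, hg1']) h3)
      · exact absurd (Prod.ext_iff.1 h).1 (by simp)
      · exact absurd (Prod.ext_iff.1 h).1 (by simp)
      · exact absurd (Prod.ext_iff.1 h).1 (by simp)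
      · exact hinj i j hij (Sum.inr_injective (Prod.ext_iff.1 h).1)
  · intro p hp
    unfold Ev2 at hp
    rw [mem_biUnion] at hp
    obtain ⟨i, -, hp⟩ := hp
    apply ht2 i p
    rw [hc i]; exact hp

end Run7.h882
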