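import Pool.Agent.Run7.h882.Core

/-!
# The acyclic edge colouring
-/

set_option autoImplicit false
set_option linter.unusedSectionVars false

namespace Run7.h882

open Finset Classical

variable {V K : Type} [Fintype V] [DecidableEq V] [Fintype K] [DecidableEq K]
  {G : SimpleGraph V} [DecidableRel G.Adj] {r : V → ℕ}
variable {pal : V → Finset K} {R : Finset K} {d K0 : ℕ}

/-- the colour of a pair -/
noncomputable def cc (f : Ed G r ⊕ Ed G r → K) (k0 : K) (u v : V) : K :=
  if h : ∃ e : Ed G r, Ends e u v then fc f h.choose else k0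

theorem cc_eq {f : Ed G r ⊕ Ed G r → K} {k0 : K} {u v : V} {e : Ed G r} (h : Ends e u v) :
    cc f k0 u v = fc f e := by
  have h1 : ∃ e : Ed G r, Ends e u v := ⟨e, h⟩
  unfold cc
  rw [dif_pos h1, h1.choose_spec.unique h]

theorem cc_symm (f : Ed G r ⊕ Ed G r → K) (k0 : K) (u v : V) : cc f k0 u v = cc f k0 v u := by
  by_cases h : ∃ e : Ed G r, Ends e u v
  · obtain ⟨e, he⟩ := h
    rw [cc_eq he, cc_eq he.symm]
  · have h' : ¬ ∃ e : Ed G r, Ends e v u := fun ⟨e, he⟩ => h ⟨e, he.symm⟩
    unfold cc
    rw [dif_neg h, dif_neg h']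

/-- An acyclic proper edge colouring of `G`: adjacent edges have different colours and every cycle has
at least three colours. -/
structure AEC {V : Type} (G : SimpleGraph V) {K : Type} [DecidableEq K] (c : V → V → K) : Prop where
  symm : ∀ u v : V, c u v = c v u
  proper : ∀ u v w : V, G.Adj u v → G.Adj u w → v ≠ w → c u v ≠ c u w
  acyclic : ∀ (u : V) (p : G.Walk u u), p.IsCycle →
    3 ≤ (p.darts.map (fun d => c d.toProd.1 d.toProd.2)).toFinset.card

theorem nx_val_lt {n : ℕ} {i : Fin n} (h : i.val + 1 < n) : (nx i).val = i.val + 1 :=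
  Nat.mod_eq_of_lt h

theorem nx_val_last {n : ℕ} {i : Fin n} (h : i.val + 1 = n) : (nx i).val = 0 := by
  simp [nx, h]

/-- a proper colouring is acyclic if it has no cyclically alternating cycle -/
theorem aec_of {G : SimpleGraph V} {c : V → V → K} (hs : ∀ u v : V, c u v = c v u)
    (hp : ∀ u v w : V, G.Adj u v → G.Adj u w → v ≠ w → c u v ≠ c u w)
    (hc : ∀ n : ℕ, 4 ≤ n → Even n → ∀ v : Fin n → V, Function.Injective v →
      (∀ i, G.Adj (v i) (v (nx i))) → ∀ α β : K, (∀ i, c (v i) (v (nx i)) = kp α β i) → False) :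
    AEC G c := by
  refine ⟨hs, hp, ?_⟩
  intro u p hcyc
  by_contra hlt
  have h3 : 3 ≤ p.length := hcyc.three_le_length
  set n := p.length with hn
  set S := (p.darts.map (fun d => c d.toProd.1 d.toProd.2)).toFinset with hS
  set v : Fin n → V := fun i => p.getVert i.val with hv
  have hinj : Function.Injective v := by
    intro i j hij
    apply Fin.ext
    exact hcyc.getVert_injOn' (by have := i.isLt; simp only [Set.mem_ofPred_eq]; omega)
      (by have := j.isLt; simp only [Set.mem_ofPred_eq]; omega) hij
  have hnx : ∀ i : Fin n, v (nx i) = p.getVert (i.val + 1) := by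
    intro i
    rcases Nat.lt_or_ge (i.val + 1) n with h | h
    · show p.getVert (nx i).val = _
      rw [nx_val_lt h]
    · have h' : i.val + 1 = n := by have := i.isLt; omega
      show p.getVert (nx i).val = _
      rw [nx_val_last h', h', hn, p.getVert_length, p.getVert_zero]
  have hadj : ∀ i, G.Adj (v i) (v (nx i)) := by
    intro i
    rw [hnx i]
    exact p.adj_getVert_succ i.isLt
  have hmem : ∀ i, c (v i) (v (nx i)) ∈ S := by
    intro i
    rw [hS, List.mem_toFinset, List.mem_map]
    have hl : i.val < p.darts.length := by rw [p.length_darts]; exact i.isLt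
    refine ⟨p.darts[i.val], List.getElem_mem hl, ?_⟩
    rw [hnx i]
    have h1 := p.darts_getElem_eq_getVert (n := i.val) hl
    rw [h1]
  have hne : ∀ i, c (v i) (v (nx i)) ≠ c (v (nx i)) (v (nx (nx i))) := by
    intro i
    rw [hs (v i) (v (nx i))]
    apply hp _ _ _ (hadj i).symm (hadj (nx i))
    intro h
    have h1 := congrArg Fin.val (hinj h)
    have hi := i.isLt
    rcases Nat.lt_or_ge (i.val + 1) n with h2 | h2
    · have h4 := nx_val_lt h2
      rcases Nat.lt_or_ge ((nx i).val + 1) n with h5 | h5
      · rw [nx_val_lt h5] at h1; omega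
      · rw [nx_val_last (by omega)] at h1; omega
    · have h4 := nx_val_last (i := i) (by omega)
      rw [nx_val_lt (by omega)] at h1; omega
  -- the two colours
  set i0 : Fin n := ⟨0, by omega⟩ with hi0
  set α := c (v i0) (v (nx i0)) with hα
  set β := c (v (nx i0)) (v (nx (nx i0))) with hβ
  have hαβ : α ≠ β := hne i0
  have hSeq : ∀ x ∈ S, x = α ∨ x = β := by
    intro x hx
    by_contra hcon
    push Not at hcon
    apply hlt
    have h1 : ({x, α, β} : Finset K) ⊆ S := by
      intro y hy
      rw [mem_insert, mem_insert, mem_singleton] at hy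
      rcases hy with rfl | rfl | rfl
      · exact hx
      · exact hmem i0
      · exact hmem (nx i0)
    have h2 : ({x, α, β} : Finset K).card = 3 := by
      rw [card_insert_of_notMem, card_pair hαβ]
      rw [mem_insert, mem_singleton, not_or]
      exact hcon
    rw [← h2]
    exact card_le_card h1
  have hcol : ∀ m : ℕ, ∀ hm : m < n, c (v ⟨m, hm⟩) (v (nx ⟨m, hm⟩)) = if Even m then α else β := by
    intro m
    induction m with
    | zero =>
      intro hm
      rw [if_pos (by exact Even.zero)]
    | succ m ih =>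
      intro hm
      have h1 := ih (by omega)
      have h2 := hne ⟨m, by omega⟩
      have h4 : nx (⟨m, by omega⟩ : Fin n) = ⟨m + 1, hm⟩ := Fin.ext (nx_val_lt hm)
      rw [h4] at h1 h2
      rw [h1] at h2
      have h5 := hSeq _ (hmem ⟨m + 1, hm⟩)
      by_cases he : Even m
      · rw [if_pos he] at h2
        rw [if_neg (by rw [Nat.even_add_one]; simpa using he)]
        exact h5.resolve_left (fun h => h2 h.symm)
      · rw [if_neg he] at h2
        rw [if_pos (by rw [Nat.even_add_one]; exact he)]
        exact h5.resolve_right (fun h => h2 h.symm)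
  have heven : Even n := by
    by_contra hodd
    have h1 := hcol (n - 1) (by omega)
    rw [if_pos (by
      rw [Nat.not_even_iff_odd] at hodd
      exact Nat.Odd.sub_odd hodd odd_one)] at h1
    have h2 := hne ⟨n - 1, by omega⟩
    have h4 : nx (⟨n - 1, by omega⟩ : Fin n) = i0 := by
      apply Fin.ext
      rw [nx_val_last]
      simp only
      omega
    rw [h4] at h1 h2
    exact h2 h1
  have hn4 : 4 ≤ n := by
    rcases heven with ⟨k, hk⟩
    omega
  exact hc n hn4 heven v hinj hadj α β fun i => hcol i.val i.isLt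

/-- **Main theorem in palette form.** -/
theorem Hyp.main (h : Hyp G r pal R d K0) : ∃ c : V → V → K, AEC G c := by
  obtain ⟨f, hf, h1, h2⟩ := core h
  have hR : 0 < R.card := by exact_mod_cast h.R_pos
  obtain ⟨k0, -⟩ := card_pos.1 hR
  refine ⟨cc f k0, aec_of (cc_symm f k0) ?_ ?_⟩
  · intro u v w huv huw hvw
    obtain ⟨e, he⟩ := exists_ends h.rk huv
    obtain ⟨e', he'⟩ := exists_ends h.rk huw
    rw [cc_eq he, cc_eq he']
    refine cover_pair hf h1 ?_ he he'
    rintro rfl
    apply hvw
    rcases he with ⟨a1, a2⟩ | ⟨a1, a2⟩ <;> rcases he' with ⟨b1, b2⟩ | ⟨b1, b2⟩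
    · exact a2.symm.trans b2
    · exact absurd (a1.trans b2.symm) (tl_ne_hd e)
    · exact absurd (b1.trans a2.symm) (tl_ne_hd e)
    · exact a1.symm.trans b1
  · intro n hn hev v hv hadj α β hcol
    choose ee hee using fun i => exists_ends h.rk (hadj i)
    obtain ⟨x, hx1, hx2⟩ := cover_cycle hf hn hev hv hee (α := α) (β := β)
      (fun i => by rw [← cc_eq (k0 := k0) (hee i)]; exact hcol i)
    have hle : n ≤ Fintype.card V := by
      have := Fintype.card_le_of_injective v hv
      rwa [Fintype.card_fin] at this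
    have key : ∀ t, n = 2 * t + 2 → False := by
      rintro t rfl
      exact h2 t (by omega) x hx1 hx2
    obtain ⟨k, hk⟩ := hev
    exact key (k - 1) (by omega)

end Run7.h882
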