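import Mathlib

/-!
# A lopsided local lemma for families of random injections

`A` is a finite set of slots, `g a` is the group of the slot `a`, and `pal j` is the palette of the
group `j`.  A configuration gives every slot a colour of the palette of its group, and different slots
of one group get different colours.  An event is a finite set of prescriptions `(a, c)`
(the slot `a` has the colour `c`).
-/

set_option autoImplicit false
set_option linter.unusedSectionVars false

namespace Run7.h882

open Finset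

section LLL

variable {A J K ι : Type} [Fintype A] [DecidableEq A] [Fintype J] [DecidableEq J]
  [Fintype K] [DecidableEq K]

/-- the configuration `f` has all prescribed colours -/
def Sat (f : A → K) (E : Finset (A × K)) : Prop := ∀ p ∈ E, f p.1 = p.2

instance (f : A → K) (E : Finset (A × K)) : Decidable (Sat f E) := by
  unfold Sat; infer_instance

/-- the admissible configurations -/
def Om (g : A → J) (pal : J → Finset K) : Finset (A → K) :=
  univ.filter fun f => (∀ a, f a ∈ pal (g a)) ∧ ∀ a b, g a = g b → f a = f b → a = b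

/-- the number of configurations with all prescribed colours of `E` that avoid all events of `S` -/
def cnt (g : A → J) (pal : J → Finset K) (Ev : ι → Finset (A × K)) (E : Finset (A × K))
    (S : Finset ι) : ℕ :=
  ((Om g pal).filter fun f => Sat f E ∧ ∀ i ∈ S, ¬ Sat f (Ev i)).card

/-- two prescriptions are in conflict -/
def Conf (g : A → J) (p q : A × K) : Prop :=
  g p.1 = g q.1 ∧ ((p.1 = q.1 ∧ p.2 ≠ q.2) ∨ (p.1 ≠ q.1 ∧ p.2 = q.2))

instance (g : A → J) (p q : A × K) : Decidable (Conf g p q) := by
  unfold Conf; infer_instance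

variable {g : A → J} {pal : J → Finset K} {Ev : ι → Finset (A × K)}

theorem mem_Om {f : A → K} : f ∈ Om g pal ↔
    (∀ a, f a ∈ pal (g a)) ∧ ∀ a b, g a = g b → f a = f b → a = b := by
  simp [Om]

/-- exchanging two colours in a group -/
def sw (g : A → J) (j : J) (c c' : K) (f : A → K) : A → K :=
  fun b => if g b = j then Equiv.swap c c' (f b) else f b

theorem sw_mem {j : J} {c c' : K} (hc : c ∈ pal j) (hc' : c' ∈ pal j) {f : A → K}
    (hf : f ∈ Om g pal) : sw g j c c' f ∈ Om g pal := by
  rw [mem_Om] at hf ⊢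
  constructor
  · intro a
    unfold sw
    split_ifs with h
    · subst h
      rcases eq_or_ne (f a) c with h1 | h1
      · rw [h1, Equiv.swap_apply_left]; exact hc'
      · rcases eq_or_ne (f a) c' with h2 | h2
        · rw [h2, Equiv.swap_apply_right]; exact hc
        · rw [Equiv.swap_apply_of_ne_of_ne h1 h2]; exact hf.1 a
    · exact hf.1 a
  · intro a b hab h
    unfold sw at h
    rw [hab] at h
    split_ifs at h with h1
    · exact hf.2 a b hab ((Equiv.swap c c').injective h)
    · exact hf.2 a b hab h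

theorem sw_inj {j : J} {c c' : K} {f f' : A → K} (h : sw g j c c' f = sw g j c c' f') :
    f = f' := by
  funext b
  have := congrFun h b
  unfold sw at this
  split_ifs at this with h1
  · exact (Equiv.swap c c').injective this
  · exact this

theorem step (E : Finset (A × K)) (a : A) (c : K) (hc : c ∈ pal (g a)) (hp : (a, c) ∉ E)
    (S : Finset ι) (hS : ∀ i ∈ S, ∀ p ∈ Ev i, ¬ Conf g (a, c) p) :
    ((pal (g a)).card - (E.filter fun p => g p.1 = g a).card) * cnt g pal Ev (insert (a, c) E) S ≤
      cnt g pal Ev E S := by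
  classical
  set al : Finset K := pal (g a) \ (E.filter fun p => g p.1 = g a).image Prod.snd with hal
  have h1 : (pal (g a)).card - (E.filter fun p => g p.1 = g a).card ≤ al.card := by
    have h2 := Finset.le_card_sdiff ((E.filter fun p => g p.1 = g a).image Prod.snd) (pal (g a))
    have h3 : ((E.filter fun p => g p.1 = g a).image Prod.snd).card ≤
      (E.filter fun p => g p.1 = g a).card := card_image_le
    rw [← hal] at h2
    omega
  refine (Nat.mul_le_mul_right _ h1).trans ?_
  unfold cnt
  rw [← card_product]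
  apply card_le_card_of_injOn (fun x : K × (A → K) => sw g (g a) c x.1 x.2)
  · rintro ⟨c', f⟩ hx
    rw [mem_coe, mem_product, mem_filter] at hx
    obtain ⟨hc', hf, hfE, hfS⟩ := hx
    simp only at hc' hf hfE hfS
    rw [hal, mem_sdiff] at hc'
    rw [mem_coe, mem_filter]
    have hfa : f a = c := hfE (a, c) (mem_insert_self _ _)
    refine ⟨sw_mem hc hc'.1 hf, ?_, ?_⟩
    · intro p hp'
      have hfp : f p.1 = p.2 := hfE p (mem_insert_of_mem hp')
      show sw g (g a) c c' f p.1 = p.2
      unfold sw
      split_ifs with h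
      · have hne : p.1 ≠ a := by
          intro h4
          apply hp
          have : p = (a, c) := by
            ext1
            · exact h4
            · rw [← hfp, h4, hfa]
          rw [← this]; exact hp'
        have h5 : f p.1 ≠ c := by
          intro h6
          exact hne ((mem_Om.1 hf).2 _ _ h (h6.trans hfa.symm))
        have h6 : f p.1 ≠ c' := by
          intro h7
          apply hc'.2
          rw [mem_image]
          exact ⟨p, mem_filter.2 ⟨hp', h⟩, by rw [← hfp, h7]⟩
        rw [Equiv.swap_apply_of_ne_of_ne h5 h6, hfp]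
      · exact hfp
    · intro i hi hsat
      apply hfS i hi
      intro p hp'
      have h4 : sw g (g a) c c' f p.1 = p.2 := hsat p hp'
      unfold sw at h4
      split_ifs at h4 with h
      · have h5 := hS i hi p hp'
        unfold Conf at h5
        push Not at h5
        obtain ⟨h6, h7⟩ := h5 h.symm
        simp only at h6 h7
        rcases eq_or_ne c c' with hcc | hcc
        · subst hcc
          rw [Equiv.swap_self] at h4
          exact h4
        · rcases eq_or_ne a p.1 with h8 | h8
          · exfalso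
            have h9 := h6 h8
            rw [← h8, hfa, Equiv.swap_apply_left] at h4
            exact hcc (h9.trans h4.symm)
          · have h9 := h7 h8
            have h10 : f p.1 ≠ c := by
              intro h11
              exact h8 ((mem_Om.1 hf).2 _ _ h.symm (hfa.trans h11.symm))
            have h11 : f p.1 ≠ c' := by
              intro h12
              rw [h12, Equiv.swap_apply_right] at h4
              exact h9 h4
            rw [Equiv.swap_apply_of_ne_of_ne h10 h11] at h4
            exact h4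
      · exact h4
  · rintro ⟨c', f⟩ hx ⟨c'', f'⟩ hx' heq
    rw [mem_coe, mem_product, mem_filter] at hx hx'
    obtain ⟨-, -, hfE, -⟩ := hx
    obtain ⟨-, -, hfE', -⟩ := hx'
    simp only at hfE hfE' heq
    have hfa : f a = c := hfE (a, c) (mem_insert_self _ _)
    have hfa' : f' a = c := hfE' (a, c) (mem_insert_self _ _)
    have h1 := congrFun heq a
    unfold sw at h1
    rw [if_pos rfl, if_pos rfl, hfa, hfa', Equiv.swap_apply_left, Equiv.swap_apply_left] at h1
    subst h1
    rw [sw_inj heq]

/-- the number of prescriptions in a group -/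
def mj (g : A → J) (E : Finset (A × K)) (j : J) : ℕ := (E.filter fun p => g p.1 = j).card

theorem desc_bound (S : Finset ι) (E : Finset (A × K)) (hE : ∀ p ∈ E, p.2 ∈ pal (g p.1))
    (hS : ∀ i ∈ S, ∀ q ∈ Ev i, ∀ p ∈ E, ¬ Conf g p q) :
    (∏ j, (pal j).card.descFactorial (mj g E j)) * cnt g pal Ev E S ≤ cnt g pal Ev ∅ S := by
  classical
  induction E using Finset.induction_on with
  | empty => simp [mj]
  | @insert p E hp ih =>
    obtain ⟨a, c⟩ := p
    have ih' := ih (fun q hq => hE q (mem_insert_of_mem hq))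
      (fun i hi q hq p' hp' => hS i hi q hq p' (mem_insert_of_mem hp'))
    refine le_trans ?_ ih'
    have h1 := step E a c (hE _ (mem_insert_self _ _)) hp S
      (fun i hi q hq => hS i hi q hq _ (mem_insert_self _ _))
    have h2 : ∀ j, mj g (insert (a, c) E) j = mj g E j + if j = g a then 1 else 0 := by
      intro j
      unfold mj
      rw [filter_insert]
      split_ifs with h3 h4 h4
      · rw [card_insert_of_notMem (fun h => hp (mem_filter.1 h).1)]
      · exact absurd h3.symm h4
      · exact absurd h4.symm h3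
      · rfl
    have h3 : (∏ j, (pal j).card.descFactorial (mj g (insert (a, c) E) j)) =
        (∏ j, (pal j).card.descFactorial (mj g E j)) * ((pal (g a)).card - mj g E (g a)) := by
      rw [← mul_prod_erase univ _ (mem_univ (g a)), ← mul_prod_erase univ
        (fun j => (pal j).card.descFactorial (mj g E j)) (mem_univ (g a)), h2 (g a), if_pos rfl,
        Nat.descFactorial_succ]
      have h4 : ∏ x ∈ univ.erase (g a), (pal x).card.descFactorial (mj g (insert (a, c) E) x) =
          ∏ x ∈ univ.erase (g a), (pal x).card.descFactorial (mj g E x) := by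
        refine prod_congr rfl fun j hj => ?_
        rw [h2 j, if_neg (ne_of_mem_erase hj), add_zero]
      rw [h4]
      ring
    rw [h3, mul_assoc]
    exact Nat.mul_le_mul_left _ h1

theorem pow_mul_factorial_le (n m : ℕ) (h : m ≤ n) :
    n ^ m * m.factorial ≤ m ^ m * n.descFactorial m := by
  rw [← Nat.descFactorial_self m, Nat.descFactorial_eq_prod_range, Nat.descFactorial_eq_prod_range,
    ← prod_const_card_range n m, ← prod_const_card_range m m, ← prod_mul_distrib,
    ← prod_mul_distrib]
  refine prod_le_prod' fun i hi => ?_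
  have hi' := mem_range.1 hi
  zify [hi'.le, (hi'.le.trans h)]
  have h1 : (m : ℤ) * i ≤ n * i := by
    have : (m : ℤ) ≤ n := by exact_mod_cast h
    nlinarith [(Int.natCast_nonneg i)]
  nlinarith
where
  prod_const_card_range (n m : ℕ) : ∏ _i ∈ range m, n = n ^ m := by
    rw [prod_const, card_range]

theorem pow_le_three_pow (n m : ℕ) (h : m ≤ n) :
    (n : ℝ) ^ m ≤ 3 ^ m * (n.descFactorial m : ℝ) := by
  have h1 := pow_mul_factorial_le n m h
  have h1' : (n : ℝ) ^ m * (m.factorial : ℝ) ≤ (m : ℝ) ^ m * (n.descFactorial m : ℝ) := by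
    exact_mod_cast h1
  have h2 : (m : ℝ) ^ m / (m.factorial : ℝ) ≤ Real.exp m :=
    Real.pow_div_factorial_le_exp (m : ℝ) (Nat.cast_nonneg m) m
  have h3 : Real.exp m ≤ 3 ^ m := by
    rw [← Real.exp_one_rpow, Real.rpow_natCast]
    exact pow_le_pow_left₀ (Real.exp_pos 1).le (by linarith [Real.exp_one_lt_d9]) m
  have hf : (0 : ℝ) < (m.factorial : ℝ) := by exact_mod_cast Nat.factorial_pos m
  rw [div_le_iff₀ hf] at h2
  have h4 : (m : ℝ) ^ m ≤ 3 ^ m * (m.factorial : ℝ) := h2.trans
    (mul_le_mul_of_nonneg_right h3 hf.le)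
  have h5 : (n : ℝ) ^ m * (m.factorial : ℝ) ≤
      (3 ^ m * (n.descFactorial m : ℝ)) * (m.factorial : ℝ) := by
    calc _ ≤ (m : ℝ) ^ m * (n.descFactorial m : ℝ) := h1'
      _ ≤ (3 ^ m * (m.factorial : ℝ)) * (n.descFactorial m : ℝ) :=
        mul_le_mul_of_nonneg_right h4 (Nat.cast_nonneg _)
      _ = _ := by ring
  exact le_of_mul_le_mul_right h5 hf

/-- the probability bound for an event, given that non-conflicting events are avoided -/
theorem cnt_le (S : Finset ι) (E : Finset (A × K)) (hE : ∀ p ∈ E, p.2 ∈ pal (g p.1))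
    (hS : ∀ i ∈ S, ∀ q ∈ Ev i, ∀ p ∈ E, ¬ Conf g p q) :
    (∏ p ∈ E, ((pal (g p.1)).card : ℝ)) * (cnt g pal Ev E S : ℝ) ≤
      3 ^ E.card * (cnt g pal Ev ∅ S : ℝ) := by
  classical
  rcases Nat.eq_zero_or_pos (cnt g pal Ev E S) with h0 | h0
  · rw [h0]; simp
  · unfold cnt at h0
    obtain ⟨f, hf⟩ := card_pos.1 h0
    rw [mem_filter] at hf
    obtain ⟨hfO, hfE, -⟩ := hf
    have hm : ∀ j, mj g E j ≤ (pal j).card := by
      intro j
      apply card_le_card_of_injOn Prod.snd
      · intro p hp
        rw [mem_coe, mem_filter] at hp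
        rw [mem_coe, ← hp.2]
        exact hE p hp.1
      · intro p hp q hq hpq
        rw [mem_coe, mem_filter] at hp hq
        have h1 := hfE p hp.1
        have h2 := hfE q hq.1
        have h3 : p.1 = q.1 := (mem_Om.1 hfO).2 _ _ (hp.2.trans hq.2.symm)
          (by rw [h1, h2]; exact hpq)
        exact Prod.ext h3 hpq
    have h1 := desc_bound (g := g) (pal := pal) S E hE hS
    have h1' : (∏ j, ((pal j).card.descFactorial (mj g E j) : ℝ)) * (cnt g pal Ev E S : ℝ) ≤
        (cnt g pal Ev ∅ S : ℝ) := by exact_mod_cast h1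
    have h2 : ∏ p ∈ E, ((pal (g p.1)).card : ℝ) = ∏ j, ((pal j).card : ℝ) ^ (mj g E j) := by
      rw [← prod_fiberwise E (fun p => g p.1) (fun p => ((pal (g p.1)).card : ℝ))]
      refine prod_congr rfl fun j _ => ?_
      rw [mj, ← prod_const]
      refine prod_congr rfl fun p hp => ?_
      rw [(mem_filter.1 hp).2]
    have h3 : E.card = ∑ j, mj g E j := by
      unfold mj
      exact card_eq_sum_card_fiberwise (f := fun p : A × K => g p.1) (t := univ)
        (fun p _ => mem_coe.2 (mem_univ _))
    have h4 : ∏ j, ((pal j).card : ℝ) ^ (mj g E j) ≤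
        3 ^ E.card * ∏ j, ((pal j).card.descFactorial (mj g E j) : ℝ) := by
      rw [h3, ← prod_pow_eq_pow_sum, ← prod_mul_distrib]
      exact prod_le_prod (fun _ _ => by positivity) fun j _ => pow_le_three_pow _ _ (hm j)
    rw [h2]
    calc _ ≤ (3 ^ E.card * ∏ j, ((pal j).card.descFactorial (mj g E j) : ℝ)) *
          (cnt g pal Ev E S : ℝ) := mul_le_mul_of_nonneg_right h4 (Nat.cast_nonneg _)
      _ = 3 ^ E.card * ((∏ j, ((pal j).card.descFactorial (mj g E j) : ℝ)) *
          (cnt g pal Ev E S : ℝ)) := by ring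
      _ ≤ _ := mul_le_mul_of_nonneg_left h1' (by positivity)

theorem prod_union_ge {ι : Type} [DecidableEq ι] (x : ι → ℝ) (h0 : ∀ i, 0 ≤ x i)
    (h1 : ∀ i, x i ≤ 1) (S T : Finset ι) :
    (∏ i ∈ S, x i) * (∏ i ∈ T, x i) ≤ ∏ i ∈ S ∪ T, x i := by
  rw [← union_sdiff_self_eq_union, prod_union disjoint_sdiff]
  refine mul_le_mul_of_nonneg_left ?_ (prod_nonneg fun i _ => h0 i)
  rw [← prod_sdiff (sdiff_subset : T \ S ⊆ T)]
  exact mul_le_of_le_one_left (prod_nonneg fun i _ => h0 i)
    (prod_le_one (fun i _ => h0 i) fun i _ => h1 i)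

theorem one_sub_sum_le_prod {ι : Type} [DecidableEq ι] (x : ι → ℝ) (h0 : ∀ i, 0 ≤ x i)
    (h1 : ∀ i, x i ≤ 1) (S : Finset ι) :
    1 - ∑ i ∈ S, x i ≤ ∏ i ∈ S, (1 - x i) := by
  induction S using Finset.induction_on with
  | empty => simp
  | @insert a S ha ih =>
    rw [sum_insert ha, prod_insert ha]
    have h2 : ∏ i ∈ S, (1 - x i) ≤ 1 :=
      prod_le_one (fun i _ => by linarith [h1 i]) fun i _ => by linarith [h0 i]
    nlinarith [h0 a, h1 a]

variable [DecidableEq ι]

/-- the weight of an event -/
noncomputable def xw (g : A → J) (pal : J → Finset K) (E : Finset (A × K)) : ℝ :=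
  ∏ p ∈ E, 6 / ((pal (g p.1)).card : ℝ)

theorem xw_nonneg (E : Finset (A × K)) : 0 ≤ xw g pal E :=
  prod_nonneg fun _ _ => by positivity

/-- **Local lemma for random injections.** -/
theorem lll (I : Finset ι) (hne : ∀ i ∈ I, (Ev i).Nonempty)
    (hval : ∀ i ∈ I, ∀ p ∈ Ev i, p.2 ∈ pal (g p.1))
    (hcard : ∀ a, (univ.filter fun b => g b = g a).card ≤ (pal (g a)).card)
    (hstar : ∀ a c, c ∈ pal (g a) →
      ∑ i ∈ I.filter (fun i => (a, c) ∈ Ev i), xw g pal (Ev i) ≤ 1 / (4 * (pal (g a)).card)) :
    ∃ f : A → K, (∀ a, f a ∈ pal (g a)) ∧ (∀ a b, g a = g b → f a = f b → a = b) ∧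
      ∀ i ∈ I, ¬ Sat f (Ev i) := by
  classical
  have hpos : ∀ a, 0 < (pal (g a)).card := fun a =>
    lt_of_lt_of_le (card_pos.2 ⟨a, by simp⟩) (hcard a)
  set x : ι → ℝ := fun i => xw g pal (Ev i) with hx
  have hx0 : ∀ i, 0 ≤ x i := fun i => xw_nonneg _
  have hx4 : ∀ i ∈ I, x i ≤ 1 / 4 := by
    intro i hi
    obtain ⟨⟨a, c⟩, hp⟩ := hne i hi
    have h1 := hstar a c (hval i hi _ hp)
    have h2 : x i ≤ ∑ i ∈ I.filter (fun i => (a, c) ∈ Ev i), xw g pal (Ev i) :=
      single_le_sum (f := fun i => xw g pal (Ev i)) (fun j _ => hx0 j)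
        (mem_filter.2 ⟨hi, hp⟩)
    refine h2.trans (h1.trans ?_)
    have h3 : (1 : ℝ) ≤ (pal (g a)).card := by exact_mod_cast hpos a
    apply one_div_le_one_div_of_le (by norm_num)
    linarith
  -- the events in conflict with one prescription
  have hconf : ∀ p : A × K, p.2 ∈ pal (g p.1) →
      ∑ i ∈ I.filter (fun i => ∃ q ∈ Ev i, Conf g p q), x i ≤ 1 / 2 := by
    rintro ⟨a, c⟩ hc
    simp only at hc
    have hn : (0 : ℝ) < (pal (g a)).card := by exact_mod_cast hpos a
    have h1 : I.filter (fun i => ∃ q ∈ Ev i, Conf g (a, c) q) ⊆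
        ((pal (g a)).biUnion fun c' => I.filter fun i => (a, c') ∈ Ev i) ∪
        ((univ.filter fun b => g b = g a).biUnion fun b => I.filter fun i => (b, c) ∈ Ev i) := by
      intro i hi
      rw [mem_filter] at hi
      obtain ⟨hi, ⟨b, c'⟩, hq, hg, h⟩ := hi
      simp only at hg h
      rw [mem_union]
      rcases h with ⟨h1, h2⟩ | ⟨h1, h2⟩
      · left
        subst h1
        exact mem_biUnion.2 ⟨c', hval i hi _ hq, mem_filter.2 ⟨hi, hq⟩⟩
      · right
        subst h2
        exact mem_biUnion.2 ⟨b, mem_filter.2 ⟨mem_univ _, hg.symm⟩, mem_filter.2 ⟨hi, hq⟩⟩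
    have hsumU : ∀ (S T : Finset ι), ∑ i ∈ S ∪ T, x i ≤ ∑ i ∈ S, x i + ∑ i ∈ T, x i := by
      intro S T
      rw [← sum_union_inter]
      linarith [sum_nonneg (s := S ∩ T) fun i _ => hx0 i]
    have hsumB : ∀ {β : Type} [DecidableEq β] (s : Finset β) (t : β → Finset ι) (m : ℝ),
        (∀ b ∈ s, ∑ i ∈ t b, x i ≤ m) → ∑ i ∈ s.biUnion t, x i ≤ s.card * m := by
      intro β _ s t m hm
      induction s using Finset.induction_on with
      | empty => simp
      | @insert b s hb ih =>
        rw [biUnion_insert, card_insert_of_notMem hb]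
        refine (hsumU _ _).trans ?_
        have h3 := hm b (mem_insert_self _ _)
        have h4 := ih fun b' hb' => hm b' (mem_insert_of_mem hb')
        push_cast
        linarith
    have h2 : ∑ i ∈ (pal (g a)).biUnion (fun c' => I.filter fun i => (a, c') ∈ Ev i), x i ≤
        (pal (g a)).card * (1 / (4 * (pal (g a)).card)) :=
      hsumB _ _ _ fun c' hc' => hstar a c' hc'
    have h3 : ∑ i ∈ (univ.filter fun b => g b = g a).biUnion
        (fun b => I.filter fun i => (b, c) ∈ Ev i), x i ≤
        (univ.filter fun b => g b = g a).card * (1 / (4 * (pal (g a)).card)) := by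
      refine hsumB _ _ _ fun b hb => ?_
      have hb' := (mem_filter.1 hb).2
      rw [← hb']
      exact hstar b c (by rw [hb']; exact hc)
    have h4 : ((univ.filter fun b => g b = g a).card : ℝ) ≤ (pal (g a)).card := by
      exact_mod_cast hcard a
    calc ∑ i ∈ I.filter (fun i => ∃ q ∈ Ev i, Conf g (a, c) q), x i ≤ _ :=
          sum_le_sum_of_subset_of_nonneg h1 fun i _ _ => hx0 i
      _ ≤ _ := hsumU _ _
      _ ≤ (pal (g a)).card * (1 / (4 * (pal (g a)).card)) +
          (pal (g a)).card * (1 / (4 * (pal (g a)).card)) :=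
          add_le_add h2 (h3.trans (mul_le_mul_of_nonneg_right h4 (by positivity)))
      _ = 1 / 2 := by field_simp; norm_num
  -- the product over the events in conflict with a set of prescriptions
  have hprod : ∀ (S : Finset ι), S ⊆ I → ∀ E : Finset (A × K), (∀ p ∈ E, p.2 ∈ pal (g p.1)) →
      (1 / 2 : ℝ) ^ E.card ≤ ∏ i ∈ S.filter (fun i => ∃ q ∈ Ev i, ∃ p ∈ E, Conf g p q),
        (1 - min (x i) 1) := by
    intro S hS E hE
    induction E using Finset.induction_on with
    | empty => simp
    | @insert p E hp ih =>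
      have ih' := ih fun q hq => hE q (mem_insert_of_mem hq)
      have h1 : S.filter (fun i => ∃ q ∈ Ev i, ∃ p' ∈ insert p E, Conf g p' q) =
          S.filter (fun i => ∃ q ∈ Ev i, Conf g p q) ∪
          S.filter (fun i => ∃ q ∈ Ev i, ∃ p' ∈ E, Conf g p' q) := by
        ext i
        simp only [mem_filter, mem_union, mem_insert]
        constructor
        · rintro ⟨hi, q, hq, p', hp' | hp', h⟩
          · subst hp'
            exact Or.inl ⟨hi, q, hq, h⟩
          · exact Or.inr ⟨hi, q, hq, p', hp', h⟩
        · rintro (⟨hi, q, hq, h⟩ | ⟨hi, q, hq, p', hp', h⟩)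
          · exact ⟨hi, q, hq, p, Or.inl rfl, h⟩
          · exact ⟨hi, q, hq, p', Or.inr hp', h⟩
      rw [h1, card_insert_of_notMem hp, pow_succ']
      have hmin0 : ∀ i, 0 ≤ 1 - min (x i) 1 := fun i => by linarith [min_le_right (x i) 1]
      have hmin1 : ∀ i, 1 - min (x i) 1 ≤ 1 := fun i => by
        linarith [le_min (hx0 i) zero_le_one]
      refine le_trans ?_ (prod_union_ge _ hmin0 hmin1 _ _)
      refine mul_le_mul ?_ ih' (by positivity) (prod_nonneg fun i _ => hmin0 i)
      have h2 := one_sub_sum_le_prod (fun i => min (x i) 1)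
        (fun i => le_min (hx0 i) zero_le_one) (fun i => min_le_right _ _)
        (S.filter (fun i => ∃ q ∈ Ev i, Conf g p q))
      refine le_trans ?_ h2
      have h3 : ∑ i ∈ S.filter (fun i => ∃ q ∈ Ev i, Conf g p q), min (x i) 1 ≤
          ∑ i ∈ I.filter (fun i => ∃ q ∈ Ev i, Conf g p q), x i :=
        (sum_le_sum fun i _ => min_le_left _ _).trans
          (sum_le_sum_of_subset_of_nonneg (filter_subset_filter _ hS) fun i _ _ => hx0 i)
      have h4 := hconf p (hE p (mem_insert_self _ _))
      linarith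
  -- the key statement
  have key : ∀ n : ℕ, ∀ S : Finset ι, S.card = n → S ⊆ I → ∀ i ∈ I, i ∉ S →
      (cnt g pal Ev (Ev i) S : ℝ) ≤ x i * cnt g pal Ev ∅ S := by
    intro n
    induction n using Nat.strong_induction_on with
    | _ n ih =>
      intro S hSn hSI i hi hiS
      set S₁ := S.filter (fun k => ∃ q ∈ Ev k, ∃ p ∈ Ev i, Conf g p q) with hS₁
      set S₂ := S.filter (fun k => ¬ ∃ q ∈ Ev k, ∃ p ∈ Ev i, Conf g p q) with hS₂
      have hSu : S = S₁ ∪ S₂ := (filter_union_filter_not_eq _ _).symm
      have hdisj : Disjoint S₁ S₂ := disjoint_filter_filter_not _ _ _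
      have h1 : cnt g pal Ev (Ev i) S ≤ cnt g pal Ev (Ev i) S₂ := by
        apply card_le_card
        intro f hf
        rw [mem_filter] at hf ⊢
        exact ⟨hf.1, hf.2.1, fun k hk => hf.2.2 k (filter_subset _ _ hk)⟩
      have h2 := cnt_le (g := g) (pal := pal) (Ev := Ev) S₂ (Ev i) (hval i hi) (by
        intro k hk q hq p hp hc
        exact (mem_filter.1 hk).2 ⟨q, hq, p, hp, hc⟩)
      -- lower bound
      have h3 : ∀ T : Finset ι, T ⊆ S₁ →
          (∏ k ∈ T, (1 - min (x k) 1)) * (cnt g pal Ev ∅ S₂ : ℝ) ≤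
            cnt g pal Ev ∅ (T ∪ S₂) := by
        intro T
        induction T using Finset.induction_on with
        | empty => intro _; simp
        | @insert k T hk ihT =>
          intro hT
          have hkS₁ : k ∈ S₁ := hT (mem_insert_self _ _)
          have hTS : T ⊆ S₁ := fun y hy => hT (mem_insert_of_mem hy)
          have ihT' := ihT hTS
          have hkS : k ∈ S := (mem_filter.1 hkS₁).1
          have hkn : k ∉ T ∪ S₂ := by
            rw [mem_union]
            rintro (h | h)
            · exact hk h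
            · exact (disjoint_left.1 hdisj) hkS₁ h
          have hsub : T ∪ S₂ ⊆ S := by
            intro y hy
            rcases mem_union.1 hy with h | h
            · exact (mem_filter.1 (hTS h)).1
            · exact (mem_filter.1 h).1
          have hlt : (T ∪ S₂).card < n := by
            rw [← hSn]
            exact card_lt_card ⟨hsub, fun h => hkn (h hkS)⟩
          have h4 := ih _ hlt (T ∪ S₂) rfl (hsub.trans hSI) k (hSI hkS) hkn
          have h5 : cnt g pal Ev ∅ (T ∪ S₂) = cnt g pal Ev ∅ (insert k T ∪ S₂) +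
              cnt g pal Ev (Ev k) (T ∪ S₂) := by
            unfold cnt
            rw [← card_filter_add_card_filter_not (s := (Om g pal).filter
              fun f => Sat f ∅ ∧ ∀ i ∈ T ∪ S₂, ¬ Sat f (Ev i)) (fun f => ¬ Sat f (Ev k))]
            congr 1
            · congr 1
              ext f
              simp only [mem_filter, insert_union, mem_insert]
              constructor
              · rintro ⟨⟨h6, h7, h8⟩, h9⟩
                refine ⟨h6, h7, ?_⟩
                rintro y (rfl | hy)
                · exact h9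
                · exact h8 y hy
              · rintro ⟨h6, h7, h8⟩
                exact ⟨⟨h6, h7, fun y hy => h8 y (Or.inr hy)⟩, h8 k (Or.inl rfl)⟩
            · congr 1
              ext f
              simp only [mem_filter, not_not]
              constructor
              · rintro ⟨⟨h6, h7, h8⟩, h9⟩
                exact ⟨h6, h9, h8⟩
              · rintro ⟨h6, h7, h8⟩
                exact ⟨⟨h6, by intro p hp; simp at hp, h8⟩, h7⟩
          have h5' : (cnt g pal Ev ∅ (T ∪ S₂) : ℝ) = cnt g pal Ev ∅ (insert k T ∪ S₂) +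
              cnt g pal Ev (Ev k) (T ∪ S₂) := by exact_mod_cast h5
          have hxk : x k ≤ 1 := (hx4 k (hSI hkS)).trans (by norm_num)
          rw [prod_insert hk, min_eq_left hxk, mul_assoc]
          have h6 : (1 - x k) * ((∏ k ∈ T, (1 - min (x k) 1)) * (cnt g pal Ev ∅ S₂ : ℝ)) ≤
              (1 - x k) * (cnt g pal Ev ∅ (T ∪ S₂) : ℝ) :=
            mul_le_mul_of_nonneg_left ihT' (by linarith)
          linarith
      have h4 := h3 S₁ subset_rfl
      rw [← hSu] at h4
      have h5 := hprod S hSI (Ev i) (hval i hi)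
      rw [← hS₁] at h5
      have hc0 : (0 : ℝ) ≤ cnt g pal Ev ∅ S₂ := Nat.cast_nonneg _
      have h6 : (1 / 2 : ℝ) ^ (Ev i).card * (cnt g pal Ev ∅ S₂ : ℝ) ≤ cnt g pal Ev ∅ S :=
        (mul_le_mul_of_nonneg_right h5 hc0).trans h4
      have hP : (0 : ℝ) < ∏ p ∈ Ev i, ((pal (g p.1)).card : ℝ) :=
        prod_pos fun p _ => by exact_mod_cast hpos p.1
      have h7 : x i = 6 ^ (Ev i).card / ∏ p ∈ Ev i, ((pal (g p.1)).card : ℝ) := by
        rw [hx]
        simp only [xw]
        rw [prod_div_distrib, prod_const]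
      rw [h7, div_mul_eq_mul_div, le_div_iff₀ hP]
      have h1' : (cnt g pal Ev (Ev i) S : ℝ) ≤ cnt g pal Ev (Ev i) S₂ := by exact_mod_cast h1
      have h8 : (3 : ℝ) ^ (Ev i).card * (cnt g pal Ev ∅ S₂ : ℝ) =
          6 ^ (Ev i).card * ((1 / 2 : ℝ) ^ (Ev i).card * (cnt g pal Ev ∅ S₂ : ℝ)) := by
        rw [← mul_assoc, ← mul_pow]
        norm_num
      calc (cnt g pal Ev (Ev i) S : ℝ) * ∏ p ∈ Ev i, ((pal (g p.1)).card : ℝ) ≤
            (cnt g pal Ev (Ev i) S₂ : ℝ) * ∏ p ∈ Ev i, ((pal (g p.1)).card : ℝ) :=
            mul_le_mul_of_nonneg_right h1' hP.le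
        _ = (∏ p ∈ Ev i, ((pal (g p.1)).card : ℝ)) * (cnt g pal Ev (Ev i) S₂ : ℝ) := mul_comm _ _
        _ ≤ _ := h2
        _ = _ := h8
        _ ≤ _ := mul_le_mul_of_nonneg_left h6 (by positivity)
  -- there is an admissible configuration
  have hOm : (Om g pal).Nonempty := by
    have h1 : ∀ j : J, ∃ e : A → K, (∀ a, g a = j → e a ∈ pal j) ∧
        ∀ a b, g a = j → g b = j → e a = e b → a = b := by
      intro j
      by_cases hj : ∃ a, g a = j
      · obtain ⟨a₀, rfl⟩ := hj
        have h2 : Fintype.card {b // g b = g a₀} ≤ Fintype.card {c // c ∈ pal (g a₀)} := by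
          rw [Fintype.card_subtype, Fintype.card_coe]
          exact hcard a₀
        obtain ⟨e⟩ := Function.Embedding.nonempty_of_card_le h2
        obtain ⟨c₀, hc₀⟩ := card_pos.1 (hpos a₀)
        refine ⟨fun a => if h : g a = g a₀ then (e ⟨a, h⟩).1 else c₀, ?_, ?_⟩
        · intro a ha
          simp only [dif_pos ha]
          exact (e ⟨a, ha⟩).2
        · intro a b ha hb hab
          simp only [dif_pos ha, dif_pos hb] at hab
          have := e.injective (Subtype.ext hab)
          exact congrArg Subtype.val this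
      · push Not at hj
        by_cases hA : Nonempty A
        · obtain ⟨a₀⟩ := hA
          obtain ⟨c₀, -⟩ := card_pos.1 (hpos a₀)
          exact ⟨fun _ => c₀, fun a ha => absurd ha (hj a), fun a b ha => absurd ha (hj a)⟩
        · exact ⟨fun a => absurd ⟨a⟩ hA, fun a => absurd ⟨a⟩ hA, fun a => absurd ⟨a⟩ hA⟩
    choose e he1 he2 using h1
    refine ⟨fun a => e (g a) a, mem_Om.2 ⟨fun a => he1 _ a rfl, fun a b hab h => ?_⟩⟩
    rw [← hab] at h
    exact he2 (g a) a b rfl hab.symm h
  have hfin : ∀ T : Finset ι, T ⊆ I → 0 < (cnt g pal Ev ∅ T : ℝ) := by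
    intro T
    induction T using Finset.induction_on with
    | empty =>
      intro _
      unfold cnt
      have : (Om g pal).filter (fun f => Sat f ∅ ∧ ∀ i ∈ (∅ : Finset ι), ¬ Sat f (Ev i)) =
          Om g pal := by
        apply filter_true_of_mem
        intro f _
        exact ⟨fun p hp => by simp at hp, fun i hi => by simp at hi⟩
      rw [this]
      exact_mod_cast card_pos.2 hOm
    | @insert k T hk ihT =>
      intro hT
      have hkI : k ∈ I := hT (mem_insert_self _ _)
      have hTI : T ⊆ I := fun y hy => hT (mem_insert_of_mem hy)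
      have h1 := ihT hTI
      have h2 := key _ T rfl hTI k hkI hk
      have h5 : cnt g pal Ev ∅ T = cnt g pal Ev ∅ (insert k T) + cnt g pal Ev (Ev k) T := by
        unfold cnt
        rw [← card_filter_add_card_filter_not (s := (Om g pal).filter
          fun f => Sat f ∅ ∧ ∀ i ∈ T, ¬ Sat f (Ev i)) (fun f => ¬ Sat f (Ev k))]
        congr 1
        · congr 1
          ext f
          simp only [mem_filter, mem_insert]
          constructor
          · rintro ⟨⟨h6, h7, h8⟩, h9⟩
            refine ⟨h6, h7, ?_⟩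
            rintro y (rfl | hy)
            · exact h9
            · exact h8 y hy
          · rintro ⟨h6, h7, h8⟩
            exact ⟨⟨h6, h7, fun y hy => h8 y (Or.inr hy)⟩, h8 k (Or.inl rfl)⟩
        · congr 1
          ext f
          simp only [mem_filter, not_not]
          constructor
          · rintro ⟨⟨h6, h7, h8⟩, h9⟩
            exact ⟨h6, h9, h8⟩
          · rintro ⟨h6, h7, h8⟩
            exact ⟨⟨h6, by intro p hp; simp at hp, h8⟩, h7⟩
      have h5' : (cnt g pal Ev ∅ T : ℝ) = cnt g pal Ev ∅ (insert k T) +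
          cnt g pal Ev (Ev k) T := by exact_mod_cast h5
      have hxk := hx4 k hkI
      nlinarith
  have h1 := hfin I subset_rfl
  have h2 : 0 < cnt g pal Ev ∅ I := by exact_mod_cast h1
  obtain ⟨f, hf⟩ := card_pos.1 h2
  rw [mem_filter] at hf
  have hfO := mem_Om.1 hf.1
  exact ⟨f, hfO.1, hfO.2, hf.2.2⟩

end LLL

end Run7.h882
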