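import Pool.Agent.Run7.h882.LLL

/-!
# The random edge colouring

The edges of the graph `G` are directed towards the end of larger rank.  Every vertex `w` colours the
edges directed to `w` by an injection into its palette (`s`), and every edge has a spare colour from the
set `R` (`f (inr e)`).  An edge `e` is blocked if an edge `g` that starts at the head of `e` has the same
colour and is not itself blocked.  The blocked edges take their spare colours.
-/

set_option autoImplicit false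
set_option linter.unusedSectionVars false

namespace Run7.h882

open Finset

variable {V K : Type} [Fintype V] [DecidableEq V] [Fintype K] [DecidableEq K]
  (G : SimpleGraph V) [DecidableRel G.Adj] (r : V → ℕ)

/-- the edges, directed towards the end of larger rank -/
abbrev Ed : Type := {p : V × V // G.Adj p.1 p.2 ∧ r p.1 < r p.2}

variable {G r}

/-- the tail of a directed edge -/
def tl (e : Ed G r) : V := e.1.1
/-- the head of a directed edge -/
def hd (e : Ed G r) : V := e.1.2

theorem ed_ext {e e' : Ed G r} (h1 : tl e = tl e') (h2 : hd e = hd e') : e = e' :=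
  Subtype.ext (Prod.ext h1 h2)

theorem tl_ne_hd (e : Ed G r) : tl e ≠ hd e := fun h => by
  have := e.2.2
  unfold tl hd at h
  rw [h] at this
  exact lt_irrefl _ this

/-- `x` and `y` are the ends of `e` -/
def Ends (e : Ed G r) (x y : V) : Prop := (tl e = x ∧ hd e = y) ∨ (tl e = y ∧ hd e = x)

theorem Ends.symm {e : Ed G r} {x y : V} (h : Ends e x y) : Ends e y x := Or.symm h

theorem Ends.unique {e e' : Ed G r} {x y : V} (h : Ends e x y) (h' : Ends e' x y) : e = e' := by
  have h1 := e.2.2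
  have h2 := e'.2.2
  rcases h with ⟨h, h3⟩ | ⟨h, h3⟩ <;> rcases h' with ⟨h', h4⟩ | ⟨h', h4⟩
  · exact ed_ext (h.trans h'.symm) (h3.trans h4.symm)
  · exfalso
    unfold tl hd at *
    rw [h, h3] at h1
    rw [h', h4] at h2
    exact lt_asymm h1 h2
  · exfalso
    unfold tl hd at *
    rw [h, h3] at h1
    rw [h', h4] at h2
    exact lt_asymm h1 h2
  · exact ed_ext (h.trans h'.symm) (h3.trans h4.symm)

theorem exists_ends (hr : ∀ u v, G.Adj u v → r u ≠ r v) {x y : V} (h : G.Adj x y) :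
    ∃ e : Ed G r, Ends e x y := by
  rcases lt_or_gt_of_ne (hr x y h) with h1 | h1
  · exact ⟨⟨(x, y), h, h1⟩, Or.inl ⟨rfl, rfl⟩⟩
  · exact ⟨⟨(y, x), h.symm, h1⟩, Or.inr ⟨rfl, rfl⟩⟩

theorem Ends.adj {e : Ed G r} {x y : V} (h : Ends e x y) : G.Adj x y := by
  rcases h with ⟨h, h3⟩ | ⟨h, h3⟩
  · rw [← h, ← h3]; exact e.2.1
  · rw [← h, ← h3]; exact e.2.1.symm

theorem dec_lt {e g : Ed G r} (h : tl g = hd e) :
    (univ.sup r) - r (hd g) < (univ.sup r) - r (hd e) := by
  have h1 := g.2.2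
  have h2 : r (hd g) ≤ univ.sup r := le_sup (mem_univ _)
  unfold tl at h
  rw [h] at h1
  unfold hd at *
  omega

/-- the blocked edges -/
def bl (s : Ed G r → K) : Ed G r → Prop :=
  (measure (fun e : Ed G r => (univ.sup r) - r (hd e))).wf.fix
    (fun e rec => ∃ g : Ed G r, ∃ h : tl g = hd e, s g = s e ∧ ¬ rec g (dec_lt h))

theorem bl_iff (s : Ed G r → K) (e : Ed G r) :
    bl s e ↔ ∃ g : Ed G r, tl g = hd e ∧ s g = s e ∧ ¬ bl s g := by
  unfold bl
  rw [WellFounded.fix_eq]
  exact ⟨fun ⟨g, h, h2, h3⟩ => ⟨g, h, h2, h3⟩, fun ⟨g, h, h2, h3⟩ => ⟨g, h, h2, h3⟩⟩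

/-- the group of a slot -/
def gr : Ed G r ⊕ Ed G r → V ⊕ Ed G r
  | Sum.inl e => Sum.inl (hd e)
  | Sum.inr e => Sum.inr e

/-- the palette of a group -/
def pl (pal : V → Finset K) (R : Finset K) : V ⊕ Ed G r → Finset K
  | Sum.inl w => pal w
  | Sum.inr _ => R

open Classical in
/-- the final colouring -/
noncomputable def fc (f : Ed G r ⊕ Ed G r → K) (e : Ed G r) : K :=
  if bl (fun e => f (Sum.inl e)) e then f (Sum.inr e) else f (Sum.inl e)

/-- the way an edge gets its colour: `none` if it keeps its colour, `some none` if it is blocked and its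
first colour is a given one, `some (some (y, g))` if its first colour is `y` and it is blocked by `g` -/
abbrev Dt (G : SimpleGraph V) (r : V → ℕ) (K : Type) : Type := Option (Option (K × Ed G r))

/-- the prescriptions -/
def W (e : Ed G r) (κ κ' : K) : Dt G r K → Finset ((Ed G r ⊕ Ed G r) × K)
  | none => {(Sum.inl e, κ)}
  | some none => {(Sum.inl e, κ'), (Sum.inr e, κ)}
  | some (some (y, g)) => {(Sum.inl e, y), (Sum.inl g, y), (Sum.inr e, κ)}

/-- the data are valid -/
def Va (pal : V → Finset K) (R : Finset K) (e : Ed G r) (κ κ' : K) : Dt G r K → Prop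
  | none => κ ∈ pal (hd e)
  | some none => κ ∈ R ∧ κ' ∈ pal (hd e)
  | some (some (y, g)) => κ ∈ R ∧ y ∈ pal (hd e) ∧ y ∈ pal (hd g) ∧ tl g = hd e

/-- the data are of the third kind -/
def isX : Dt G r K → Prop
  | none => False
  | some none => False
  | some (some _) => True

variable {pal : V → Finset K} {R : Finset K}

theorem W_nonempty (e : Ed G r) (κ κ' : K) (t : Dt G r K) : (W e κ κ' t).Nonempty := by
  rcases t with _ | _ | ⟨y, g⟩
  · exact ⟨_, mem_singleton_self _⟩
  · exact ⟨_, mem_insert_self _ _⟩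
  · exact ⟨_, mem_insert_self _ _⟩

theorem Va.pal_mem {e : Ed G r} {κ κ' : K} {t : Dt G r K} (h : Va pal R e κ κ' t) :
    ∀ p ∈ W e κ κ' t, p.2 ∈ pl pal R (gr p.1) := by
  intro p hp
  rcases t with _ | _ | ⟨y, g⟩
  · rw [W, mem_singleton] at hp
    subst hp
    exact h
  · rw [W, mem_insert, mem_singleton] at hp
    rcases hp with rfl | rfl
    · exact h.2
    · exact h.1
  · rw [W, mem_insert, mem_insert, mem_singleton] at hp
    rcases hp with rfl | rfl | rfl
    · exact h.2.1
    · exact h.2.2.1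
    · exact h.1

/-- what is known about the configuration -/
structure Good (pal : V → Finset K) (R : Finset K) (f : Ed G r ⊕ Ed G r → K) : Prop where
  mem : ∀ e, f (Sum.inl e) ∈ pal (hd e)
  memR : ∀ e, f (Sum.inr e) ∈ R
  inj : ∀ e e', hd e = hd e' → f (Sum.inl e) = f (Sum.inl e') → e = e'
  disj : ∀ e : Ed G r, Disjoint (pal (tl e)) R

/-- the data of an edge for the configuration `f`; `κ'` is the second colour of a cycle -/
theorem exists_data {f : Ed G r ⊕ Ed G r → K} (hf : Good pal R f) (e : Ed G r) (κ' : K) :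
    ∃ t : Dt G r K, Va pal R e (fc f e) κ' t ∧ Sat f (W e (fc f e) κ' t) ∧
      ((¬ bl (fun e => f (Sum.inl e)) e ∧ t = none ∧ fc f e = f (Sum.inl e)) ∨
        (bl (fun e => f (Sum.inl e)) e ∧ fc f e = f (Sum.inr e) ∧ f (Sum.inl e) = κ' ∧
          t = some none) ∨
        (bl (fun e => f (Sum.inl e)) e ∧ fc f e = f (Sum.inr e) ∧ f (Sum.inl e) ≠ κ' ∧
          ∃ g, t = some (some (f (Sum.inl e), g)) ∧ tl g = hd e ∧
            f (Sum.inl g) = f (Sum.inl e) ∧ ¬ bl (fun e => f (Sum.inl e)) g)) := by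
  by_cases hb : bl (fun e => f (Sum.inl e)) e
  · have hfc : fc f e = f (Sum.inr e) := by
      unfold fc; rw [if_pos hb]
    by_cases hk : f (Sum.inl e) = κ'
    · refine ⟨some none, ⟨?_, ?_⟩, ?_, Or.inr (Or.inl ⟨hb, hfc, hk, rfl⟩)⟩
      · rw [hfc]; exact hf.memR e
      · rw [← hk]; exact hf.mem e
      · intro p hp
        rw [W, mem_insert, mem_singleton] at hp
        rcases hp with rfl | rfl
        · exact hk
        · exact hfc.symm
    · obtain ⟨g, hg1, hg2, hg3⟩ := (bl_iff _ _).1 hb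
      refine ⟨some (some (f (Sum.inl e), g)), ⟨?_, ?_, ?_, hg1⟩, ?_,
        Or.inr (Or.inr ⟨hb, hfc, hk, g, rfl, hg1, hg2, hg3⟩)⟩
      · rw [hfc]; exact hf.memR e
      · exact hf.mem e
      · rw [← hg2]; exact hf.mem g
      · intro p hp
        rw [W, mem_insert, mem_insert, mem_singleton] at hp
        rcases hp with rfl | rfl | rfl
        · rfl
        · exact hg2
        · exact hfc.symm
  · have hfc : fc f e = f (Sum.inl e) := by
      unfold fc; rw [if_neg hb]
    refine ⟨none, ?_, ?_, Or.inl ⟨hb, rfl, hfc⟩⟩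
    · show fc f e ∈ pal (hd e)
      rw [hfc]; exact hf.mem e
    · intro p hp
      rw [W, mem_singleton] at hp
      subst hp
      exact hfc.symm

/-- the data of an edge for the configuration `f`, without a second colour -/
theorem exists_data' {f : Ed G r ⊕ Ed G r → K} (hf : Good pal R f) (e : Ed G r) :
    ∃ t : Dt G r K, Va pal R e (fc f e) (fc f e) t ∧ Sat f (W e (fc f e) (fc f e) t) ∧
      ((¬ bl (fun e => f (Sum.inl e)) e ∧ t = none ∧ fc f e = f (Sum.inl e)) ∨
        (bl (fun e => f (Sum.inl e)) e ∧ fc f e = f (Sum.inr e) ∧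
          ∃ g, t = some (some (f (Sum.inl e), g)) ∧ tl g = hd e ∧
            f (Sum.inl g) = f (Sum.inl e) ∧ ¬ bl (fun e => f (Sum.inl e)) g)) := by
  by_cases hb : bl (fun e => f (Sum.inl e)) e
  · have hfc : fc f e = f (Sum.inr e) := by
      unfold fc; rw [if_pos hb]
    obtain ⟨g, hg1, hg2, hg3⟩ := (bl_iff _ _).1 hb
    refine ⟨some (some (f (Sum.inl e), g)), ⟨?_, ?_, ?_, hg1⟩, ?_,
      Or.inr ⟨hb, hfc, g, rfl, hg1, hg2, hg3⟩⟩
    · rw [hfc]; exact hf.memR e
    · exact hf.mem e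
    · rw [← hg2]; exact hf.mem g
    · intro p hp
      rw [W, mem_insert, mem_insert, mem_singleton] at hp
      rcases hp with rfl | rfl | rfl
      · rfl
      · exact hg2
      · exact hfc.symm
  · have hfc : fc f e = f (Sum.inl e) := by
      unfold fc; rw [if_neg hb]
    refine ⟨none, ?_, ?_, Or.inl ⟨hb, rfl, hfc⟩⟩
    · show fc f e ∈ pal (hd e)
      rw [hfc]; exact hf.mem e
    · intro p hp
      rw [W, mem_singleton] at hp
      subst hp
      exact hfc.symm

/-- a pair of adjacent edges that can get the same colour -/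
def Rel (e e' : Ed G r) (t t' : Dt G r K) : Prop :=
  tl e = tl e' ∨ (hd e = hd e' ∧ isX t ∧ isX t') ∨ (hd e = tl e' ∧ isX t)

/-- the events for pairs of adjacent edges -/
def P1 (pal : V → Finset K) (R : Finset K)
    (x : Ed G r × Ed G r × K × Dt G r K × Dt G r K) : Prop :=
  x.1 ≠ x.2.1 ∧ x.2.2.2.1 ≠ some none ∧ x.2.2.2.2 ≠ some none ∧
    Va pal R x.1 x.2.2.1 x.2.2.1 x.2.2.2.1 ∧ Va pal R x.2.1 x.2.2.1 x.2.2.1 x.2.2.2.2 ∧
    Disjoint (W x.1 x.2.2.1 x.2.2.1 x.2.2.2.1) (W x.2.1 x.2.2.1 x.2.2.1 x.2.2.2.2) ∧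
    Rel x.1 x.2.1 x.2.2.2.1 x.2.2.2.2

/-- the event of a pair -/
def Ev1 (x : Ed G r × Ed G r × K × Dt G r K × Dt G r K) : Finset ((Ed G r ⊕ Ed G r) × K) :=
  W x.1 x.2.2.1 x.2.2.1 x.2.2.2.1 ∪ W x.2.1 x.2.2.1 x.2.2.1 x.2.2.2.2

theorem Sat.union {A B : Type} [DecidableEq A] [DecidableEq B] {f : A → B} {E E' : Finset (A × B)}
    (h : Sat f E) (h' : Sat f E') : Sat f (E ∪ E') := by
  intro p hp
  rcases mem_union.1 hp with hp | hp
  · exact h p hp
  · exact h' p hp

/-- two adjacent edges with the same final colour: a bad event holds -/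
theorem cover_pair_aux {f : Ed G r ⊕ Ed G r → K} (hf : Good pal R f) {e e' : Ed G r}
    (hne : e ≠ e') (hfc : fc f e = fc f e')
    (hsh : tl e = tl e' ∨ hd e = hd e' ∨ hd e = tl e') :
    ∃ x : Ed G r × Ed G r × K × Dt G r K × Dt G r K, P1 pal R x ∧ Sat f (Ev1 x) := by
  obtain ⟨t, ht1, ht2, ht3⟩ := exists_data' hf e
  obtain ⟨t', ht1', ht2', ht3'⟩ := exists_data' hf e'
  set κ := fc f e with hκ
  rw [← hfc] at ht1' ht2' ht3'
  refine ⟨(e, e', κ, t, t'), ⟨hne, ?_, ?_, ht1, ht1', ?_, ?_⟩, ht2.union ht2'⟩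
  · rcases ht3 with ⟨-, rfl, -⟩ | ⟨-, -, g, rfl, -⟩ <;> simp
  · rcases ht3' with ⟨-, rfl, -⟩ | ⟨-, -, g, rfl, -⟩ <;> simp
  · -- disjointness
    show Disjoint (W e κ κ t) (W e' κ κ t')
    rw [disjoint_left]
    intro p hp hp'
    have hcase : ∀ {e e' : Ed G r}, e ≠ e' → fc f e = κ → fc f e' = κ →
        (∃ g, tl g = hd e' ∧ f (Sum.inl g) = f (Sum.inl e') ∧
          ¬ bl (fun e => f (Sum.inl e)) g ∧ e = g) → bl (fun e => f (Sum.inl e)) e' → False := by
      rintro e e' hne h1 h2 ⟨g, hg1, hg2, hg3, rfl⟩ hb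
      have h3 : fc f e = f (Sum.inl e) := by unfold fc; rw [if_neg hg3]
      have h4 : fc f e' = f (Sum.inr e') := by unfold fc; rw [if_pos hb]
      have h5 : κ ∈ pal (tl e) := by
        rw [hg1, ← h1, h3, hg2]; exact hf.mem e'
      have h6 : κ ∈ R := by rw [← h2, h4]; exact hf.memR e'
      exact (disjoint_left.1 (hf.disj e)) h5 h6
    rcases ht3 with ⟨hb, rfl, h1⟩ | ⟨hb, h1, g, rfl, hg1, hg2, hg3⟩ <;>
    rcases ht3' with ⟨hb', rfl, h1'⟩ | ⟨hb', h1', g', rfl, hg1', hg2', hg3'⟩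
    · rw [W, mem_singleton] at hp hp'
      rw [hp] at hp'
      exact hne (Sum.inl_injective (Prod.ext_iff.1 hp').1)
    · rw [W, mem_singleton] at hp
      rw [W, mem_insert, mem_insert, mem_singleton] at hp'
      subst hp
      rcases hp' with h | h | h
      · exact hne (Sum.inl_injective (Prod.ext_iff.1 h).1)
      · exact hcase hne rfl hfc.symm ⟨g', hg1', hg2', hg3', Sum.inl_injective (Prod.ext_iff.1 h).1⟩ hb'
      · exact absurd (Prod.ext_iff.1 h).1 (by simp)
    · rw [W, mem_singleton] at hp'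
      rw [W, mem_insert, mem_insert, mem_singleton] at hp
      subst hp'
      rcases hp with h | h | h
      · exact hne (Sum.inl_injective (Prod.ext_iff.1 h).1).symm
      · exact hcase hne.symm hfc.symm rfl ⟨g, hg1, hg2, hg3, Sum.inl_injective (Prod.ext_iff.1 h).1⟩ hb
      · exact absurd (Prod.ext_iff.1 h).1 (by simp)
    · rw [W, mem_insert, mem_insert, mem_singleton] at hp hp'
      rcases hp with rfl | rfl | rfl <;> rcases hp' with h | h | h
      · exact hne (Sum.inl_injective (Prod.ext_iff.1 h).1)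
      · exact hcase hne rfl hfc.symm ⟨g', hg1', hg2', hg3', Sum.inl_injective (Prod.ext_iff.1 h).1⟩ hb'
      · exact absurd (Prod.ext_iff.1 h).1 (by simp)
      · exact hcase hne.symm hfc.symm rfl
          ⟨g, hg1, hg2, hg3, (Sum.inl_injective (Prod.ext_iff.1 h).1).symm⟩ hb
      · have h2 : g = g' := Sum.inl_injective (Prod.ext_iff.1 h).1
        have h3 : f (Sum.inl e) = f (Sum.inl e') := (Prod.ext_iff.1 h).2
        exact hne (hf.inj e e' (by rw [← hg1, h2, hg1']) h3)
      · exact absurd (Prod.ext_iff.1 h).1 (by simp)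
      · exact absurd (Prod.ext_iff.1 h).1 (by simp)
      · exact absurd (Prod.ext_iff.1 h).1 (by simp)
      · exact hne (Sum.inr_injective (Prod.ext_iff.1 h).1)
  · -- the relation
    show Rel e e' t t'
    rcases hsh with h | h | h
    · exact Or.inl h
    · right; left
      rcases ht3 with ⟨hb, rfl, h1⟩ | ⟨hb, h1, g, rfl, hg1, hg2, hg3⟩ <;>
      rcases ht3' with ⟨hb', rfl, h1'⟩ | ⟨hb', h1', g', rfl, hg1', hg2', hg3'⟩
      · exact absurd (hf.inj e e' h (h1.symm.trans h1')) hne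
      · exfalso
        have h5 : κ ∈ pal (tl g') := by rw [hg1', ← h, h1]; exact hf.mem e
        have h6 : κ ∈ R := by rw [h1']; exact hf.memR e'
        exact (disjoint_left.1 (hf.disj g')) h5 h6
      · exfalso
        have h5 : κ ∈ pal (tl g) := by rw [hg1, h, h1']; exact hf.mem e'
        have h6 : κ ∈ R := by rw [h1]; exact hf.memR e
        exact (disjoint_left.1 (hf.disj g)) h5 h6
      · exact ⟨h, trivial, trivial⟩
    · right; right
      refine ⟨h, ?_⟩
      rcases ht3 with ⟨hb, rfl, h1⟩ | ⟨hb, h1, g, rfl, hg1, hg2, hg3⟩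
      · exfalso
        rcases ht3' with ⟨hb', rfl, h1'⟩ | ⟨hb', h1', g', rfl, hg1', hg2', hg3'⟩
        · exact hb ((bl_iff _ _).2 ⟨e', h.symm, h1'.symm.trans h1, hb'⟩)
        · have h5 : κ ∈ pal (tl e') := by rw [← h, h1]; exact hf.mem e
          have h6 : κ ∈ R := by rw [h1']; exact hf.memR e'
          exact (disjoint_left.1 (hf.disj e')) h5 h6
      · trivial

/-- adjacent edges have different final colours if no bad event holds -/
theorem cover_pair {f : Ed G r ⊕ Ed G r → K} (hf : Good pal R f)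
    (h0 : ∀ x : Ed G r × Ed G r × K × Dt G r K × Dt G r K, P1 pal R x → ¬ Sat f (Ev1 x))
    {e e' : Ed G r} (hne : e ≠ e') {x y z : V} (he : Ends e x y) (he' : Ends e' x z) :
    fc f e ≠ fc f e' := by
  intro hfc
  have h1 : (tl e = tl e' ∨ hd e = hd e' ∨ hd e = tl e') ∨ hd e' = tl e := by
    rcases he with ⟨h1, h2⟩ | ⟨h1, h2⟩ <;> rcases he' with ⟨h3, h4⟩ | ⟨h3, h4⟩
    · exact Or.inl (Or.inl (h1.trans h3.symm))
    · exact Or.inr (h4.trans h1.symm)
    · exact Or.inl (Or.inr (Or.inr (h2.trans h3.symm)))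
    · exact Or.inl (Or.inr (Or.inl (h2.trans h4.symm)))
  rcases h1 with h1 | h1
  · obtain ⟨x, hx1, hx2⟩ := cover_pair_aux hf hne hfc h1
    exact h0 x hx1 hx2
  · obtain ⟨x, hx1, hx2⟩ := cover_pair_aux hf hne.symm hfc.symm (Or.inr (Or.inr h1))
    exact h0 x hx1 hx2

end Run7.h882
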