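import Pool.Agent.Run7.h882.Final

/-!
# The general theorem and degeneracy orders
-/

set_option autoImplicit false
set_option linter.unusedSectionVars false

namespace Run7.h882

open Finset Classical

variable {V : Type} [Fintype V] [DecidableEq V] {G : SimpleGraph V} [DecidableRel G.Adj]

/-- **General theorem.** -/
theorem gt (r : V → ℕ) (hr : ∀ u v, G.Adj u v → r u ≠ r v) (d k : ℕ) (hd1 : 1 ≤ d)
    (hk : 5000000000 * d ≤ k) (hup : ∀ v, (Up G r v).card ≤ d) (hdn : ∀ v, (Dn G r v).card ≤ k)
    (hdn' : ∀ v, (Up G r v).Nonempty → (Dn G r v).card + 10000000 * d ≤ k) :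
    ∃ c : V → V → Fin k, AEC G c := by
  obtain ⟨R, -, hR⟩ := exists_subset_card_eq (s := (univ : Finset (Fin k))) (n := 10000000 * d)
    (by rw [card_univ, Fintype.card_fin]; omega)
  have hRc : (univ \ R).card = k - 10000000 * d := by
    rw [card_sdiff_of_subset (subset_univ _), card_univ, Fintype.card_fin, hR]
  have h : Hyp G r (fun v => if (Up G r v).Nonempty then univ \ R else univ) R d
      (k - 10000000 * d) := by
    refine ⟨hr, hd1, hup, ?_, ?_, ?_, ?_, ?_, ?_⟩
    · intro v
      split_ifs with h1
      · rw [hRc]
        have := hdn' v h1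
        omega
      · rw [card_univ, Fintype.card_fin]
        exact hdn v
    · intro v
      split_ifs with h1
      · rw [hRc]
      · rw [card_univ, Fintype.card_fin]; omega
    · omega
    · rw [Fintype.card_fin]; omega
    · rw [hR]
    · intro e
      have h1 : (Up G r (tl e)).Nonempty :=
        ⟨hd e, by
          unfold Up
          rw [mem_filter]
          exact ⟨mem_univ _, e.2⟩⟩
      simp only [if_pos h1]
      exact sdiff_disjoint
  exact h.main

/-- A graph is `d`-degenerate if every nonempty set `S` of vertices has a member with at most `d`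
neighbours in `S`. -/
def Degen {V : Type} (G : SimpleGraph V) [DecidableRel G.Adj] (d : ℕ) : Prop :=
  ∀ S : Finset V, S.Nonempty → ∃ v ∈ S, (S.filter (fun w => G.Adj v w)).card ≤ d

theorem degen_order {d : ℕ} (h : Degen G d) (S : Finset V) :
    ∃ r : V → ℕ, (∀ u ∈ S, ∀ v ∈ S, r u = r v → u = v) ∧
      ∀ v ∈ S, (S.filter (fun w => G.Adj v w ∧ r v < r w)).card ≤ d := by
  induction hn : S.card generalizing S with
  | zero =>
    rw [card_eq_zero] at hn
    subst hn
    exact ⟨fun _ => 0, by simp, by simp⟩
  | succ n ih =>
    obtain ⟨v, hv, hvd⟩ := h S (card_pos.1 (by omega))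
    obtain ⟨r, hr1, hr2⟩ := ih (S.erase v) (by rw [card_erase_of_mem hv]; omega)
    refine ⟨fun w => if w = v then 0 else r w + 1, ?_, ?_⟩
    · intro a ha b hb hab
      by_cases h1 : a = v <;> by_cases h2 : b = v
      · rw [h1, h2]
      · simp [h1, h2] at hab
      · simp [h1, h2] at hab
      · simp only [h1, h2, if_false] at hab
        exact hr1 a (mem_erase.2 ⟨h1, ha⟩) b (mem_erase.2 ⟨h2, hb⟩) (by omega)
    · intro a ha
      by_cases h1 : a = v
      · refine le_trans (card_le_card ?_) hvd
        intro w hw
        rw [mem_filter] at hw ⊢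
        rw [h1] at hw
        exact ⟨hw.1, hw.2.1⟩
      · refine le_trans (card_le_card ?_) (hr2 a (mem_erase.2 ⟨h1, ha⟩))
        intro w hw
        rw [mem_filter] at hw ⊢
        obtain ⟨hw1, hw2, hw3⟩ := hw
        by_cases h2 : w = v
        · simp [h2] at hw3
        · simp only [h1, h2, if_false] at hw3
          exact ⟨mem_erase.2 ⟨h2, hw1⟩, hw2, by omega⟩

theorem degen_rank {d : ℕ} (h : Degen G d) :
    ∃ r : V → ℕ, Function.Injective r ∧ ∀ v, (Up G r v).card ≤ d := by
  obtain ⟨r, h1, h2⟩ := degen_order h univ
  exact ⟨r, fun u v huv => h1 u (mem_univ _) v (mem_univ _) huv, fun v => h2 v (mem_univ _)⟩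

theorem Dn_le (r : V → ℕ) (v : V) : (Dn G r v).card ≤ G.degree v := by
  rw [← G.card_neighborFinset_eq_degree v]
  apply card_le_card
  intro w hw
  unfold Dn at hw
  rw [mem_filter] at hw
  rw [SimpleGraph.mem_neighborFinset]
  exact hw.2.1

/-- graphs of bounded degeneracy -/
theorem degen_thm (d : ℕ) (hd1 : 1 ≤ d) (h : Degen G d) :
    ∃ c : V → V → Fin (G.maxDegree + 5000000000 * d), AEC G c := by
  obtain ⟨r, hr, hup⟩ := degen_rank h
  have hD : ∀ v, (Dn G r v).card ≤ G.maxDegree := fun v =>
    (Dn_le r v).trans (G.degree_le_maxDegree v)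
  refine gt r (fun u v huv h1 => huv.ne (hr h1)) d _ hd1 (by omega) hup ?_ ?_
  · intro v; have := hD v; omega
  · intro v _; have := hD v; omega

/-- graphs of bounded degeneracy with a sparse set of vertices of almost maximum degree -/
theorem degen_exact (d : ℕ) (hd1 : 1 ≤ d) (h : Degen G d) (hk : 10000000000 * d ≤ G.maxDegree)
    (hind : ∀ u v, G.Adj u v → G.degree u + 20000000 * d ≤ G.maxDegree ∨
      G.degree v + 20000000 * d ≤ G.maxDegree)
    (hfew : ∀ v, (univ.filter fun w => G.Adj v w ∧
      G.maxDegree < G.degree w + 20000000 * d).card ≤ d) :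
    ∃ c : V → V → Fin G.maxDegree, AEC G c := by
  obtain ⟨r, hr, hup⟩ := degen_rank h
  set B := univ.sup r + 1 with hB
  have hrB : ∀ v, r v < B := fun v => by
    have : r v ≤ univ.sup r := le_sup (mem_univ v)
    omega
  set r' : V → ℕ := fun v => if G.maxDegree < G.degree v + 20000000 * d then r v + B else r v
    with hr'
  have hinj : Function.Injective r' := by
    intro u v huv
    simp only [hr'] at huv
    have h1 := hrB u
    have h2 := hrB v
    split_ifs at huv
    · exact hr (by omega)
    · omega
    · omega
    · exact hr huv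
  -- vertices of large degree have no neighbours of larger rank
  have htop : ∀ v, G.maxDegree < G.degree v + 20000000 * d → Up G r' v = ∅ := by
    intro v hv
    apply eq_empty_of_forall_notMem
    intro w hw
    unfold Up at hw
    rw [mem_filter] at hw
    obtain ⟨-, hvw, hlt⟩ := hw
    have h1 : ¬ G.maxDegree < G.degree w + 20000000 * d := by
      have := hind v w hvw
      omega
    simp only [hr', if_pos hv, if_neg h1] at hlt
    have := hrB w
    omega
  refine gt r' (fun u v huv h1 => huv.ne (hinj h1)) (2 * d) _ (by omega) (by omega) ?_ ?_ ?_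
  · intro v
    by_cases hv : G.maxDegree < G.degree v + 20000000 * d
    · rw [htop v hv]; simp
    · have h1 : Up G r' v ⊆ Up G r v ∪ univ.filter (fun w => G.Adj v w ∧
          G.maxDegree < G.degree w + 20000000 * d) := by
        intro w hw
        unfold Up at hw ⊢
        rw [mem_filter] at hw
        rw [mem_union, mem_filter, mem_filter]
        by_cases h2 : G.maxDegree < G.degree w + 20000000 * d
        · exact Or.inr ⟨mem_univ _, hw.2.1, h2⟩
        · left
          refine ⟨mem_univ _, hw.2.1, ?_⟩
          have h3 := hw.2.2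
          simp only [hr', if_neg hv, if_neg h2] at h3
          exact h3
      have h2 := card_le_card h1
      have h3 := card_union_le (Up G r v) (univ.filter (fun w => G.Adj v w ∧
          G.maxDegree < G.degree w + 20000000 * d))
      have h4 := hup v
      have h5 := hfew v
      omega
  · intro v
    exact (Dn_le r' v).trans (G.degree_le_maxDegree v)
  · intro v hv
    have h1 : ¬ G.maxDegree < G.degree v + 20000000 * d := by
      intro h2
      rw [htop v h2] at hv
      exact not_nonempty_empty hv
    have h2 := Dn_le (G := G) r' v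
    omega

end Run7.h882
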