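import Pool.Agent.Run7.h882.SSum2

/-!
# The local lemma applied to the special edges
-/

set_option autoImplicit false
set_option linter.unusedSectionVars false

namespace Run7.h882.S

open Finset Classical

variable {V K : Type} [Fintype V] [DecidableEq V] [Fintype K] [DecidableEq K]
  {G : SimpleGraph V} [DecidableRel G.Adj] {r : V → ℕ}
variable {pal : V → Finset K} {D : Finset K} {d K0 : ℕ}

/-- the indices of all bad events -/
abbrev Idx (G : SimpleGraph V) (r : V → ℕ) (K : Type) : Type :=
  (Ed G r × Ed G r × Option K × Dt G r K × Dt G r K) ⊕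
    (Σ t : Fin (Fintype.card V + 1), Ix G r K (2 * t.val + 2))

/-- the bad events -/
def EvA : Idx G r K → Finset (Ed G r × K)
  | Sum.inl x => Ev1 x
  | Sum.inr x => Ev2 (2 * x.1.val + 2) x.2

/-- the admissible indices -/
def PA (pal : V → Finset K) (D : Finset K) : Idx G r K → Prop
  | Sum.inl x => P1 pal D x
  | Sum.inr x => P2 pal D (2 * x.1.val + 2) x.2

theorem Hyp.star (h : Hyp G r pal D d K0) (p : Ed G r × K) :
    ∑ x ∈ univ.filter (fun x : Idx G r K => PA pal D x ∧ p ∈ EvA x),
      xw hd pal (EvA x) ≤ 1 / 24 * wp pal p := by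
  have hK := h.K0_pos
  have hd1 := h.d_one
  have hw := wp_nonneg (pal := pal) p
  have hb := h.big'
  have hq : ((d : ℝ) * d) / K0 ≤ 1 / 1000000000 := by
    rw [div_le_div_iff₀ hK (by norm_num)]; linarith
  have hq0 : (0 : ℝ) ≤ ((d : ℝ) * d) / K0 := by positivity
  rw [sum_filter, Fintype.sum_sum_type, Fintype.sum_sigma]
  have h1 : ∑ x : Ed G r × Ed G r × Option K × Dt G r K × Dt G r K,
      (if PA pal D (Sum.inl x) ∧ p ∈ EvA (Sum.inl x : Idx G r K) then
        xw hd pal (EvA (Sum.inl x : Idx G r K)) else 0) ≤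
      800 * (d * d) / K0 * wp pal p := by
    rw [← sum_filter]
    exact pair_sum h p
  have h2 : ∑ t : Fin (Fintype.card V + 1), ∑ y : Ix G r K (2 * t.val + 2),
      (if PA pal D (Sum.inr ⟨t, y⟩) ∧ p ∈ EvA (Sum.inr ⟨t, y⟩ : Idx G r K) then
        xw hd pal (EvA (Sum.inr ⟨t, y⟩ : Idx G r K)) else 0) ≤
      872 * (2 * (4608 * (d * d) / K0)) * wp pal p := by
    have h3 : ∀ t : Fin (Fintype.card V + 1), ∑ y : Ix G r K (2 * t.val + 2),
        (if PA pal D (Sum.inr ⟨t, y⟩) ∧ p ∈ EvA (Sum.inr ⟨t, y⟩ : Idx G r K) then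
          xw hd pal (EvA (Sum.inr ⟨t, y⟩ : Idx G r K)) else 0) ≤
        (if t.val = 0 then 0 else 872 * (4608 * (d * d) / K0) ^ t.val * wp pal p) := by
      intro t
      by_cases ht : t.val = 0
      · rw [if_pos ht]
        apply le_of_eq
        apply sum_eq_zero
        intro y _
        rw [if_neg]
        rintro ⟨h3, -⟩
        have h4 : 4 ≤ 2 * t.val + 2 := h3.1
        omega
      · rw [if_neg ht, ← sum_filter]
        exact cyc_bound h t.val p
    refine (sum_le_sum fun t _ => h3 t).trans ?_
    rw [Fin.sum_univ_eq_sum_range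
      (fun t => if t = 0 then 0 else 872 * (4608 * ((d : ℝ) * d) / K0) ^ t * wp pal p)
      (Fintype.card V + 1), sum_range_succ']
    simp only [Nat.add_eq_zero_iff, one_ne_zero, and_false, if_false, if_true, add_zero]
    have h4 : ∀ t : ℕ, 872 * (4608 * ((d : ℝ) * d) / K0) ^ (t + 1) * wp pal p =
        (872 * wp pal p) * (4608 * ((d : ℝ) * d) / K0) ^ (t + 1) := fun t => by ring
    rw [sum_congr rfl fun t _ => h4 t, ← mul_sum]
    have h5 := geom (4608 * ((d : ℝ) * d) / K0) (by positivity)
      (by rw [mul_div_assoc]; linarith) (Fintype.card V)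
    calc _ ≤ (872 * wp pal p) * (2 * (4608 * ((d : ℝ) * d) / K0)) :=
          mul_le_mul_of_nonneg_left h5 (by positivity)
      _ = _ := by ring
  refine (add_le_add h1 h2).trans ?_
  rw [← add_mul]
  apply mul_le_mul_of_nonneg_right _ hw
  have h5 : 800 * ((d : ℝ) * d) / K0 + 872 * (2 * (4608 * (d * d) / K0)) =
    (800 + 872 * 2 * 4608) * (((d : ℝ) * d) / K0) := by ring
  rw [h5]
  linarith

/-- the configuration given by the local lemma -/
theorem core (h : Hyp G r pal D d K0) :
    ∃ s : Ed G r → K, Good pal s ∧ (∀ x, P1 pal D x → ¬ Sat s (Ev1 x)) ∧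
      ∀ t : ℕ, t < Fintype.card V + 1 → ∀ x : Ix G r K (2 * t + 2), P2 pal D (2 * t + 2) x →
        ¬ Sat s (Ev2 (2 * t + 2) x) := by
  obtain ⟨s, h1, h2, h3⟩ := lll (g := hd (G := G) (r := r)) (pal := pal)
    (Ev := EvA (G := G) (r := r) (K := K))
    (univ.filter fun x : Idx G r K => PA pal D x)
    (by
      intro x hx
      rw [mem_filter] at hx
      rcases x with x | ⟨t, x⟩
      · obtain ⟨p, hp⟩ := W_nonempty x.1 x.2.2.2.1
        exact ⟨p, mem_union_left _ hp⟩
      · have i : Fin (2 * t.val + 2) := ⟨0, by omega⟩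
        obtain ⟨p, hp⟩ := W_nonempty (x.2.1 i) (x.2.2.2.2 i)
        exact ⟨p, mem_biUnion.2 ⟨i, mem_univ _, hp⟩⟩)
    (by
      intro x hx p hp
      rw [mem_filter] at hx
      rcases x with x | ⟨t, x⟩
      · have hx2 : P1 pal D x := hx.2
        rcases mem_union.1 hp with hp | hp
        · exact hx2.2.1.pal_mem p hp
        · exact hx2.2.2.1.pal_mem p hp
      · have hx2 : P2 pal D (2 * t.val + 2) x := hx.2
        obtain ⟨i, -, hp⟩ := mem_biUnion.1 hp
        exact (hx2.2.2.2.1 i).pal_mem p hp)
    (by
      intro a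
      rw [card_in]
      exact h.dn (hd a))
    (by
      intro a c hc
      have h4 := h.star (a, c)
      rw [filter_filter]
      refine h4.trans (le_of_eq ?_)
      unfold wp
      have h5 := h.pal_pos (hd a)
      field_simp
      norm_num)
  refine ⟨s, ⟨h1, h2⟩, ?_, ?_⟩
  · intro x hx
    exact h3 (Sum.inl x) (mem_filter.2 ⟨mem_univ _, hx⟩)
  · intro t ht x hx
    exact h3 (Sum.inr ⟨⟨t, ht⟩, x⟩) (mem_filter.2 ⟨mem_univ _, hx⟩)

theorem exists_inj {A B : Type} (X : Finset A) (Y : Finset B) (b : B) (hXY : X.card ≤ Y.card) :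
    ∃ φ : A → B, (∀ a ∈ X, φ a ∈ Y) ∧ ∀ a ∈ X, ∀ a' ∈ X, φ a = φ a' → a = a' := by
  have h2 : Fintype.card {a // a ∈ X} ≤ Fintype.card {b // b ∈ Y} := by
    rw [Fintype.card_coe, Fintype.card_coe]
    exact hXY
  obtain ⟨e⟩ := Function.Embedding.nonempty_of_card_le h2
  refine ⟨fun a => if h : a ∈ X then (e ⟨a, h⟩).1 else b, ?_, ?_⟩
  · intro a ha
    simp only [dif_pos ha]
    exact (e ⟨a, ha⟩).2
  · intro a ha a' ha' h
    simp only [dif_pos ha, dif_pos ha'] at h
    have := e.injective (Subtype.ext h)
    exact congrArg Subtype.val this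

/-- a forest of small degree can be coloured with the colours of `D` -/
theorem forest_col (H : Ed G r → Prop) (s : Ed G r → K)
    (hbal : ∀ w, (univ.filter fun e : Ed G r => hd e = w ∧ H e).card +
      (univ.filter fun e : Ed G r => tl e = w ∧ H e).card ≤ D.card) :
    ∃ f : Ed G r → K, (∀ e, H e → f e ∈ D) ∧
      ∀ e e', H e → H e' → e ≠ e' → (hd e = hd e' ∨ hd e = tl e') → f e ≠ f e' := by
  have key : ∀ m N : ℕ, N + m = univ.sup r + 1 → ∃ f : Ed G r → K,
      (∀ e, H e → N ≤ r (hd e) → f e ∈ D) ∧
      ∀ e e', H e → H e' → e ≠ e' → N ≤ r (hd e) → N ≤ r (hd e') →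
        (hd e = hd e' ∨ hd e = tl e') → f e ≠ f e' := by
    intro m
    induction m with
    | zero =>
      intro N hN
      have h1 : ∀ v, ¬ N ≤ r v := by
        intro v hv
        have : r v ≤ univ.sup r := le_sup (mem_univ v)
        omega
      exact ⟨s, fun e _ h2 => absurd h2 (h1 _), fun e e' _ _ _ h2 => absurd h2 (h1 _)⟩
    | succ m ih =>
      intro N hN
      obtain ⟨f, hf1, hf2⟩ := ih (N + 1) (by omega)
      have hφ : ∀ w : V, ∃ φ : Ed G r → K,
          (∀ e, hd e = w → H e → φ e ∈ D ∧ ∀ g, tl g = w → H g → φ e ≠ f g) ∧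
          ∀ e e', hd e = w → H e → hd e' = w → H e' → φ e = φ e' → e = e' := by
        intro w
        by_cases hne : ∃ e : Ed G r, hd e = w
        · obtain ⟨e₀, -⟩ := hne
          set U : Finset K := (univ.filter fun e : Ed G r => tl e = w ∧ H e).image f with hU
          have h1 : (univ.filter fun e : Ed G r => hd e = w ∧ H e).card ≤ (D \ U).card := by
            have h2 := hbal w
            have h3 : U.card ≤ (univ.filter fun e : Ed G r => tl e = w ∧ H e).card :=
              card_image_le
            have h4 := le_card_sdiff U D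
            omega
          obtain ⟨φ, h2, h3⟩ := exists_inj _ _ (s e₀) h1
          refine ⟨φ, ?_, ?_⟩
          · intro e he heH
            have h4 := h2 e (mem_filter.2 ⟨mem_univ _, he, heH⟩)
            rw [mem_sdiff] at h4
            refine ⟨h4.1, ?_⟩
            intro g hg hgH h5
            apply h4.2
            rw [h5, hU]
            exact mem_image_of_mem _ (mem_filter.2 ⟨mem_univ _, hg, hgH⟩)
          · intro e e' he heH he' heH' h4
            exact h3 e (mem_filter.2 ⟨mem_univ _, he, heH⟩) e'
              (mem_filter.2 ⟨mem_univ _, he', heH'⟩) h4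
        · exact ⟨s, fun e he => absurd ⟨e, he⟩ hne, fun e e' he => absurd ⟨e, he⟩ hne⟩
      choose φ hφ1 hφ2 using hφ
      refine ⟨fun e => if r (hd e) = N then φ (hd e) e else f e, ?_, ?_⟩
      · intro e he hN'
        dsimp only
        split_ifs with h1
        · exact (hφ1 (hd e) e rfl he).1
        · exact hf1 e he (by omega)
      · intro e e' he he' hne hN1 hN2 hor
        dsimp only
        rcases hor with h1 | h1
        · rw [← h1]
          split_ifs with h2
          · intro h3
            exact hne (hφ2 (hd e) e e' rfl he h1.symm he' h3)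
          · exact hf2 e e' he he' hne (by omega) (by rw [← h1]; omega) (Or.inl h1)
        · have h2 : r (hd e) < r (hd e') := by
            have := e'.2.2
            rw [h1]
            exact this
          rw [if_neg (show ¬ r (hd e') = N by omega)]
          split_ifs with h3
          · exact (hφ1 (hd e) e rfl he).2 e' h1.symm he'
          · exact hf2 e e' he he' hne (by omega) (by omega) (Or.inr h1)
  obtain ⟨f, h1, h2⟩ := key (univ.sup r + 1) 0 (by omega)
  exact ⟨f, fun e he => h1 e he (Nat.zero_le _), fun e e' he he' hne hor =>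
    h2 e e' he he' hne (Nat.zero_le _) (Nat.zero_le _) hor⟩

/-- the number of special edges at a vertex -/
theorem balance {s : Ed G r → K} (hs : Good pal s) (w : V)
    (hw : (pal w ∩ D).card + (Up G r w).card ≤ D.card) :
    (univ.filter fun e : Ed G r => hd e = w ∧ Sp D s e).card +
      (univ.filter fun e : Ed G r => tl e = w ∧ Sp D s e).card ≤ D.card := by
  have h1 : (univ.filter fun e : Ed G r => hd e = w ∧ Sp D s e).card ≤
      (pal w ∩ D).card + (univ.filter fun e : Ed G r => tl e = w ∧ ¬ Sp D s e).card := by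
    have h2 : ((univ.filter fun e : Ed G r => hd e = w ∧ Sp D s e).image s).card =
        (univ.filter fun e : Ed G r => hd e = w ∧ Sp D s e).card := by
      apply card_image_of_injOn
      intro e he e' he' h
      rw [mem_coe, mem_filter] at he he'
      exact hs.inj e e' (he.2.1.trans he'.2.1.symm) h
    rw [← h2]
    have h3 : (univ.filter fun e : Ed G r => hd e = w ∧ Sp D s e).image s ⊆
        (pal w ∩ D) ∪ (univ.filter fun e : Ed G r => tl e = w ∧ ¬ Sp D s e).image s := by
      intro c hc
      rw [mem_image] at hc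
      obtain ⟨e, he, rfl⟩ := hc
      rw [mem_filter] at he
      obtain ⟨-, he1, he2⟩ := he
      rw [mem_union, mem_inter, mem_image]
      by_cases h4 : s e ∈ D
      · left
        refine ⟨?_, h4⟩
        rw [← he1]; exact hs.mem e
      · right
        rcases he2 with h5 | h5
        · exact absurd h5 h4
        · obtain ⟨g, hg1, hg2, hg3⟩ := (bl_iff _ _).1 h5
          refine ⟨g, mem_filter.2 ⟨mem_univ _, hg1.trans he1, ?_⟩, hg2⟩
          rintro (h6 | h6)
          · rw [hg2] at h6; exact h4 h6
          · exact hg3 h6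
    refine (card_le_card h3).trans ((card_union_le _ _).trans ?_)
    exact Nat.add_le_add_left card_image_le _
  have h2 : (univ.filter fun e : Ed G r => tl e = w ∧ Sp D s e).card +
      (univ.filter fun e : Ed G r => tl e = w ∧ ¬ Sp D s e).card = (Up G r w).card := by
    rw [← card_out]
    rw [← card_filter_add_card_filter_not (s := univ.filter fun g : Ed G r => tl g = w)
      (fun g => Sp D s g), filter_filter, filter_filter]
  omega

/-- the colour of a pair -/
noncomputable def ce (F : Ed G r → K) (k0 : K) (u v : V) : K :=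
  if h : ∃ e : Ed G r, Ends e u v then F h.choose else k0

theorem ce_eq {F : Ed G r → K} {k0 : K} {u v : V} {e : Ed G r} (h : Ends e u v) :
    ce F k0 u v = F e := by
  have h1 : ∃ e : Ed G r, Ends e u v := ⟨e, h⟩
  unfold ce
  rw [dif_pos h1, h1.choose_spec.unique h]

theorem ce_symm (F : Ed G r → K) (k0 : K) (u v : V) : ce F k0 u v = ce F k0 v u := by
  by_cases h : ∃ e : Ed G r, Ends e u v
  · obtain ⟨e, he⟩ := h
    rw [ce_eq he, ce_eq he.symm]
  · have h' : ¬ ∃ e : Ed G r, Ends e v u := fun ⟨e, he⟩ => h ⟨e, he.symm⟩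
    unfold ce
    rw [dif_neg h, dif_neg h']

/-- **Main theorem in palette form.** -/
theorem Hyp.main (h : Hyp G r pal D d K0)
    (hbal : ∀ w, (pal w ∩ D).card + (Up G r w).card ≤ D.card) :
    ∃ c : V → V → K, AEC G c := by
  obtain ⟨s, hs, h1, h2⟩ := core h
  obtain ⟨f, hf1, hf2⟩ := forest_col (D := D) (Sp D s) s (fun w => balance hs w (hbal w))
  by_cases hV : Nonempty V
  swap
  · refine ⟨fun u => absurd ⟨u⟩ hV, ⟨fun u => absurd ⟨u⟩ hV, fun u => absurd ⟨u⟩ hV,
      fun u => absurd ⟨u⟩ hV⟩⟩
  obtain ⟨v₀⟩ := hV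
  have hk : 0 < (pal v₀).card := by exact_mod_cast h.pal_pos v₀
  obtain ⟨k0, -⟩ := card_pos.1 hk
  set F : Ed G r → K := fun e => if Sp D s e then f e else s e with hF
  have hFs : ∀ e, Sp D s e → F e = f e := fun e he => by simp only [hF, if_pos he]
  have hFn : ∀ e, ¬ Sp D s e → F e = s e := fun e he => by simp only [hF, if_neg he]
  have hlb : ∀ e, lb D s e = if F e ∈ D then none else some (F e) := by
    intro e
    by_cases he : Sp D s e
    · rw [hFs e he, if_pos (hf1 e he)]
      unfold lb; rw [if_pos he]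
    · rw [hFn e he, if_neg (fun h3 => he (Or.inl h3))]
      unfold lb; rw [if_neg he]
  -- two edges with a common vertex
  have hprop : ∀ e e' : Ed G r, e ≠ e' → (tl e = tl e' ∨ hd e = hd e' ∨ hd e = tl e') →
      F e ≠ F e' := by
    intro e e' hne hor heq
    rcases hor with h3 | h3
    · have h4 := cover_pair (D := D) hs h1 hne h3
      rw [hlb e, hlb e', heq] at h4
      exact h4 rfl
    · by_cases he : Sp D s e
      · by_cases he' : Sp D s e'
        · rw [hFs e he, hFs e' he'] at heq
          exact hf2 e e' he he' hne h3 heq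
        · rw [hFs e he, hFn e' he'] at heq
          have h4 := hf1 e he
          rw [heq] at h4
          exact he' (Or.inl h4)
      · by_cases he' : Sp D s e'
        · rw [hFn e he, hFs e' he'] at heq
          have h4 := hf1 e' he'
          rw [← heq] at h4
          exact he (Or.inl h4)
        · rw [hFn e he, hFn e' he'] at heq
          rcases h3 with h3 | h3
          · exact hne (hs.inj e e' h3 heq)
          · exact he (Or.inr ((bl_iff _ _).2 ⟨e', h3.symm, heq.symm, fun h5 => he' (Or.inr h5)⟩))
  refine ⟨ce F k0, aec_of (ce_symm F k0) ?_ ?_⟩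
  · intro u v w huv huw hvw
    obtain ⟨e, he⟩ := exists_ends h.rk huv
    obtain ⟨e', he'⟩ := exists_ends h.rk huw
    rw [ce_eq he, ce_eq he']
    have hne : e ≠ e' := by
      rintro rfl
      apply hvw
      rcases he with ⟨a1, a2⟩ | ⟨a1, a2⟩ <;> rcases he' with ⟨b1, b2⟩ | ⟨b1, b2⟩
      · exact a2.symm.trans b2
      · exact absurd (a1.trans b2.symm) (tl_ne_hd e)
      · exact absurd (b1.trans a2.symm) (tl_ne_hd e)
      · exact a1.symm.trans b1
    rcases he with ⟨a1, a2⟩ | ⟨a1, a2⟩ <;> rcases he' with ⟨b1, b2⟩ | ⟨b1, b2⟩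
    · exact hprop e e' hne (Or.inl (a1.trans b1.symm))
    · exact (hprop e' e hne.symm (Or.inr (Or.inr (b2.trans a1.symm)))).symm
    · exact hprop e e' hne (Or.inr (Or.inr (a2.trans b1.symm)))
    · exact hprop e e' hne (Or.inr (Or.inl (a2.trans b2.symm)))
  · intro n hn hev v hv hadj α β hcol
    choose ee hee using fun i => exists_ends h.rk (hadj i)
    have hcol' : ∀ i, F (ee i) = kp α β i := by
      intro i
      rw [← ce_eq (F := F) (k0 := k0) (hee i)]; exact hcol i
    set a : Option K := if α ∈ D then none else some α with ha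
    set b : Option K := if β ∈ D then none else some β with hb
    have hlab : ∀ i, lb D s (ee i) = kp a b i := by
      intro i
      rw [hlb, hcol' i, ha, hb]
      unfold kp
      by_cases h3 : Even i.val
      · simp only [if_pos h3]
      · simp only [if_neg h3]
    by_cases hab : a = none ∧ b = none
    · -- all edges are special
      have hnon : ∀ i, lb D s (ee i) = none := by
        intro i
        rw [hlab i]
        unfold kp
        split_ifs
        · exact hab.1
        · exact hab.2
      have i0 : Fin n := ⟨0, by omega⟩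
      obtain ⟨i, -, hi⟩ := exists_min_image univ (fun i => r (v i)) ⟨i0, mem_univ _⟩
      have hsurj : Function.Surjective (nx (n := n)) :=
        Finite.injective_iff_surjective.1 fun a b hab => nx_inj hab
      obtain ⟨j, hj⟩ := hsurj i
      have hij : i ≠ j := by
        rintro rfl
        have h3 := (hee i).adj
        rw [hj] at h3
        exact h3.ne rfl
      have h3 : tl (ee i) = v i := by
        rcases hee i with ⟨h4, h5⟩ | ⟨h4, h5⟩
        · exact h4
        · exfalso
          have h6 := (ee i).2.2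
          have h7 := hi (nx i) (mem_univ _)
          unfold tl hd at *
          rw [h4, h5] at h6
          omega
      have h4 : tl (ee j) = v i := by
        have h5 := hee j
        rw [hj] at h5
        rcases h5 with ⟨h4, h5⟩ | ⟨h4, h5⟩
        · exfalso
          have h6 := (ee j).2.2
          have h7 := hi j (mem_univ _)
          unfold tl hd at *
          rw [h4, h5] at h6
          omega
        · exact h4
      have h5 := share_ne (by omega) hv hee hij
      exact cover_pair (D := D) hs h1 h5 (h3.trans h4.symm) ((hnon i).trans (hnon j).symm)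
    · obtain ⟨x, hx1, hx2⟩ := cover_cycle (D := D) hs hn hev hv hee hab hlab
      have hle : n ≤ Fintype.card V := by
        have := Fintype.card_le_of_injective v hv
        rwa [Fintype.card_fin] at this
      have key : ∀ t, n = 2 * t + 2 → False := by
        rintro t rfl
        exact h2 t (by omega) x hx1 hx2
      obtain ⟨k, hk⟩ := hev
      exact key (k - 1) (by omega)

/-- **General theorem.** -/
theorem gt (r : V → ℕ) (hr : ∀ u v, G.Adj u v → r u ≠ r v) (d k : ℕ) (hd1 : 1 ≤ d)
    (hk : 2000000000 * (d * d) ≤ k) (hup : ∀ v, (Up G r v).card ≤ d)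
    (hdeg : ∀ v, (Dn G r v).card + (Up G r v).card ≤ k) :
    ∃ c : V → V → Fin k, AEC G c := by
  have hdd : d ≤ d * d := Nat.le_mul_of_pos_left d hd1
  obtain ⟨D, -, hD⟩ := exists_subset_card_eq (s := (univ : Finset (Fin k))) (n := d)
    (by rw [card_univ, Fintype.card_fin]; omega)
  have hDw : ∀ w : V, ∃ Dw ⊆ D, Dw.card = (Up G r w).card := fun w =>
    exists_subset_card_eq (by rw [hD]; exact hup w)
  choose Dw hDw1 hDw2 using hDw
  have hpc : ∀ w, (univ \ Dw w).card = k - (Up G r w).card := by
    intro w
    rw [card_sdiff_of_subset (subset_univ _), card_univ, Fintype.card_fin, hDw2]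
  have h : Hyp G r (fun w => univ \ Dw w) D d (k - d) := by
    refine ⟨hr, hd1, hup, ?_, ?_, ?_, ?_, ?_⟩
    · intro v
      rw [hpc]
      have := hdeg v
      omega
    · intro v
      rw [hpc]
      have := hup v
      omega
    · omega
    · rw [Fintype.card_fin]; omega
    · rw [hD]
  apply h.main
  intro w
  have h1 : (univ \ Dw w) ∩ D = D \ Dw w := by
    ext x
    simp only [mem_inter, mem_sdiff, mem_univ, true_and]
    exact and_comm
  rw [h1, card_sdiff_of_subset (hDw1 w), hDw2, hD]
  have := hup w
  omega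

end Run7.h882.S
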