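import Pool.Agent.Run7.h882.SCore

/-!
# Degenerate graphs of large maximum degree
-/

set_option autoImplicit false
set_option linter.unusedSectionVars false

namespace Run7.h882.S

open Finset Classical

variable {V : Type} [Fintype V] [DecidableEq V] {G : SimpleGraph V} [DecidableRel G.Adj]

theorem Dn_add_Up_le (r : V → ℕ) (v : V) : (Dn G r v).card + (Up G r v).card ≤ G.degree v := by
  have h1 : Disjoint (Dn G r v) (Up G r v) := by
    rw [disjoint_left]
    intro w hw hw'
    unfold Dn at hw
    unfold Up at hw'
    rw [mem_filter] at hw hw'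
    exact lt_asymm hw.2.2 hw'.2.2
  rw [← card_union_of_disjoint h1, ← G.card_neighborFinset_eq_degree v]
  apply card_le_card
  intro w hw
  rw [mem_union] at hw
  rw [SimpleGraph.mem_neighborFinset]
  unfold Dn Up at hw
  rw [mem_filter, mem_filter] at hw
  rcases hw with hw | hw
  · exact hw.2.1
  · exact hw.2.1

/-- degenerate graphs -/
theorem degen_max (d k : ℕ) (hd1 : 1 ≤ d) (h : Degen G d) (hk : G.maxDegree ≤ k)
    (hk' : 2000000000 * (d * d) ≤ k) : ∃ c : V → V → Fin k, AEC G c := by
  obtain ⟨r, hr, hup⟩ := degen_rank h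
  refine gt r (fun u v huv h1 => huv.ne (hr h1)) d k hd1 hk' hup ?_
  intro v
  exact (Dn_add_Up_le r v).trans ((G.degree_le_maxDegree v).trans hk)

end Run7.h882.S
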