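import Pool.Agent.Run7.h882.Rank

/-!
# Special edges

Every vertex `w` colours the edges directed to `w` by an injection `s` into its palette.  The colours of
a small set `D` are not used directly: an edge `e` is special if its colour lies in `D` or if an
unblocked edge that starts at the head of `e` has the same colour.  The label of an edge is `none` if it
is special and `some c` if it is not special and has the colour `c`.
-/

set_option autoImplicit false
set_option linter.unusedSectionVars false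

namespace Run7.h882.S

open Finset

variable {V K : Type} [Fintype V] [DecidableEq V] [Fintype K] [DecidableEq K]
  {G : SimpleGraph V} [DecidableRel G.Adj] {r : V → ℕ}

/-- the special edges -/
def Sp (D : Finset K) (s : Ed G r → K) (e : Ed G r) : Prop := s e ∈ D ∨ bl s e

open Classical in
/-- the label of an edge -/
noncomputable def lb (D : Finset K) (s : Ed G r → K) (e : Ed G r) : Option K :=
  if Sp D s e then none else some (s e)

/-- the data of an edge: `inl c` if its colour is `c`, `inr (c, g)` if its colour is `c` and it is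
blocked by `g` -/
abbrev Dt (G : SimpleGraph V) (r : V → ℕ) (K : Type) : Type := K ⊕ (K × Ed G r)

/-- the prescriptions -/
def W (e : Ed G r) : Dt G r K → Finset (Ed G r × K)
  | Sum.inl c => {(e, c)}
  | Sum.inr (c, g) => {(e, c), (g, c)}

/-- the data are valid for the label `x`, where `y` is the second label of a cycle -/
def Va (pal : V → Finset K) (D : Finset K) (e : Ed G r) (x y : Option K) : Dt G r K → Prop
  | Sum.inl c => c ∈ pal (hd e) ∧ (x = some c ∨ (x = none ∧ (c ∈ D ∨ y = some c)))
  | Sum.inr (c, g) => x = none ∧ c ∈ pal (hd e) ∧ c ∈ pal (hd g) ∧ tl g = hd e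

variable {pal : V → Finset K} {D : Finset K}

theorem W_nonempty (e : Ed G r) (t : Dt G r K) : (W e t).Nonempty := by
  rcases t with c | ⟨c, g⟩
  · exact ⟨_, mem_singleton_self _⟩
  · exact ⟨_, mem_insert_self _ _⟩

theorem Va.pal_mem {e : Ed G r} {x y : Option K} {t : Dt G r K} (h : Va pal D e x y t) :
    ∀ p ∈ W e t, p.2 ∈ pal (hd p.1) := by
  intro p hp
  rcases t with c | ⟨c, g⟩
  · rw [W, mem_singleton] at hp
    subst hp
    exact h.1
  · rw [W, mem_insert, mem_singleton] at hp
    rcases hp with rfl | rfl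
    · exact h.2.1
    · exact h.2.2.1

/-- what is known about the configuration -/
structure Good (pal : V → Finset K) (s : Ed G r → K) : Prop where
  mem : ∀ e, s e ∈ pal (hd e)
  inj : ∀ e e', hd e = hd e' → s e = s e' → e = e'

/-- the data of an edge for the configuration `s` -/
theorem exists_data {s : Ed G r → K} (hs : Good pal s) (e : Ed G r) (y : Option K) :
    ∃ t : Dt G r K, Va pal D e (lb D s e) y t ∧ Sat s (W e t) ∧
      (t = Sum.inl (s e) ∨ (lb D s e = none ∧ y ≠ some (s e) ∧
        ∃ g, t = Sum.inr (s e, g) ∧ tl g = hd e ∧ s g = s e ∧ ¬ Sp D s g)) := by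
  by_cases h1 : Sp D s e
  · have hl : lb D s e = none := by unfold lb; rw [if_pos h1]
    by_cases h2 : s e ∈ D ∨ y = some (s e)
    · refine ⟨Sum.inl (s e), ⟨hs.mem e, Or.inr ⟨hl, h2⟩⟩, ?_, Or.inl rfl⟩
      intro p hp
      rw [W, mem_singleton] at hp
      subst hp; rfl
    · push Not at h2
      rcases h1 with h1 | h1
      · exact absurd h1 h2.1
      · obtain ⟨g, hg1, hg2, hg3⟩ := (bl_iff _ _).1 h1
        refine ⟨Sum.inr (s e, g), ⟨hl, hs.mem e, ?_, hg1⟩, ?_, Or.inr ⟨hl, h2.2, g, rfl, hg1, hg2, ?_⟩⟩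
        · rw [← hg2]; exact hs.mem g
        · intro p hp
          rw [W, mem_insert, mem_singleton] at hp
          rcases hp with rfl | rfl
          · rfl
          · exact hg2
        · rintro (h3 | h3)
          · rw [hg2] at h3; exact h2.1 h3
          · exact hg3 h3
  · have hl : lb D s e = some (s e) := by unfold lb; rw [if_neg h1]
    refine ⟨Sum.inl (s e), ⟨hs.mem e, Or.inl hl⟩, ?_, Or.inl rfl⟩
    intro p hp
    rw [W, mem_singleton] at hp
    subst hp; rfl

/-- the events for pairs of edges with a common tail -/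
def P1 (pal : V → Finset K) (D : Finset K)
    (x : Ed G r × Ed G r × Option K × Dt G r K × Dt G r K) : Prop :=
  tl x.1 = tl x.2.1 ∧
    Va pal D x.1 x.2.2.1 none x.2.2.2.1 ∧ Va pal D x.2.1 x.2.2.1 none x.2.2.2.2 ∧
    Disjoint (W x.1 x.2.2.2.1) (W x.2.1 x.2.2.2.2)

/-- the event of a pair -/
def Ev1 (x : Ed G r × Ed G r × Option K × Dt G r K × Dt G r K) : Finset (Ed G r × K) :=
  W x.1 x.2.2.2.1 ∪ W x.2.1 x.2.2.2.2

/-- edges with the same tail have different labels if no bad event holds -/
theorem cover_pair {s : Ed G r → K} (hs : Good pal s)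
    (h0 : ∀ x : Ed G r × Ed G r × Option K × Dt G r K × Dt G r K, P1 pal D x → ¬ Sat s (Ev1 x))
    {e e' : Ed G r} (hne : e ≠ e') (htl : tl e = tl e') : lb D s e ≠ lb D s e' := by
  intro hl
  obtain ⟨t, ht1, ht2, ht3⟩ := exists_data (D := D) hs e none
  obtain ⟨t', ht1', ht2', ht3'⟩ := exists_data (D := D) hs e' none
  rw [← hl] at ht1' ht3'
  refine h0 (e, e', lb D s e, t, t') ⟨htl, ht1, ht1', ?_⟩ (ht2.union ht2')
  rw [disjoint_left]
  intro p hp hp'
  simp only at hp hp'
  have hg1 : ∀ {e e' g : Ed G r}, tl e = tl e' → tl g = hd e' → e ≠ g := by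
    rintro e e' g h1 h2 rfl
    exact tl_ne_hd e' (h1.symm.trans h2)
  rcases ht3 with rfl | ⟨-, -, g, rfl, h1, h2, h3⟩ <;>
  rcases ht3' with rfl | ⟨-, -, g', rfl, h1', h2', h3'⟩
  · rw [W, mem_singleton] at hp hp'
    rw [hp] at hp'
    exact hne (Prod.ext_iff.1 hp').1
  · rw [W, mem_singleton] at hp
    rw [W, mem_insert, mem_singleton] at hp'
    subst hp
    rcases hp' with h | h
    · exact hne (Prod.ext_iff.1 h).1
    · exact hg1 htl h1' (Prod.ext_iff.1 h).1
  · rw [W, mem_singleton] at hp'
    rw [W, mem_insert, mem_singleton] at hp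
    subst hp'
    rcases hp with h | h
    · exact hne (Prod.ext_iff.1 h).1.symm
    · exact hg1 htl.symm h1 (Prod.ext_iff.1 h).1
  · rw [W, mem_insert, mem_singleton] at hp hp'
    rcases hp with rfl | rfl <;> rcases hp' with h | h
    · exact hne (Prod.ext_iff.1 h).1
    · exact hg1 htl h1' (Prod.ext_iff.1 h).1
    · exact hg1 htl.symm h1 (Prod.ext_iff.1 h).1.symm
    · have h4 : g = g' := (Prod.ext_iff.1 h).1
      exact hne (ed_ext htl (by rw [← h1, h4, h1']))

/-- the indices of the events for cycles of length `n` -/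
abbrev Ix (G : SimpleGraph V) (r : V → ℕ) (K : Type) (n : ℕ) : Type :=
  (Fin n → V) × (Fin n → Ed G r) × Option K × Option K × (Fin n → Dt G r K)

/-- the events for cycles -/
def P2 (pal : V → Finset K) (D : Finset K) (n : ℕ) (x : Ix G r K n) : Prop :=
  4 ≤ n ∧ ¬ (x.2.2.1 = none ∧ x.2.2.2.1 = none) ∧ (∀ i, Ends (x.2.1 i) (x.1 i) (x.1 (nx i))) ∧
    (∀ i, Va pal D (x.2.1 i) (kp x.2.2.1 x.2.2.2.1 i) (kp x.2.2.2.1 x.2.2.1 i) (x.2.2.2.2 i)) ∧
    ∀ i j, i ≠ j → Disjoint (W (x.2.1 i) (x.2.2.2.2 i)) (W (x.2.1 j) (x.2.2.2.2 j))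

/-- the event of a cycle -/
def Ev2 (n : ℕ) (x : Ix G r K n) : Finset (Ed G r × K) :=
  univ.biUnion fun i => W (x.2.1 i) (x.2.2.2.2 i)

/-- a cycle with two alternating labels, not both special: a bad event holds -/
theorem cover_cycle {s : Ed G r → K} (hs : Good pal s) {n : ℕ} (hn : 4 ≤ n)
    (hev : Even n) {v : Fin n → V} (hv : Function.Injective v) {ee : Fin n → Ed G r}
    (hee : ∀ i, Ends (ee i) (v i) (v (nx i))) {a b : Option K} (hab : ¬ (a = none ∧ b = none))
    (hc : ∀ i, lb D s (ee i) = kp a b i) :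
    ∃ x : Ix G r K n, P2 pal D n x ∧ Sat s (Ev2 n x) := by
  have hdat := fun i => exists_data (D := D) hs (ee i) (kp b a i)
  choose t ht1 ht2 ht3 using hdat
  have hinj : ∀ i j, i ≠ j → ee i ≠ ee j := fun i j hij => share_ne (by omega) hv hee hij
  refine ⟨(v, ee, a, b, t), ⟨hn, hab, hee, ?_, ?_⟩, ?_⟩
  · intro i
    show Va pal D (ee i) (kp a b i) (kp b a i) (t i)
    rw [← hc i]; exact ht1 i
  · intro i j hij
    show Disjoint (W (ee i) (t i)) (W (ee j) (t j))
    rw [disjoint_left]
    intro p hp hp'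
    have hnon : ∀ {g : Ed G r}, ¬ Sp D s g → lb D s g = some (s g) := by
      intro g hg
      unfold lb; rw [if_neg hg]
    -- the witness of one edge is another edge of the cycle
    have hcase : ∀ i j : Fin n, i ≠ j → ∀ g : Ed G r, tl g = hd (ee j) →
        s g = s (ee j) → ¬ Sp D s g → ee i = g → kp b a j ≠ some (s (ee j)) → False := by
      intro i j hij g hg1 hg2 hg3 hg4 hne
      have h3 := hnon hg3
      have h4 := share hv hee hij (z := hd (ee j)) (Or.inl (by rw [hg4]; exact hg1)) (Or.inr rfl)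
      apply hne
      rw [← hg2, ← h3, ← hg4, hc i]
      rcases h4 with h4 | h4
      · rw [h4, kp_nx hev]
      · rw [h4, kp_nx hev]
    rcases ht3 i with h1 | ⟨hl, hne, g, h1, hg1, hg2, hg3⟩ <;>
    rcases ht3 j with h1' | ⟨hl', hne', g', h1', hg1', hg2', hg3'⟩ <;>
    rw [h1] at hp <;> rw [h1'] at hp'
    · rw [W, mem_singleton] at hp hp'
      rw [hp] at hp'
      exact hinj i j hij (Prod.ext_iff.1 hp').1
    · rw [W, mem_singleton] at hp
      rw [W, mem_insert, mem_singleton] at hp'
      subst hp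
      rcases hp' with h | h
      · exact hinj i j hij (Prod.ext_iff.1 h).1
      · exact hcase i j hij g' hg1' hg2' hg3' (Prod.ext_iff.1 h).1 hne'
    · rw [W, mem_singleton] at hp'
      rw [W, mem_insert, mem_singleton] at hp
      subst hp'
      rcases hp with h | h
      · exact hinj i j hij (Prod.ext_iff.1 h).1.symm
      · exact hcase j i hij.symm g hg1 hg2 hg3 (Prod.ext_iff.1 h).1 hne
    · rw [W, mem_insert, mem_singleton] at hp hp'
      rcases hp with rfl | rfl <;> rcases hp' with h | h
      · exact hinj i j hij (Prod.ext_iff.1 h).1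
      · exact hcase i j hij g' hg1' hg2' hg3' (Prod.ext_iff.1 h).1 hne'
      · exact hcase j i hij.symm g hg1 hg2 hg3 (Prod.ext_iff.1 h).1.symm hne
      · have h2 : g = g' := (Prod.ext_iff.1 h).1
        have h3 : s (ee i) = s (ee j) := (Prod.ext_iff.1 h).2
        exact hinj i j hij (hs.inj _ _ (by rw [← hg1, h2, hg1']) h3)
  · intro p hp
    unfold Ev2 at hp
    rw [mem_biUnion] at hp
    obtain ⟨i, -, hp⟩ := hp
    exact ht2 i p hp

end Run7.h882.S
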