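import Pool.Agent.Run7.h882.SModel

/-!
# The weights of the events for special edges
-/

set_option autoImplicit false
set_option linter.unusedSectionVars false

namespace Run7.h882.S

open Finset Classical

variable {V K : Type} [Fintype V] [DecidableEq V] [Fintype K] [DecidableEq K]
  {G : SimpleGraph V} [DecidableRel G.Adj] {r : V → ℕ}

/-- the numerical assumptions -/
structure Hyp (G : SimpleGraph V) [DecidableRel G.Adj] (r : V → ℕ) (pal : V → Finset K)
    (D : Finset K) (d K0 : ℕ) : Prop where
  rk : ∀ u v, G.Adj u v → r u ≠ r v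
  one : 1 ≤ d
  up : ∀ v, (Up G r v).card ≤ d
  dn : ∀ v, (Dn G r v).card ≤ (pal v).card
  low : ∀ v, K0 ≤ (pal v).card
  big : 1000000000 * (d * d) ≤ K0
  card : Fintype.card K ≤ 2 * K0
  res : D.card ≤ d

variable {pal : V → Finset K} {D : Finset K} {d K0 : ℕ}

/-- the weight of the data of an edge -/
noncomputable def wd (pal : V → Finset K) (e : Ed G r) : Dt G r K → ℝ
  | Sum.inl _ => 6 / ((pal (hd e)).card : ℝ)
  | Sum.inr (_, g) => 6 / ((pal (hd e)).card : ℝ) * (6 / ((pal (hd g)).card : ℝ))

theorem wd_nonneg (e : Ed G r) (t : Dt G r K) : 0 ≤ wd pal e t := by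
  rcases t with c | ⟨c, g⟩ <;> simp only [wd] <;> positivity

theorem xw_W {e : Ed G r} {x y : Option K} {t : Dt G r K} (h : Va pal D e x y t) :
    xw hd pal (W e t) = wd pal e t := by
  unfold xw
  rcases t with c | ⟨c, g⟩
  · rw [W, prod_singleton]; rfl
  · have h1 : e ≠ g := fun h' => tl_ne_hd e (by
      have := h.2.2.2
      rw [← h'] at this
      exact this)
    rw [W, prod_insert (by simp [h1]), prod_singleton]; rfl

section
variable (h : Hyp G r pal D d K0)
include h

theorem Hyp.d_one : (1 : ℝ) ≤ d := by exact_mod_cast h.one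

theorem Hyp.big' : (1000000000 : ℝ) * (d * d) ≤ K0 := by exact_mod_cast h.big

theorem Hyp.K0_pos : (0 : ℝ) < K0 := by
  have h1 := h.big'
  have h2 := h.d_one
  nlinarith

theorem Hyp.low' (v : V) : (K0 : ℝ) ≤ (pal v).card := by exact_mod_cast h.low v

theorem Hyp.pal_pos (v : V) : (0 : ℝ) < (pal v).card := h.K0_pos.trans_le (h.low' v)

theorem Hyp.div_le (v : V) : 6 / ((pal v).card : ℝ) ≤ 6 / K0 :=
  div_le_div_of_nonneg_left (by norm_num) h.K0_pos (h.low' v)

theorem Hyp.out_le (w : V) : ((univ.filter fun g : Ed G r => tl g = w).card : ℝ) ≤ d := by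
  rw [card_out]; exact_mod_cast h.up w

theorem Hyp.in_le (w : V) : ((univ.filter fun g : Ed G r => hd g = w).card : ℝ) ≤
    (pal w).card := by
  rw [card_in]; exact_mod_cast h.dn w

end

/-- the bound for the total weight of the data with a given label -/
noncomputable def T (d K0 : ℕ) : Option K → ℝ
  | none => 48 * d / K0
  | some _ => 6 / K0

section
variable (h : Hyp G r pal D d K0)
include h

theorem Hyp.T_pos (x : Option K) : 0 < T d K0 x := by
  have h1 := h.K0_pos
  have h2 := h.d_one
  rcases x with _ | c
  · simp only [T]; positivity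
  · simp only [T]; positivity

/-- the total weight of the data of an edge -/
theorem Hyp.tot (e : Ed G r) (x y : Option K) :
    ∑ t : Dt G r K, iw (Va pal D e x y t) (wd pal e t) ≤ T d K0 x := by
  rw [Fintype.sum_sum_type]
  have hK := h.K0_pos
  have hd1 := h.d_one
  have hp := h.pal_pos (hd e)
  have hq := h.div_le (hd e)
  rcases x with _ | α
  · -- special edges
    have h1 : ∑ c : K, iw (Va pal D e none y (Sum.inl c)) (wd pal e (Sum.inl c)) ≤
        (d + 1) * (6 / K0) := by
      have h2 : ∀ c : K, iw (Va pal D e none y (Sum.inl c)) (wd pal e (Sum.inl c)) ≤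
          if c ∈ D ∪ univ.filter (fun c => y = some c) then 6 / (K0 : ℝ) else 0 := by
        intro c
        unfold iw
        split_ifs with h3 h4 h4
        · exact hq
        · exfalso
          apply h4
          rw [mem_union, mem_filter]
          rcases h3.2 with h5 | ⟨-, h5 | h5⟩
          · cases h5
          · exact Or.inl h5
          · exact Or.inr ⟨mem_univ _, h5⟩
        · positivity
        · exact le_rfl
      refine (sum_le_sum fun c _ => h2 c).trans ?_
      rw [← sum_filter, sum_const, nsmul_eq_mul]
      apply mul_le_mul_of_nonneg_right _ (by positivity)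
      have h3 : univ.filter (fun c => c ∈ D ∪ univ.filter (fun c => y = some c)) =
        D ∪ univ.filter (fun c => y = some c) := by ext; simp
      rw [h3]
      have h4 : (univ.filter (fun c => y = some c)).card ≤ 1 := by
        apply card_le_one.2
        intro a ha b hb
        rw [mem_filter] at ha hb
        exact Option.some_injective _ (ha.2.symm.trans hb.2)
      have h5 := card_union_le D (univ.filter (fun c => y = some c))
      have h6 := h.res
      have h7 : (D ∪ univ.filter (fun c => y = some c)).card ≤ d + 1 := by omega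
      exact_mod_cast h7
    have h2 : ∑ x : K × Ed G r, iw (Va pal D e none y (Sum.inr x)) (wd pal e (Sum.inr x)) ≤
        36 * d / K0 := by
      rw [Fintype.sum_prod_type]
      have h3 : ∀ c : K, ∑ g : Ed G r, iw (Va pal D e none y (Sum.inr (c, g)))
          (wd pal e (Sum.inr (c, g))) ≤
          if c ∈ pal (hd e) then d * (6 / ((pal (hd e)).card : ℝ) * (6 / K0)) else 0 := by
        intro c
        split_ifs with hc
        · calc ∑ g : Ed G r, iw (Va pal D e none y (Sum.inr (c, g))) (wd pal e (Sum.inr (c, g))) ≤
              ∑ g : Ed G r, (if tl g = hd e then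
                6 / ((pal (hd e)).card : ℝ) * (6 / K0) else 0) := by
                refine sum_le_sum fun g _ => ?_
                unfold iw
                split_ifs with h2 h3 h3
                · simp only [wd]
                  exact mul_le_mul_of_nonneg_left (h.div_le _) (by positivity)
                · exact absurd h2.2.2.2 h3
                · positivity
                · exact le_rfl
            _ = ((univ.filter fun g : Ed G r => tl g = hd e).card : ℝ) *
                (6 / ((pal (hd e)).card : ℝ) * (6 / K0)) := by
                rw [← sum_filter, sum_const, nsmul_eq_mul]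
            _ ≤ _ := mul_le_mul_of_nonneg_right (h.out_le _) (by positivity)
        · apply le_of_eq
          refine sum_eq_zero fun g _ => ?_
          unfold iw
          rw [if_neg fun h2 => hc h2.2.1]
      refine (sum_le_sum fun c _ => h3 c).trans ?_
      rw [← sum_filter, sum_const, nsmul_eq_mul]
      have h4 : univ.filter (fun y => y ∈ pal (hd e)) = pal (hd e) := by ext; simp
      rw [h4]
      apply le_of_eq
      field_simp
      norm_num
    simp only [T]
    refine (add_le_add h1 h2).trans ?_
    have h3 : ((d : ℝ) + 1) * (6 / K0) + 36 * d / K0 = (42 * d + 6) / K0 := by ring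
    rw [h3]
    apply div_le_div_of_nonneg_right _ hK.le
    linarith
  · -- ordinary edges
    have h1 : ∑ c : K, iw (Va pal D e (some α) y (Sum.inl c)) (wd pal e (Sum.inl c)) ≤ 6 / K0 := by
      rw [sum_eq_single α]
      · unfold iw
        split_ifs
        · exact hq
        · positivity
      · intro c _ hc
        unfold iw
        rw [if_neg]
        rintro ⟨-, h2 | ⟨h2, -⟩⟩
        · exact hc (Option.some_injective _ h2).symm
        · cases h2
      · intro h2; exact absurd (mem_univ _) h2
    have h2 : ∑ x : K × Ed G r, iw (Va pal D e (some α) y (Sum.inr x)) (wd pal e (Sum.inr x)) = 0 := by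
      refine sum_eq_zero ?_
      rintro ⟨c, g⟩ _
      unfold iw
      rw [if_neg]
      rintro ⟨h2, -⟩
      cases h2
    rw [h2, add_zero]
    exact h1

end

/-- the weight of a prescription -/
noncomputable def wp (pal : V → Finset K) (p : Ed G r × K) : ℝ := 6 / ((pal (hd p.1)).card : ℝ)

theorem wp_nonneg (p : Ed G r × K) : 0 ≤ wp pal p := by
  unfold wp; positivity

/-- the total weight of the data of one edge that contain the prescription `p` -/
noncomputable def L (pal : V → Finset K) (D : Finset K) (p : Ed G r × K) (x y : Option K) : ℝ :=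
  ∑ e : Ed G r, ∑ t : Dt G r K, iw (Va pal D e x y t ∧ p ∈ W e t) (wd pal e t)

theorem L_nonneg (p : Ed G r × K) (x y : Option K) : 0 ≤ L pal D p x y :=
  sum_nonneg fun _ _ => sum_nonneg fun _ _ => iw_nonneg (wd_nonneg _ _)

theorem L_some (p : Ed G r × K) (α : K) (y : Option K) :
    L pal D p (some α) y ≤ if α = p.2 then wp pal p else 0 := by
  have h1 : ∀ (e : Ed G r) (t : Dt G r K),
      iw (Va pal D e (some α) y t ∧ p ∈ W e t) (wd pal e t) ≤
      if e = p.1 then (if t = Sum.inl α then (if α = p.2 then wp pal p else 0) else 0) else 0 := by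
    intro e t
    unfold iw
    split_ifs with h1 h2 h3 h4 h4 h5 h6
    · obtain ⟨-, -⟩ := h1
      subst h2 h3
      exact le_rfl
    · exfalso
      rcases t with c | ⟨c, g⟩
      · rw [W, mem_singleton] at h1
        apply h4
        have h5 := congrArg Prod.snd h1.2
        simp only at h5
        rw [h5]
        exact (Sum.inl_injective h3).symm
      · cases h3
    · exfalso
      rcases t with c | ⟨c, g⟩
      · rcases h1.1.2 with h5 | ⟨h5, -⟩
        · exact h3 (congrArg Sum.inl (Option.some_injective _ h5).symm)
        · cases h5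
      · cases h1.1.1
    · exfalso
      rcases t with c | ⟨c, g⟩
      · rw [W, mem_singleton] at h1
        exact h2 (congrArg Prod.fst h1.2).symm
      · cases h1.1.1
    · exact wp_nonneg _
    all_goals exact le_rfl
  unfold L
  refine (sum_le_sum fun e _ => sum_le_sum fun t _ => h1 e t).trans ?_
  rw [sum_eq_single p.1]
  · rw [sum_eq_single (Sum.inl α)]
    · simp
    · intro t _ ht
      simp [ht]
    · intro h2; exact absurd (mem_univ _) h2
  · intro e _ he
    simp [he]
  · intro h2; exact absurd (mem_univ _) h2

theorem L_none (h : Hyp G r pal D d K0) (p : Ed G r × K) (y : Option K) :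
    L pal D p none y ≤ 8 * wp pal p := by
  have hK := h.K0_pos
  have hd1 := h.d_one
  have hbig := h.big'
  obtain ⟨e₀, c₀⟩ := p
  have hp₀ := h.pal_pos (hd e₀)
  have hpt := h.pal_pos (tl e₀)
  set w₀ : ℝ := 6 / ((pal (hd e₀)).card : ℝ) with hw₀
  have hw₀0 : 0 ≤ w₀ := by positivity
  have hwp : wp pal (e₀, c₀) = w₀ := rfl
  rw [hwp]
  have hsplit : L pal D (e₀, c₀) none y =
      ∑ x : Ed G r × K, iw (Va pal D x.1 none y (Sum.inl x.2) ∧ (e₀, c₀) ∈ W x.1 (Sum.inl x.2))
        (wd pal x.1 (Sum.inl x.2)) +
      ∑ x : Ed G r × K × Ed G r, iw (Va pal D x.1 none y (Sum.inr x.2) ∧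
        (e₀, c₀) ∈ W x.1 (Sum.inr x.2)) (wd pal x.1 (Sum.inr x.2)) := by
    unfold L
    simp_rw [Fintype.sum_sum_type, sum_add_distrib]
    rw [Fintype.sum_prod_type, Fintype.sum_prod_type]
  rw [hsplit]
  have h1 := sum_le_two (fun x : Ed G r × K =>
      iw (Va pal D x.1 none y (Sum.inl x.2) ∧ (e₀, c₀) ∈ W x.1 (Sum.inl x.2))
        (wd pal x.1 (Sum.inl x.2))) {(e₀, c₀)} ∅ w₀ 0 (fun x => iw_nonneg (wd_nonneg _ _)) (by
        rintro ⟨e, c⟩ hne
        left
        by_contra hx
        apply hne
        apply if_neg
        rintro ⟨-, hm⟩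
        rw [W, mem_singleton] at hm
        apply hx
        rw [mem_singleton]
        exact hm.symm) (by
        intro x hx
        rw [mem_singleton] at hx
        subst hx
        unfold iw
        split_ifs
        · exact le_rfl
        · exact hw₀0) (by simp)
  have h2 := sum_le_two (fun x : Ed G r × K × Ed G r =>
      iw (Va pal D x.1 none y (Sum.inr x.2) ∧
        (e₀, c₀) ∈ W x.1 (Sum.inr x.2)) (wd pal x.1 (Sum.inr x.2)))
      ({e₀} ×ˢ {c₀} ×ˢ (univ.filter fun g : Ed G r => tl g = hd e₀))
      ((univ.filter fun g : Ed G r => hd g = tl e₀) ×ˢ {c₀} ×ˢ {e₀})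
      (w₀ * (6 / K0)) (6 / ((pal (tl e₀)).card : ℝ) * w₀) (fun x => iw_nonneg (wd_nonneg _ _)) (by
        rintro ⟨e, c, g⟩ hne
        by_contra hx
        apply hne
        apply if_neg
        rintro ⟨⟨-, hc, hcg, htg⟩, hm⟩
        dsimp only at hc hcg htg hm
        rw [W, mem_insert, mem_singleton] at hm
        apply hx
        simp only [mem_product, mem_singleton, mem_filter, mem_univ, true_and]
        rcases hm with hm | hm
        · have h3 : e₀ = e := (Prod.ext_iff.1 hm).1
          have h4 : c₀ = c := (Prod.ext_iff.1 hm).2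
          left
          subst h3 h4
          exact ⟨rfl, rfl, htg⟩
        · have h3 : e₀ = g := (Prod.ext_iff.1 hm).1
          have h4 : c₀ = c := (Prod.ext_iff.1 hm).2
          right
          subst h3 h4
          exact ⟨htg.symm, rfl, rfl⟩) (by
        rintro ⟨e, c, g⟩ hx
        simp only [mem_product, mem_singleton, mem_filter, mem_univ, true_and] at hx
        obtain ⟨rfl, rfl, htg⟩ := hx
        dsimp only
        unfold iw
        split_ifs
        · simp only [wd]
          exact mul_le_mul_of_nonneg_left (h.div_le _) hw₀0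
        · positivity) (by
        rintro ⟨e, c, g⟩ hx
        simp only [mem_product, mem_singleton, mem_filter, mem_univ, true_and] at hx
        obtain ⟨htg, rfl, rfl⟩ := hx
        dsimp only
        unfold iw
        split_ifs
        · simp only [wd]
          rw [htg]
        · positivity)
  rw [card_singleton] at h1
  rw [card_product, card_product, card_product, card_product, card_singleton, card_singleton]
    at h2
  have h3 := h.out_le (hd e₀)
  have h4 := h.in_le (tl e₀)
  have h5 : ((1 * (1 * (univ.filter fun g : Ed G r => tl g = hd e₀).card) : ℕ) : ℝ) *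
      (w₀ * (6 / K0)) ≤ w₀ := by
    rw [one_mul, one_mul]
    calc _ ≤ (d : ℝ) * (w₀ * (6 / K0)) := mul_le_mul_of_nonneg_right h3 (by positivity)
      _ = w₀ * (6 * d / K0) := by ring
      _ ≤ w₀ * 1 := by
        apply mul_le_mul_of_nonneg_left _ hw₀0
        rw [div_le_one hK]
        nlinarith
      _ = w₀ := mul_one _
  have h6 : (((univ.filter fun g : Ed G r => hd g = tl e₀).card * (1 * 1) : ℕ) : ℝ) *
      (6 / ((pal (tl e₀)).card : ℝ) * w₀) ≤ 6 * w₀ := by
    rw [one_mul, mul_one]
    calc _ ≤ ((pal (tl e₀)).card : ℝ) * (6 / ((pal (tl e₀)).card : ℝ) * w₀) :=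
          mul_le_mul_of_nonneg_right h4 (by positivity)
      _ = _ := by field_simp
  simp only [Nat.cast_one, card_empty, Nat.cast_zero, zero_mul, add_zero, one_mul] at h1
  linarith

end Run7.h882.S
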