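import Pool.Agent.Run7.h882.SSum

/-!
# The weights of the events for pairs and cycles with special edges
-/

set_option autoImplicit false
set_option linter.unusedSectionVars false

namespace Run7.h882.S

open Finset Classical

variable {V K : Type} [Fintype V] [DecidableEq V] [Fintype K] [DecidableEq K]
  {G : SimpleGraph V} [DecidableRel G.Adj] {r : V → ℕ}
  {pal : V → Finset K} {D : Finset K} {d K0 : ℕ}

/-- edges with a given tail -/
theorem Hyp.sum_tl (h : Hyp G r pal D d K0) (w : V) (x y : Option K) :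
    ∑ e : Ed G r, ∑ t : Dt G r K, iw (tl e = w ∧ Va pal D e x y t) (wd pal e t) ≤
      d * T d K0 x := by
  have hT := (h.T_pos x).le
  have h1 : ∀ e : Ed G r, ∑ t : Dt G r K, iw (tl e = w ∧ Va pal D e x y t) (wd pal e t) ≤
      if tl e = w then T d K0 x else 0 := by
    intro e
    simp_rw [iw_and]
    split_ifs with h2
    · exact h.tot e x y
    · simp
  refine (sum_le_sum fun e _ => h1 e).trans ?_
  rw [← sum_filter, sum_const, nsmul_eq_mul]
  exact mul_le_mul_of_nonneg_right (h.out_le w) hT

theorem sum_L_none (h : Hyp G r pal D d K0) (p : Ed G r × K) :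
    ∑ x : Option K, L pal D p x none * (d * T d K0 x) ≤ 400 * (d * d) / K0 * wp pal p := by
  have hK := h.K0_pos
  have hd1 := h.d_one
  have hw := wp_nonneg (pal := pal) p
  rw [Fintype.sum_option]
  have h1 : L pal D p none none * (d * T d K0 (none : Option K)) ≤
      8 * wp pal p * (d * (48 * d / K0)) := by
    simp only [T]
    exact mul_le_mul_of_nonneg_right (L_none h p none) (by positivity)
  have h2 : ∑ c : K, L pal D p (some c) none * (d * T d K0 (some c)) ≤
      wp pal p * (d * (6 / K0)) := by
    have h3 : ∀ c : K, L pal D p (some c) none * (d * T d K0 (some c)) ≤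
        if c = p.2 then wp pal p * (d * (6 / K0)) else 0 := by
      intro c
      have h4 := L_some (pal := pal) (D := D) p c none
      simp only [T]
      split_ifs at h4 ⊢ with h5
      · exact mul_le_mul_of_nonneg_right h4 (by positivity)
      · have h6 := L_nonneg (pal := pal) (D := D) p (some c) none
        have h7 : L pal D p (some c) none = 0 := le_antisymm h4 h6
        rw [h7, zero_mul]
    refine (sum_le_sum fun c _ => h3 c).trans ?_
    rw [sum_ite_eq' univ p.2]
    simp
  refine (add_le_add h1 h2).trans ?_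
  have h3 : 8 * wp pal p * (d * (48 * d / K0)) + wp pal p * (d * (6 / K0)) =
      (384 * (d * d) + 6 * d) / K0 * wp pal p := by ring
  rw [h3]
  apply mul_le_mul_of_nonneg_right _ hw
  apply div_le_div_of_nonneg_right _ hK.le
  nlinarith

/-- the events for pairs that contain a given prescription -/
theorem pair_sum (h : Hyp G r pal D d K0) (p : Ed G r × K) :
    ∑ x ∈ univ.filter (fun x : Ed G r × Ed G r × Option K × Dt G r K × Dt G r K =>
      P1 pal D x ∧ p ∈ Ev1 x), xw hd pal (Ev1 x) ≤
      800 * (d * d) / K0 * wp pal p := by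
  -- the two parts
  let A1 : Ed G r → Ed G r → Option K → Dt G r K → Dt G r K → ℝ := fun e e' x t t' =>
    iw (Va pal D e x none t ∧ p ∈ W e t) (wd pal e t) *
      iw (tl e' = tl e ∧ Va pal D e' x none t') (wd pal e' t')
  have hA1 : ∀ e e' x t t', 0 ≤ A1 e e' x t t' := fun e e' x t t' =>
    mul_nonneg (iw_nonneg (wd_nonneg _ _)) (iw_nonneg (wd_nonneg _ _))
  have h1 : ∀ x ∈ univ.filter (fun x : Ed G r × Ed G r × Option K × Dt G r K × Dt G r K =>
      P1 pal D x ∧ p ∈ Ev1 x), xw hd pal (Ev1 x) ≤
      A1 x.1 x.2.1 x.2.2.1 x.2.2.2.1 x.2.2.2.2 + A1 x.2.1 x.1 x.2.2.1 x.2.2.2.2 x.2.2.2.1 := by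
    rintro ⟨e, e', x, t, t'⟩ hx
    rw [mem_filter] at hx
    obtain ⟨-, ⟨htl, hv, hv', hdj⟩, hp⟩ := hx
    simp only at htl hv hv' hdj ⊢
    have h2 : xw hd pal (Ev1 (e, e', x, t, t')) = wd pal e t * wd pal e' t' := by
      unfold Ev1
      rw [xw_union hdj, xw_W hv, xw_W hv']
    rw [h2]
    unfold Ev1 at hp
    rcases mem_union.1 hp with hp | hp
    · have h3 : A1 e e' x t t' = wd pal e t * wd pal e' t' := by
        simp only [A1, iw]
        rw [if_pos ⟨hv, hp⟩, if_pos ⟨htl.symm, hv'⟩]
      linarith [hA1 e' e x t' t]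
    · have h3 : A1 e' e x t' t = wd pal e t * wd pal e' t' := by
        simp only [A1, iw]
        rw [if_pos ⟨hv', hp⟩, if_pos ⟨htl, hv⟩, mul_comm]
      linarith [hA1 e e' x t t']
  refine (sum_le_sum h1).trans ?_
  refine (sum_le_sum_of_subset_of_nonneg (filter_subset _ _) fun x _ _ =>
    add_nonneg (hA1 _ _ _ _ _) (hA1 _ _ _ _ _)).trans ?_
  rw [sum_add_distrib]
  have h2 : ∑ x : Ed G r × Ed G r × Option K × Dt G r K × Dt G r K,
      A1 x.1 x.2.1 x.2.2.1 x.2.2.2.1 x.2.2.2.2 ≤ 400 * (d * d) / K0 * wp pal p := by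
    simp only [Fintype.sum_prod_type]
    calc ∑ e : Ed G r, ∑ e' : Ed G r, ∑ x : Option K, ∑ t : Dt G r K, ∑ t' : Dt G r K,
          A1 e e' x t t' =
        ∑ e : Ed G r, ∑ x : Option K, ∑ t : Dt G r K,
          iw (Va pal D e x none t ∧ p ∈ W e t) (wd pal e t) *
            ∑ e' : Ed G r, ∑ t' : Dt G r K,
              iw (tl e' = tl e ∧ Va pal D e' x none t') (wd pal e' t') := by
          refine sum_congr rfl fun e _ => ?_
          rw [sum_comm]
          refine sum_congr rfl fun x _ => ?_
          rw [sum_comm]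
          refine sum_congr rfl fun t _ => ?_
          rw [mul_sum]
          refine sum_congr rfl fun e' _ => ?_
          rw [mul_sum]
      _ ≤ ∑ e : Ed G r, ∑ x : Option K, ∑ t : Dt G r K,
          iw (Va pal D e x none t ∧ p ∈ W e t) (wd pal e t) * (d * T d K0 x) := by
          refine sum_le_sum fun e _ => sum_le_sum fun x _ => sum_le_sum fun t _ => ?_
          exact mul_le_mul_of_nonneg_left (h.sum_tl (tl e) x none) (iw_nonneg (wd_nonneg _ _))
      _ = ∑ x : Option K, L pal D p x none * (d * T d K0 x) := by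
          rw [sum_comm]
          refine sum_congr rfl fun x _ => ?_
          unfold L
          rw [sum_mul]
          refine sum_congr rfl fun e _ => ?_
          rw [sum_mul]
      _ ≤ _ := sum_L_none h p
  have h3 : ∑ x : Ed G r × Ed G r × Option K × Dt G r K × Dt G r K,
      A1 x.2.1 x.1 x.2.2.1 x.2.2.2.2 x.2.2.2.1 =
      ∑ x : Ed G r × Ed G r × Option K × Dt G r K × Dt G r K,
      A1 x.1 x.2.1 x.2.2.1 x.2.2.2.1 x.2.2.2.2 := by
    simp only [Fintype.sum_prod_type]
    rw [sum_comm]
    refine sum_congr rfl fun e _ => sum_congr rfl fun e' _ => sum_congr rfl fun x _ => ?_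
    rw [sum_comm]
  rw [h3]
  have h4 : 800 * ((d : ℝ) * d) / K0 * wp pal p = 400 * (d * d) / K0 * wp pal p +
    400 * (d * d) / K0 * wp pal p := by ring
  linarith

theorem prod_alt (F : Option K → ℝ) (a b : Option K) (t : ℕ) :
    ∏ j : Fin (2 * t + 2), F (kp a b j) = (F a * F b) ^ (t + 1) := by
  have h1 : ∀ m : ℕ, ∏ j ∈ range (2 * m), F (if Even j then a else b) = (F a * F b) ^ m := by
    intro m
    induction m with
    | zero => simp
    | succ m ih =>
      rw [show 2 * (m + 1) = 2 * m + 1 + 1 by ring, prod_range_succ, prod_range_succ, ih,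
        if_pos (even_two_mul m), if_neg (by simp), pow_succ]
      ring
  have h2 := h1 (t + 1)
  rw [show 2 * (t + 1) = 2 * t + 2 by ring] at h2
  rw [← h2]
  unfold kp
  exact Fin.prod_univ_eq_prod_range (fun j => F (if Even j then a else b)) (2 * t + 2)

theorem prod_alt_erase (F : Option K → ℝ) (hF : ∀ x, 0 < F x) (a b : Option K) (t : ℕ)
    (i : Fin (2 * t + 2)) :
    ∏ j ∈ univ.erase i, F (kp a b j) =
      (F (kp a b i) * F (kp b a i)) ^ t * F (kp b a i) := by
  have h1 := prod_alt F a b t
  rw [← mul_prod_erase univ _ (mem_univ i)] at h1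
  have h2 : F a * F b = F (kp a b i) * F (kp b a i) := by
    unfold kp
    split_ifs
    · rfl
    · ring
  rw [h2, pow_succ] at h1
  have h3 := hF (kp a b i)
  have h4 : F (kp a b i) * ∏ j ∈ univ.erase i, F (kp a b j) =
      F (kp a b i) * ((F (kp a b i) * F (kp b a i)) ^ t * F (kp b a i)) := by
    rw [h1]; ring
  exact mul_left_cancel₀ h3.ne' h4

/-- the total weight of one position of a cycle -/
noncomputable def M (pal : V → Finset K) (D : Finset K) (d K0 : ℕ) (t : ℕ) (p : Ed G r × K) : ℝ :=
  ∑ x : Option K, ∑ y : Option K, iw (¬ (x = none ∧ y = none))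
    (L pal D p x y * ((T d K0 x * T d K0 y) ^ t * T d K0 y))

theorem M_le (h : Hyp G r pal D d K0) (t : ℕ) (p : Ed G r × K) :
    M pal D d K0 t p ≤ 109 * (288 * d / (K0 * K0)) ^ t * wp pal p := by
  have hK := h.K0_pos
  have hd1 := h.d_one
  have hbig := h.big'
  have hw := wp_nonneg (pal := pal) p
  have hN : (Fintype.card K : ℝ) ≤ 2 * K0 := by exact_mod_cast h.card
  set q : ℝ := 6 / K0 with hq
  set η : ℝ := 48 * d / K0 with hη
  have hq0 : 0 < q := by positivity
  have hη0 : 0 < η := by positivity
  have hqη : q ≤ η := by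
    rw [hq, hη]
    apply div_le_div_of_nonneg_right _ hK.le
    linarith
  have hη1 : η ≤ 1 := by
    rw [hη, div_le_one hK]
    nlinarith
  have hNq : (Fintype.card K : ℝ) * q ≤ 12 := by
    rw [hq]
    calc _ ≤ (2 * (K0 : ℝ)) * (6 / K0) := mul_le_mul_of_nonneg_right hN (by positivity)
      _ = 12 := by field_simp; norm_num
  have hX : 288 * (d : ℝ) / (K0 * K0) = q * η := by
    rw [hq, hη]; field_simp; norm_num
  rw [hX]
  have hTn : T d K0 (none : Option K) = η := rfl
  have hTs : ∀ c : K, T d K0 (some c) = q := fun c => rfl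
  unfold M
  rw [Fintype.sum_option]
  -- the first label is special
  have h1 : ∑ y : Option K, iw (¬ ((none : Option K) = none ∧ y = none))
      (L pal D p none y * ((T d K0 (none : Option K) * T d K0 y) ^ t * T d K0 y)) ≤
      96 * (q * η) ^ t * wp pal p := by
    rw [Fintype.sum_option]
    have h2 : iw (¬ ((none : Option K) = none ∧ (none : Option K) = none))
      (L pal D p none none * ((T d K0 (none : Option K) * T d K0 (none : Option K)) ^ t *
        T d K0 (none : Option K))) = 0 := by
      unfold iw; rw [if_neg]; simp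
    rw [h2, zero_add]
    have h3 : ∀ c : K, iw (¬ ((none : Option K) = none ∧ some c = none))
        (L pal D p none (some c) * ((T d K0 (none : Option K) * T d K0 (some c)) ^ t *
          T d K0 (some c))) ≤
        8 * wp pal p * ((q * η) ^ t * q) := by
      intro c
      unfold iw
      rw [if_pos (by simp), hTn, hTs, mul_comm η q]
      exact mul_le_mul_of_nonneg_right (L_none h p (some c)) (by positivity)
    refine (sum_le_sum fun c _ => h3 c).trans ?_
    rw [sum_const, nsmul_eq_mul, card_univ]
    calc (Fintype.card K : ℝ) * (8 * wp pal p * ((q * η) ^ t * q)) =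
        (Fintype.card K * q) * (8 * wp pal p * (q * η) ^ t) := by ring
      _ ≤ 12 * (8 * wp pal p * (q * η) ^ t) := mul_le_mul_of_nonneg_right hNq (by positivity)
      _ = _ := by ring
  -- the first label is a colour
  have h4 : ∑ α : K, ∑ y : Option K, iw (¬ (some α = none ∧ y = none))
      (L pal D p (some α) y * ((T d K0 (some α) * T d K0 y) ^ t * T d K0 y)) ≤
      13 * (q * η) ^ t * wp pal p := by
    have h5 : ∀ α : K, ∑ y : Option K, iw (¬ (some α = none ∧ y = none))
        (L pal D p (some α) y * ((T d K0 (some α) * T d K0 y) ^ t * T d K0 y)) ≤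
        if α = p.2 then 13 * (q * η) ^ t * wp pal p else 0 := by
      intro α
      have h6 : ∀ y : Option K, iw (¬ (some α = none ∧ y = none))
          (L pal D p (some α) y * ((T d K0 (some α) * T d K0 y) ^ t * T d K0 y)) ≤
          if α = p.2 then wp pal p * ((q * T d K0 y) ^ t * T d K0 y) else 0 := by
        intro y
        have h7 := L_some (pal := pal) (D := D) p α y
        have h8 := h.T_pos y
        unfold iw
        rw [if_pos (by simp), hTs]
        split_ifs at h7 ⊢ with h9
        · exact mul_le_mul_of_nonneg_right h7 (by positivity)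
        · have h10 := L_nonneg (pal := pal) (D := D) p (some α) y
          have h11 : L pal D p (some α) y = 0 := le_antisymm h7 h10
          rw [h11, zero_mul]
      refine (sum_le_sum fun y _ => h6 y).trans ?_
      split_ifs with h9
      · rw [Fintype.sum_option, hTn]
        have h10 : ∀ c : K, wp pal p * ((q * T d K0 (some c)) ^ t * T d K0 (some c)) ≤
            wp pal p * ((q * η) ^ t * q) := by
          intro c
          rw [hTs]
          gcongr
        have h11 : ∑ c : K, wp pal p * ((q * T d K0 (some c)) ^ t * T d K0 (some c)) ≤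
            12 * (q * η) ^ t * wp pal p := by
          refine (sum_le_sum fun c _ => h10 c).trans ?_
          rw [sum_const, nsmul_eq_mul, card_univ]
          calc (Fintype.card K : ℝ) * (wp pal p * ((q * η) ^ t * q)) =
              (Fintype.card K * q) * (wp pal p * (q * η) ^ t) := by ring
            _ ≤ 12 * (wp pal p * (q * η) ^ t) := mul_le_mul_of_nonneg_right hNq (by positivity)
            _ = _ := by ring
        have h12 : wp pal p * ((q * η) ^ t * η) ≤ (q * η) ^ t * wp pal p := by
          have h13 : 0 ≤ wp pal p * (q * η) ^ t := by positivity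
          nlinarith
        linarith
      · simp
    refine (sum_le_sum fun α _ => h5 α).trans ?_
    rw [sum_ite_eq' univ p.2]
    simp
  refine (add_le_add h1 h4).trans (le_of_eq ?_)
  ring

theorem sum_kp' {n : ℕ} (i : Fin n) (F : Option K → Option K → ℝ) :
    ∑ α : Option K, ∑ β : Option K, F (kp α β i) (kp β α i) =
      ∑ κ : Option K, ∑ κ' : Option K, F κ κ' := by
  unfold kp
  by_cases h : Even i.val
  · simp only [if_pos h]
  · simp only [if_neg h]
    rw [sum_comm]

theorem cond_card (h : Hyp G r pal D d K0) (t : ℕ) (i : Fin (2 * t + 2)) (e : Ed G r) :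
    (univ.filter fun x : (Fin (2 * t + 2) → V) × (Fin (2 * t + 2) → Ed G r) =>
      Cond x.1 x.2 ∧ x.2 i = e).card ≤ 2 * (2 ^ (2 * t + 1) * (d * Fintype.card K) ^ t) := by
  have hN : ∀ v, (Dn G r v).card ≤ Fintype.card K := fun v => (h.dn v).trans (card_le_univ _)
  have hdN : d ≤ Fintype.card K := by
    have h1 := h.big
    have h2 := h.low (tl e)
    have h3 : (pal (tl e)).card ≤ Fintype.card K := card_le_univ _
    nlinarith [h.one]
  have h1 : (univ.filter fun x : (Fin (2 * t + 2) → V) × (Fin (2 * t + 2) → Ed G r) =>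
      Cond x.1 x.2 ∧ x.2 i = e).card ≤
      ((univ.filter fun v : Fin (2 * t + 2) → V =>
        (∀ j, G.Adj (v j) (v (nx j))) ∧ v i = tl e ∧ v (nx i) = hd e) ∪
      (univ.filter fun v : Fin (2 * t + 2) → V =>
        (∀ j, G.Adj (v j) (v (nx j))) ∧ v i = hd e ∧ v (nx i) = tl e)).card := by
    apply card_le_card_of_injOn Prod.fst
    · rintro ⟨v, ee⟩ hx
      rw [mem_coe, mem_filter] at hx
      obtain ⟨-, hc, he⟩ := hx
      simp only at hc he
      rw [mem_coe, mem_union, mem_filter, mem_filter]
      have h2 := hc i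
      rw [he] at h2
      rcases h2 with ⟨h2, h3⟩ | ⟨h2, h3⟩
      · exact Or.inl ⟨mem_univ _, fun j => (hc j).adj, h2.symm, h3.symm⟩
      · exact Or.inr ⟨mem_univ _, fun j => (hc j).adj, h3.symm, h2.symm⟩
    · rintro ⟨v, ee⟩ hx ⟨v', ee'⟩ hx' hvv
      rw [mem_coe, mem_filter] at hx hx'
      obtain ⟨-, hc, -⟩ := hx
      obtain ⟨-, hc', -⟩ := hx'
      simp only at hc hc' hvv
      subst hvv
      congr 1
      funext j
      exact (hc j).unique (hc' j)
  refine h1.trans ((card_union_le _ _).trans ?_)
  have h2 := closed_card (G := G) (2 * t + 1) i (tl e) (hd e)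
  have h3 := closed_card (G := G) (2 * t + 1) i (hd e) (tl e)
  have h4 := wk_le h.rk h.up hN hdN t (hd e) (tl e)
  have h5 := wk_le h.rk h.up hN hdN t (tl e) (hd e)
  have h6 := h2.trans h4
  have h7 := h3.trans h5
  have h8 : ∀ a b c : ℕ, a ≤ c → b ≤ c → a + b ≤ 2 * c := fun a b c ha hb => by omega
  apply h8
  · convert h6
  · convert h7

theorem cyc_sum (h : Hyp G r pal D d K0) (t : ℕ) (p : Ed G r × K) :
    ∑ x ∈ univ.filter (fun x : Ix G r K (2 * t + 2) => P2 pal D (2 * t + 2) x ∧
      p ∈ Ev2 (2 * t + 2) x), xw hd pal (Ev2 (2 * t + 2) x) ≤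
      (2 * t + 2) * (2 * (2 ^ (2 * t + 1) * (d * Fintype.card K) ^ t)) * M pal D d K0 t p := by
  set n := 2 * t + 2 with hn
  have hK := h.K0_pos
  -- the weight of the data of the edge `j` if the edge `i` has the prescription
  let F : Fin n → Ed G r → Option K → Option K → Fin n → Dt G r K → ℝ := fun i e x y j s =>
    iw (Va pal D e x y s ∧ (j = i → p ∈ W e s)) (wd pal e s)
  have hF0 : ∀ i e x y j s, 0 ≤ F i e x y j s := fun i e x y j s => iw_nonneg (wd_nonneg _ _)
  let B : Fin n → Ix G r K n → ℝ := fun i x =>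
    iw (Cond x.1 x.2.1 ∧ ¬ (x.2.2.1 = none ∧ x.2.2.2.1 = none))
      (∏ j, F i (x.2.1 j) (kp x.2.2.1 x.2.2.2.1 j) (kp x.2.2.2.1 x.2.2.1 j) j (x.2.2.2.2 j))
  have hB0 : ∀ i x, 0 ≤ B i x := fun i x => iw_nonneg (prod_nonneg fun j _ => hF0 _ _ _ _ _ _)
  have h1 : ∀ x ∈ univ.filter (fun x : Ix G r K n => P2 pal D n x ∧ p ∈ Ev2 n x),
      xw hd pal (Ev2 n x) ≤ ∑ i, B i x := by
    rintro ⟨v, ee, a, b, s⟩ hx
    rw [mem_filter] at hx
    obtain ⟨-, ⟨hn4, hab, hc, hv, hdj⟩, hp⟩ := hx
    unfold Ev2 at hp
    rw [mem_biUnion] at hp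
    obtain ⟨i, -, hp⟩ := hp
    have h2 : xw hd pal (Ev2 n (v, ee, a, b, s)) = ∏ j, wd pal (ee j) (s j) := by
      unfold Ev2 xw
      rw [prod_biUnion]
      · refine prod_congr rfl fun j _ => ?_
        exact xw_W (hv j)
      · intro j _ k _ hjk
        exact hdj j k hjk
    have h3 : B i (v, ee, a, b, s) = ∏ j, wd pal (ee j) (s j) := by
      simp only [B, F, iw]
      rw [if_pos ⟨(show Cond v ee from hc), hab⟩]
      refine prod_congr rfl fun j _ => ?_
      rw [if_pos]
      refine ⟨hv j, ?_⟩
      rintro rfl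
      exact hp
    rw [h2, ← h3]
    exact single_le_sum (f := fun i => B i (v, ee, a, b, s)) (fun i _ => hB0 i _) (mem_univ i)
  refine (sum_le_sum h1).trans ?_
  refine (sum_le_sum_of_subset_of_nonneg (filter_subset _ _) fun x _ _ =>
    sum_nonneg fun i _ => hB0 i x).trans ?_
  rw [sum_comm]
  -- one position
  let lo : Ed G r → Option K → Option K → ℝ := fun e x y =>
    ∑ s : Dt G r K, iw (Va pal D e x y s ∧ p ∈ W e s) (wd pal e s)
  have hlo : ∀ e x y, 0 ≤ lo e x y := fun e x y =>
    sum_nonneg fun s _ => iw_nonneg (wd_nonneg _ _)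
  let TT : Option K → Option K → ℝ := fun x y => (T d K0 x * T d K0 y) ^ t * T d K0 y
  have hTT : ∀ x y, 0 ≤ TT x y := fun x y =>
    mul_nonneg (pow_nonneg (mul_nonneg (h.T_pos x).le (h.T_pos y).le) _) (h.T_pos y).le
  let Lm : Ed G r → ℝ := fun e => ∑ x : Option K, ∑ y : Option K,
    iw (¬ (x = none ∧ y = none)) (lo e x y * TT x y)
  have hLm : ∀ e, 0 ≤ Lm e := fun e => sum_nonneg fun x _ => sum_nonneg fun y _ =>
    iw_nonneg (mul_nonneg (hlo _ _ _) (hTT _ _))
  have hpos : ∀ i : Fin n, ∑ x : Ix G r K n, B i x ≤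
      (2 * (2 ^ (2 * t + 1) * (d * Fintype.card K) ^ t) : ℕ) * M pal D d K0 t p := by
    intro i
    have h2 : ∀ (v : Fin n → V) (ee : Fin n → Ed G r) (a b : Option K),
        ∑ s : Fin n → Dt G r K, B i (v, ee, a, b, s) ≤
          iw (Cond v ee) (iw (¬ (kp a b i = none ∧ kp b a i = none))
            (lo (ee i) (kp a b i) (kp b a i) * TT (kp a b i) (kp b a i))) := by
      intro v ee a b
      have hiff : (a = none ∧ b = none) ↔ (kp a b i = none ∧ kp b a i = none) := by
        unfold kp
        split_ifs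
        · rfl
        · exact and_comm
      simp only [B, iw]
      by_cases hc : Cond v ee
      · by_cases hab : (a = none ∧ b = none)
        · rw [if_pos hc, if_neg (by rw [← hiff]; exact not_not.2 hab)]
          apply le_of_eq
          refine sum_eq_zero fun s _ => ?_
          rw [if_neg fun h3 => h3.2 hab]
        · rw [if_pos hc, if_pos (by rw [← hiff]; exact hab)]
          simp only [if_pos (show Cond v ee ∧ ¬ (a = none ∧ b = none) from ⟨hc, hab⟩)]
          have h3 : ∑ s : Fin n → Dt G r K, ∏ j, F i (ee j) (kp a b j) (kp b a j) j (s j) =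
              ∏ j, ∑ s : Dt G r K, F i (ee j) (kp a b j) (kp b a j) j s := by
            rw [prod_univ_sum, Fintype.piFinset_univ]
          rw [h3, ← mul_prod_erase univ _ (mem_univ i)]
          have h4 : ∑ s : Dt G r K, F i (ee i) (kp a b i) (kp b a i) i s ≤
              lo (ee i) (kp a b i) (kp b a i) := by
            refine sum_le_sum fun s _ => ?_
            exact iw_mono (wd_nonneg _ _) fun h4 => ⟨h4.1, h4.2 rfl⟩
          have h5 : ∏ j ∈ univ.erase i, ∑ s : Dt G r K, F i (ee j) (kp a b j) (kp b a j) j s ≤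
              TT (kp a b i) (kp b a i) := by
            have h6 := prod_alt_erase (T d K0) h.T_pos a b t i
            show _ ≤ (T d K0 (kp a b i) * T d K0 (kp b a i)) ^ t * T d K0 (kp b a i)
            rw [← h6]
            refine prod_le_prod (fun j _ => sum_nonneg fun s _ => hF0 _ _ _ _ _ _) fun j _ => ?_
            refine le_trans (sum_le_sum fun s _ => ?_) (h.tot (ee j) (kp a b j) (kp b a j))
            exact iw_mono (wd_nonneg _ _) fun h4 => h4.1
          exact mul_le_mul h4 h5
            (prod_nonneg fun j _ => sum_nonneg fun s _ => hF0 _ _ _ _ _ _) (hlo _ _ _)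
      · rw [if_neg hc]
        apply le_of_eq
        refine sum_eq_zero fun s _ => ?_
        rw [if_neg fun h3 => hc h3.1]
    have h4 : ∑ x : Ix G r K n, B i x ≤ ∑ y : (Fin n → V) × (Fin n → Ed G r),
        iw (Cond y.1 y.2) (Lm (y.2 i)) := by
      simp only [Fintype.sum_prod_type]
      refine sum_le_sum fun v _ => sum_le_sum fun ee _ => ?_
      refine (sum_le_sum fun a _ => sum_le_sum fun b _ => h2 v ee a b).trans ?_
      by_cases hc : Cond v ee
      · simp only [iw, if_pos hc]
        have h5 := sum_kp' i (fun x y => iw (¬ (x = none ∧ y = none)) (lo (ee i) x y * TT x y))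
        simp only [iw] at h5
        rw [h5]
        exact le_of_eq rfl
      · simp [iw, hc]
    refine h4.trans ?_
    have h5 : ∑ y : (Fin n → V) × (Fin n → Ed G r), iw (Cond y.1 y.2) (Lm (y.2 i)) =
        ∑ e : Ed G r, ((univ.filter fun x : (Fin n → V) × (Fin n → Ed G r) =>
          Cond x.1 x.2 ∧ x.2 i = e).card : ℝ) * Lm e := by
      have h6 : ∀ y : (Fin n → V) × (Fin n → Ed G r),
          iw (Cond y.1 y.2) (Lm (y.2 i)) =
          ∑ e : Ed G r, if Cond y.1 y.2 ∧ y.2 i = e then Lm e else 0 := by
        intro y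
        unfold iw
        by_cases hc : Cond y.1 y.2
        · simp [hc]
        · simp [hc]
      rw [sum_congr rfl fun y _ => h6 y, sum_comm]
      refine sum_congr rfl fun e _ => ?_
      rw [← sum_filter, sum_const, nsmul_eq_mul]
    rw [h5]
    calc _ ≤ ∑ e : Ed G r, ((2 * (2 ^ (2 * t + 1) * (d * Fintype.card K) ^ t) : ℕ) : ℝ) *
          Lm e := by
          refine sum_le_sum fun e _ => ?_
          apply mul_le_mul_of_nonneg_right _ (hLm e)
          exact_mod_cast cond_card h t i e
      _ = _ := by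
          rw [← mul_sum]
          congr 1
          unfold M
          simp only [Lm]
          rw [sum_comm]
          refine sum_congr rfl fun x _ => ?_
          rw [sum_comm]
          refine sum_congr rfl fun y _ => ?_
          unfold iw
          by_cases h7 : x = none ∧ y = none
          · simp only [if_neg (not_not.2 h7), sum_const_zero]
          · simp only [if_pos h7]
            rw [← sum_mul]
            rfl
  refine (sum_le_sum fun i _ => hpos i).trans ?_
  rw [sum_const, card_univ, Fintype.card_fin, nsmul_eq_mul]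
  apply le_of_eq
  rw [hn]
  push_cast
  ring

/-- the sum of all cycle weights -/
theorem cyc_bound (h : Hyp G r pal D d K0) (t : ℕ) (p : Ed G r × K) :
    ∑ x ∈ univ.filter (fun x : Ix G r K (2 * t + 2) => P2 pal D (2 * t + 2) x ∧
      p ∈ Ev2 (2 * t + 2) x), xw hd pal (Ev2 (2 * t + 2) x) ≤
      872 * (4608 * (d * d) / K0) ^ t * wp pal p := by
  refine (cyc_sum h t p).trans ?_
  have hK := h.K0_pos
  have hd1 := h.d_one
  have hw := wp_nonneg (pal := pal) p
  have hN : (Fintype.card K : ℝ) ≤ 2 * K0 := by exact_mod_cast h.card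
  have hM := M_le h t p
  have h1 : (t : ℝ) + 1 ≤ 2 ^ t := by
    have := one_add_mul_le_pow (show (-2 : ℝ) ≤ 1 by norm_num) t
    norm_num at this
    linarith
  have h3 : ((d : ℝ) * Fintype.card K) ^ t ≤ (d * (2 * K0)) ^ t := by
    apply pow_le_pow_left₀ (by positivity)
    exact mul_le_mul_of_nonneg_left hN (by positivity)
  calc _ ≤ (2 * (t : ℝ) + 2) * (2 * (2 ^ (2 * t + 1) * (d * (2 * K0)) ^ t)) *
        (109 * (288 * d / (K0 * K0)) ^ t * wp pal p) := by
        refine mul_le_mul ?_ hM ?_ (by positivity)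
        · gcongr
        · unfold M
          exact sum_nonneg fun x _ => sum_nonneg fun y _ => iw_nonneg
            (mul_nonneg (L_nonneg _ _ _) (mul_nonneg (pow_nonneg
              (mul_nonneg (h.T_pos x).le (h.T_pos y).le) _) (h.T_pos y).le))
    _ = 872 * ((t : ℝ) + 1) * (2304 * (d * d) / K0) ^ t * wp pal p := by
        rw [show 2 * t + 1 = t + t + 1 by ring, pow_succ, pow_add]
        have h5 : (2304 * ((d : ℝ) * d) / K0) ^ t = 2 ^ t * 2 ^ t * (d * (2 * K0)) ^ t *
            (288 * d / (K0 * K0)) ^ t := by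
          rw [← mul_pow, ← mul_pow, ← mul_pow]
          congr 1
          field_simp
          norm_num
        rw [h5]
        ring
    _ ≤ 872 * 2 ^ t * (2304 * (d * d) / K0) ^ t * wp pal p := by gcongr
    _ = _ := by
        rw [mul_assoc (872 : ℝ), ← mul_pow]
        congr 3
        ring

end Run7.h882.S
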