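import Pool.Agent.Run7.h882.Count

/-!
# The weights of the events
-/

set_option autoImplicit false
set_option linter.unusedSectionVars false

namespace Run7.h882

open Finset Classical

variable {V K : Type} [Fintype V] [DecidableEq V] [Fintype K] [DecidableEq K]
  {G : SimpleGraph V} [DecidableRel G.Adj] {r : V → ℕ}

/-- the numerical assumptions -/
structure Hyp (G : SimpleGraph V) [DecidableRel G.Adj] (r : V → ℕ) (pal : V → Finset K)
    (R : Finset K) (d K0 : ℕ) : Prop where
  rk : ∀ u v, G.Adj u v → r u ≠ r v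
  one : 1 ≤ d
  up : ∀ v, (Up G r v).card ≤ d
  dn : ∀ v, (Dn G r v).card ≤ (pal v).card
  low : ∀ v, K0 ≤ (pal v).card
  big : 4000000000 * d ≤ K0
  card : Fintype.card K ≤ 2 * K0
  res : 10000000 * d ≤ R.card
  disj : ∀ e : Ed G r, Disjoint (pal (tl e)) R

variable {pal : V → Finset K} {R : Finset K} {d K0 : ℕ}

/-- the weight of the data of an edge -/
noncomputable def wd (pal : V → Finset K) (R : Finset K) (e : Ed G r) : Dt G r K → ℝ
  | none => 6 / ((pal (hd e)).card : ℝ)
  | some none => 6 / ((pal (hd e)).card : ℝ) * (6 / (R.card : ℝ))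
  | some (some (_, g)) => 6 / ((pal (hd e)).card : ℝ) * (6 / ((pal (hd g)).card : ℝ)) *
      (6 / (R.card : ℝ))

theorem wd_nonneg (e : Ed G r) (t : Dt G r K) : 0 ≤ wd pal R e t := by
  rcases t with _ | _ | ⟨y, g⟩ <;> simp only [wd] <;> positivity

theorem xw_W {e : Ed G r} {κ κ' : K} {t : Dt G r K} (h : Va pal R e κ κ' t) :
    xw gr (pl pal R) (W e κ κ' t) = wd pal R e t := by
  unfold xw
  rcases t with _ | _ | ⟨y, g⟩
  · rw [W, prod_singleton]; rfl
  · rw [W, prod_insert (by simp), prod_singleton]; rfl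
  · have h1 : e ≠ g := fun h' => tl_ne_hd e (by
      have := h.2.2.2
      rw [← h'] at this
      exact this)
    rw [W, prod_insert (by simp [h1]), prod_insert (by simp), prod_singleton, ← mul_assoc]; rfl

theorem card_out (w : V) : (univ.filter fun g : Ed G r => tl g = w).card = (Up G r w).card := by
  refine card_bij' (fun g _ => hd g)
    (fun x hx => (⟨(w, x), (mem_filter.1 hx).2⟩ : Ed G r)) ?_ ?_ ?_ ?_
  · intro g hg
    rw [mem_filter] at hg
    unfold Up
    rw [mem_filter]
    refine ⟨mem_univ _, ?_⟩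
    rw [← hg.2]; exact g.2
  · intro x hx
    rw [mem_filter]; exact ⟨mem_univ _, rfl⟩
  · intro g hg
    rw [mem_filter] at hg
    exact ed_ext hg.2.symm rfl
  · intro x hx; rfl

theorem card_in (w : V) : (univ.filter fun g : Ed G r => hd g = w).card = (Dn G r w).card := by
  refine card_bij' (fun g _ => tl g) (fun x hx => (⟨(x, w), ((mem_filter.1 hx).2.1.symm),
    (mem_filter.1 hx).2.2⟩ : Ed G r)) ?_ ?_ ?_ ?_
  · intro g hg
    rw [mem_filter] at hg
    unfold Dn
    rw [mem_filter]
    refine ⟨mem_univ _, ?_⟩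
    rw [← hg.2]; exact ⟨g.2.1.symm, g.2.2⟩
  · intro x hx
    rw [mem_filter]; exact ⟨mem_univ _, rfl⟩
  · intro g hg
    rw [mem_filter] at hg
    exact ed_ext rfl hg.2.symm
  · intro x hx; rfl

section
variable (h : Hyp G r pal R d K0)
include h

theorem Hyp.d_pos : (0 : ℝ) < d := by exact_mod_cast h.one

theorem Hyp.K0_pos : (0 : ℝ) < K0 := by
  have h1 := h.big
  have h2 := h.one
  have : 0 < K0 := by omega
  exact_mod_cast this

theorem Hyp.R_pos : (0 : ℝ) < R.card := by
  have h1 := h.res
  have h2 := h.one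
  have : 0 < R.card := by omega
  exact_mod_cast this

theorem Hyp.low' (v : V) : (K0 : ℝ) ≤ (pal v).card := by exact_mod_cast h.low v

theorem Hyp.pal_pos (v : V) : (0 : ℝ) < (pal v).card := h.K0_pos.trans_le (h.low' v)

theorem Hyp.pal_le (v : V) : ((pal v).card : ℝ) ≤ 2 * K0 := by
  have h1 : (pal v).card ≤ 2 * K0 := (card_le_univ _).trans h.card
  exact_mod_cast h1

theorem Hyp.div_le (v : V) : 6 / ((pal v).card : ℝ) ≤ 6 / K0 :=
  div_le_div_of_nonneg_left (by norm_num) h.K0_pos (h.low' v)

theorem Hyp.out_le (w : V) : ((univ.filter fun g : Ed G r => tl g = w).card : ℝ) ≤ d := by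
  rw [card_out]; exact_mod_cast h.up w

theorem Hyp.in_le (w : V) : ((univ.filter fun g : Ed G r => hd g = w).card : ℝ) ≤
    (pal w).card := by
  rw [card_in]; exact_mod_cast h.dn w

/-- the total weight of the data of the third kind -/
theorem Hyp.totX (e : Ed G r) (κ κ' : K) :
    ∑ x : K × Ed G r, (if Va pal R e κ κ' (some (some x)) then wd pal R e (some (some x)) else 0) ≤
      216 * d / (K0 * R.card) := by
  rw [Fintype.sum_prod_type]
  have hR := h.R_pos
  have hK := h.K0_pos
  have h1 : ∀ y : K, ∑ g : Ed G r, (if Va pal R e κ κ' (some (some (y, g))) then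
      wd pal R e (some (some (y, g))) else 0) ≤
      if y ∈ pal (hd e) then d * (6 / ((pal (hd e)).card : ℝ) * (6 / K0) * (6 / R.card)) else 0 := by
    intro y
    split_ifs with hy
    · calc ∑ g : Ed G r, (if Va pal R e κ κ' (some (some (y, g))) then
          wd pal R e (some (some (y, g))) else 0) ≤
          ∑ g : Ed G r, (if tl g = hd e then
            6 / ((pal (hd e)).card : ℝ) * (6 / K0) * (6 / R.card) else 0) := by
            refine sum_le_sum fun g _ => ?_
            split_ifs with h2 h3 h3
            · simp only [wd]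
              have := h.div_le (hd g)
              have h4 := h.pal_pos (hd e)
              gcongr
            · exact absurd h2.2.2.2 h3
            · have h4 := h.pal_pos (hd e)
              positivity
            · exact le_rfl
        _ = ((univ.filter fun g : Ed G r => tl g = hd e).card : ℝ) *
            (6 / ((pal (hd e)).card : ℝ) * (6 / K0) * (6 / R.card)) := by
            rw [← sum_filter, sum_const, nsmul_eq_mul]
        _ ≤ _ := by
            have h4 := h.pal_pos (hd e)
            exact mul_le_mul_of_nonneg_right (h.out_le _) (by positivity)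
    · apply le_of_eq
      refine sum_eq_zero fun g _ => ?_
      rw [if_neg fun h2 => hy h2.2.1]
  refine (sum_le_sum fun y _ => h1 y).trans ?_
  rw [← sum_filter, sum_const, nsmul_eq_mul]
  have h2 : univ.filter (fun y => y ∈ pal (hd e)) = pal (hd e) := by ext; simp
  rw [h2]
  have h4 := h.pal_pos (hd e)
  apply le_of_eq
  field_simp
  ring

/-- the total weight of the data of an edge -/
theorem Hyp.tot (e : Ed G r) (κ κ' : K) :
    ∑ t : Dt G r K, (if Va pal R e κ κ' t then wd pal R e t else 0) ≤ 12 / K0 := by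
  rw [Fintype.sum_option, Fintype.sum_option]
  have hR := h.R_pos
  have hK := h.K0_pos
  have hd := h.d_pos
  have hd1 : (1 : ℝ) ≤ d := by exact_mod_cast h.one
  have hRd : (10000000 : ℝ) * d ≤ R.card := by exact_mod_cast h.res
  have h1 : (if Va pal R e κ κ' none then wd pal R e none else 0) ≤ 6 / (K0 : ℝ) := by
    split_ifs
    · exact h.div_le _
    · positivity
  have h2 : (if Va pal R e κ κ' (some none) then wd pal R e (some none) else 0) ≤
      6 / (K0 : ℝ) * (6 / R.card) := by
    split_ifs
    · exact mul_le_mul_of_nonneg_right (h.div_le _) (by positivity)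
    · positivity
  have h3 := h.totX e κ κ'
  have h4 : 6 / (K0 : ℝ) * (6 / R.card) + 216 * d / (K0 * R.card) ≤ 6 / K0 := by
    have : 6 / (K0 : ℝ) * (6 / R.card) + 216 * d / (K0 * R.card) =
      (6 / K0) * ((6 + 36 * d) / R.card) := by
      field_simp
      ring
    rw [this]
    apply mul_le_of_le_one_right (by positivity)
    rw [div_le_one hR]
    nlinarith
  have h5 : (12 : ℝ) / K0 = 6 / K0 + 6 / K0 := by ring
  rw [h5]
  linarith

end

/-- the weight of a prescription -/
noncomputable def wp (pal : V → Finset K) (R : Finset K) (p : (Ed G r ⊕ Ed G r) × K) : ℝ :=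
  6 / ((pl pal R (gr p.1)).card : ℝ)

theorem wp_nonneg (p : (Ed G r ⊕ Ed G r) × K) : 0 ≤ wp pal R p := by
  unfold wp; positivity

/-- the total weight of the data of one edge that contain the prescription `p`, without the data of the
second kind -/
noncomputable def La0 (pal : V → Finset K) (R : Finset K) (p : (Ed G r ⊕ Ed G r) × K) : ℝ :=
  ∑ e : Ed G r, ∑ κ : K, ∑ t : Dt G r K,
    if Va pal R e κ κ t ∧ t ≠ some none ∧ p ∈ W e κ κ t then wd pal R e t else 0

theorem sum_le_two {ι : Type} [Fintype ι] (F : ι → ℝ) (S1 S2 : Finset ι) (c1 c2 : ℝ)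
    (h0 : ∀ x, 0 ≤ F x) (h : ∀ x, F x ≠ 0 → x ∈ S1 ∨ x ∈ S2) (h1 : ∀ x ∈ S1, F x ≤ c1)
    (h2 : ∀ x ∈ S2, F x ≤ c2) : ∑ x, F x ≤ S1.card * c1 + S2.card * c2 := by
  have h3 : ∑ x, F x ≤ ∑ x ∈ S1, F x + ∑ x ∈ S2, F x := by
    rw [← sum_union_inter]
    have h4 : ∑ x, F x = ∑ x ∈ S1 ∪ S2, F x := by
      symm
      apply sum_subset (subset_univ _)
      intro x _ hx
      by_contra hne
      exact hx (mem_union.2 (h x hne))
    rw [h4]
    linarith [sum_nonneg (s := S1 ∩ S2) fun x _ => h0 x]
  have h5 := sum_le_card_nsmul S1 F c1 h1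
  have h6 := sum_le_card_nsmul S2 F c2 h2
  rw [nsmul_eq_mul] at h5 h6
  linarith

theorem La0_split (p : (Ed G r ⊕ Ed G r) × K) :
    La0 pal R p = ∑ x : Ed G r × K, (if Va pal R x.1 x.2 x.2 none ∧ p ∈ W x.1 x.2 x.2 none then
      wd pal R x.1 none else 0) +
      ∑ x : Ed G r × K × K × Ed G r, (if Va pal R x.1 x.2.1 x.2.1 (some (some x.2.2)) ∧
        p ∈ W x.1 x.2.1 x.2.1 (some (some x.2.2)) then wd pal R x.1 (some (some x.2.2)) else 0) := by
  unfold La0
  have hsplit : ∀ (e : Ed G r) (κ : K), (∑ t : Dt G r K,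
      if Va pal R e κ κ t ∧ t ≠ some none ∧ p ∈ W e κ κ t then wd pal R e t else 0) =
      (if Va pal R e κ κ none ∧ p ∈ W e κ κ none then wd pal R e none else 0) +
      ∑ x : K × Ed G r, (if Va pal R e κ κ (some (some x)) ∧
        p ∈ W e κ κ (some (some x)) then wd pal R e (some (some x)) else 0) := by
    intro e κ
    rw [Fintype.sum_option, Fintype.sum_option]
    simp
  simp_rw [hsplit, sum_add_distrib]
  rw [Fintype.sum_prod_type, Fintype.sum_prod_type]
  congr 1
  refine sum_congr rfl fun e _ => ?_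
  rw [Fintype.sum_prod_type]

theorem La0_le (h : Hyp G r pal R d K0) (p : (Ed G r ⊕ Ed G r) × K) :
    La0 pal R p ≤ 38 * wp pal R p := by
  have hR := h.R_pos
  have hK := h.K0_pos
  have hdp := h.d_pos
  have hbig : (4000000000 : ℝ) * d ≤ K0 := by exact_mod_cast h.big
  rw [La0_split]
  obtain ⟨a, y₀⟩ := p
  have hF1 : ∀ x : Ed G r × K, 0 ≤ (if Va pal R x.1 x.2 x.2 none ∧ (a, y₀) ∈ W x.1 x.2 x.2 none
      then wd pal R x.1 none else 0) := fun x => by
    split_ifs
    · exact wd_nonneg _ _
    · exact le_rfl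
  have hF2 : ∀ x : Ed G r × K × K × Ed G r, 0 ≤ (if Va pal R x.1 x.2.1 x.2.1 (some (some x.2.2)) ∧
        (a, y₀) ∈ W x.1 x.2.1 x.2.1 (some (some x.2.2)) then
          wd pal R x.1 (some (some x.2.2)) else 0) := fun x => by
    split_ifs
    · exact wd_nonneg _ _
    · exact le_rfl
  rcases a with e₀ | e₀
  · -- a first colour
    have hp₀ := h.pal_pos (hd e₀)
    have hpt := h.pal_pos (tl e₀)
    set w₀ : ℝ := 6 / ((pal (hd e₀)).card : ℝ) with hw₀
    have hw₀0 : 0 ≤ w₀ := by positivity
    have hwp : wp pal R ((Sum.inl e₀ : Ed G r ⊕ Ed G r), y₀) = w₀ := rfl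
    rw [hwp]
    have h1 := sum_le_two (fun x : Ed G r × K =>
      (if Va pal R x.1 x.2 x.2 none ∧ ((Sum.inl e₀ : Ed G r ⊕ Ed G r), y₀) ∈ W x.1 x.2 x.2 none
      then wd pal R x.1 none else 0)) {(e₀, y₀)} ∅ w₀ 0 hF1 (by
        rintro ⟨e, κ⟩ hne
        left
        by_contra hx
        apply hne
        apply if_neg
        rintro ⟨-, hm⟩
        rw [W, mem_singleton] at hm
        apply hx
        rw [mem_singleton]
        exact Prod.ext (Sum.inl_injective (Prod.ext_iff.1 hm).1).symm
          (Prod.ext_iff.1 hm).2.symm) (by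
        intro x hx
        rw [mem_singleton] at hx
        subst hx
        dsimp only
        split_ifs
        · exact le_rfl
        · exact hw₀0) (by simp)
    have h2 := sum_le_two (fun x : Ed G r × K × K × Ed G r =>
      (if Va pal R x.1 x.2.1 x.2.1 (some (some x.2.2)) ∧
        ((Sum.inl e₀ : Ed G r ⊕ Ed G r), y₀) ∈ W x.1 x.2.1 x.2.1 (some (some x.2.2)) then
          wd pal R x.1 (some (some x.2.2)) else 0))
      ({e₀} ×ˢ R ×ˢ {y₀} ×ˢ (univ.filter fun g : Ed G r => tl g = hd e₀))
      ((univ.filter fun g : Ed G r => hd g = tl e₀) ×ˢ R ×ˢ {y₀} ×ˢ {e₀})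
      (w₀ * (6 / K0) * (6 / R.card)) (6 / ((pal (tl e₀)).card : ℝ) * w₀ * (6 / R.card)) hF2 (by
        rintro ⟨e, κ, y, g⟩ hne
        by_contra hx
        apply hne
        apply if_neg
        rintro ⟨⟨hκ, hy, hyg, htg⟩, hm⟩
        dsimp only at hκ hy hyg htg hm
        rw [W, mem_insert, mem_insert, mem_singleton] at hm
        apply hx
        simp only [mem_product, mem_singleton, mem_filter, mem_univ, true_and]
        rcases hm with hm | hm | hm
        · have h3 : e₀ = e := Sum.inl_injective (Prod.ext_iff.1 hm).1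
          have h4 : y₀ = y := (Prod.ext_iff.1 hm).2
          left
          subst h3 h4
          exact ⟨rfl, hκ, rfl, htg⟩
        · have h3 : e₀ = g := Sum.inl_injective (Prod.ext_iff.1 hm).1
          have h4 : y₀ = y := (Prod.ext_iff.1 hm).2
          right
          subst h3 h4
          exact ⟨htg.symm, hκ, rfl, rfl⟩
        · exact absurd (Prod.ext_iff.1 hm).1 Sum.inl_ne_inr) (by
        rintro ⟨e, κ, y, g⟩ hx
        simp only [mem_product, mem_singleton, mem_filter, mem_univ, true_and] at hx
        obtain ⟨rfl, hκ, rfl, htg⟩ := hx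
        dsimp only
        split_ifs
        · simp only [wd]
          have := h.div_le (hd g)
          gcongr
        · positivity) (by
        rintro ⟨e, κ, y, g⟩ hx
        simp only [mem_product, mem_singleton, mem_filter, mem_univ, true_and] at hx
        obtain ⟨htg, hκ, rfl, rfl⟩ := hx
        dsimp only
        split_ifs
        · simp only [wd]
          rw [htg]
        · positivity)
    rw [card_product, card_product, card_product, card_product, card_product, card_product,
      card_singleton, card_singleton] at h2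
    push_cast at h2
    have h3 : (1 : ℝ) * (R.card * (1 * (univ.filter fun g : Ed G r => tl g = hd e₀).card)) *
        (w₀ * (6 / K0) * (6 / R.card)) ≤ w₀ := by
      calc _ ≤ (1 : ℝ) * (R.card * (1 * d)) * (w₀ * (6 / K0) * (6 / R.card)) := by
            have := h.out_le (hd e₀)
            gcongr
        _ = w₀ * (36 * d / K0) := by field_simp; norm_num
        _ ≤ w₀ * 1 := by
            apply mul_le_mul_of_nonneg_left _ hw₀0
            rw [div_le_one hK]
            nlinarith
        _ = w₀ := mul_one _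
    have h4 : ((univ.filter fun g : Ed G r => hd g = tl e₀).card : ℝ) * (R.card * (1 * 1)) *
        (6 / ((pal (tl e₀)).card : ℝ) * w₀ * (6 / R.card)) ≤ 36 * w₀ := by
      calc _ ≤ ((pal (tl e₀)).card : ℝ) * (R.card * (1 * 1)) *
            (6 / ((pal (tl e₀)).card : ℝ) * w₀ * (6 / R.card)) := by
            have := h.in_le (tl e₀)
            gcongr
        _ = 36 * w₀ := by field_simp; ring
    rw [card_singleton, card_empty] at h1
    push_cast at h1
    linarith
  · -- a spare colour
    set w₀ : ℝ := 6 / (R.card : ℝ) with hw₀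
    have hw₀0 : 0 ≤ w₀ := by positivity
    have hwp : wp pal R ((Sum.inr e₀ : Ed G r ⊕ Ed G r), y₀) = w₀ := rfl
    rw [hwp]
    have h1 : ∑ x : Ed G r × K, (if Va pal R x.1 x.2 x.2 none ∧
        ((Sum.inr e₀ : Ed G r ⊕ Ed G r), y₀) ∈ W x.1 x.2 x.2 none then
          wd pal R x.1 none else 0) = 0 := by
      refine sum_eq_zero fun x _ => if_neg ?_
      rintro ⟨-, hm⟩
      rw [W, mem_singleton] at hm
      exact absurd (Prod.ext_iff.1 hm).1 Sum.inr_ne_inl
    have hpe := h.pal_pos (hd e₀)
    have h2 := sum_le_two (fun x : Ed G r × K × K × Ed G r =>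
      (if Va pal R x.1 x.2.1 x.2.1 (some (some x.2.2)) ∧
        ((Sum.inr e₀ : Ed G r ⊕ Ed G r), y₀) ∈ W x.1 x.2.1 x.2.1 (some (some x.2.2)) then
          wd pal R x.1 (some (some x.2.2)) else 0))
      ({e₀} ×ˢ {y₀} ×ˢ pal (hd e₀) ×ˢ (univ.filter fun g : Ed G r => tl g = hd e₀)) ∅
      (6 / ((pal (hd e₀)).card : ℝ) * (6 / K0) * w₀) 0 hF2 (by
        rintro ⟨e, κ, y, g⟩ hne
        left
        by_contra hx
        apply hne
        apply if_neg
        rintro ⟨⟨hκ, hy, hyg, htg⟩, hm⟩
        dsimp only at hκ hy hyg htg hm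
        rw [W, mem_insert, mem_insert, mem_singleton] at hm
        apply hx
        simp only [mem_product, mem_singleton, mem_filter, mem_univ, true_and]
        rcases hm with hm | hm | hm
        · exact absurd (Prod.ext_iff.1 hm).1 Sum.inr_ne_inl
        · exact absurd (Prod.ext_iff.1 hm).1 Sum.inr_ne_inl
        · have h3 : e₀ = e := Sum.inr_injective (Prod.ext_iff.1 hm).1
          have h4 : y₀ = κ := (Prod.ext_iff.1 hm).2
          subst h3 h4
          exact ⟨rfl, rfl, hy, htg⟩) (by
        rintro ⟨e, κ, y, g⟩ hx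
        simp only [mem_product, mem_singleton, mem_filter, mem_univ, true_and] at hx
        obtain ⟨rfl, rfl, hy, htg⟩ := hx
        dsimp only
        split_ifs
        · simp only [wd]
          have := h.div_le (hd g)
          gcongr
        · positivity) (by simp)
    rw [card_product, card_product, card_product, card_singleton, card_singleton,
      card_empty] at h2
    push_cast at h2
    have h3 : (1 : ℝ) * (1 * ((pal (hd e₀)).card *
        (univ.filter fun g : Ed G r => tl g = hd e₀).card)) *
        (6 / ((pal (hd e₀)).card : ℝ) * (6 / K0) * w₀) ≤ w₀ := by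
      calc _ ≤ (1 : ℝ) * (1 * ((pal (hd e₀)).card * d)) *
            (6 / ((pal (hd e₀)).card : ℝ) * (6 / K0) * w₀) := by
            have := h.out_le (hd e₀)
            gcongr
        _ = w₀ * (36 * d / K0) := by field_simp; ring
        _ ≤ w₀ * 1 := by
            apply mul_le_mul_of_nonneg_left _ hw₀0
            rw [div_le_one hK]
            nlinarith
        _ = w₀ := mul_one _
    rw [h1]
    linarith

end Run7.h882
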