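import Pool.Agent.Run7.h882.Sum

/-!
# The weights of the events for pairs and cycles
-/

set_option autoImplicit false
set_option linter.unusedSectionVars false

namespace Run7.h882

open Finset Classical

variable {V K : Type} [Fintype V] [DecidableEq V] [Fintype K] [DecidableEq K]
  {G : SimpleGraph V} [DecidableRel G.Adj] {r : V → ℕ}
  {pal : V → Finset K} {R : Finset K} {d K0 : ℕ}

/-- the indicator times a weight -/
noncomputable def iw (P : Prop) (x : ℝ) : ℝ := if P then x else 0

theorem iw_nonneg {P : Prop} {x : ℝ} (h : 0 ≤ x) : 0 ≤ iw P x := by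
  unfold iw; split_ifs; exact h; exact le_rfl

theorem iw_mono {P Q : Prop} {x : ℝ} (h : 0 ≤ x) (hPQ : P → Q) : iw P x ≤ iw Q x := by
  unfold iw
  split_ifs with h1 h2
  · exact le_rfl
  · exact absurd (hPQ h1) h2
  · exact h
  · exact le_rfl

theorem iw_or {P Q : Prop} {x : ℝ} (h : 0 ≤ x) : iw (P ∨ Q) x ≤ iw P x + iw Q x := by
  unfold iw
  by_cases hP : P <;> by_cases hQ : Q <;> simp [hP, hQ, h]

theorem iw_and {P Q : Prop} {x : ℝ} : iw (P ∧ Q) x = if P then iw Q x else 0 := by
  unfold iw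
  by_cases hP : P <;> by_cases hQ : Q <;> simp [hP, hQ]

section
variable (h : Hyp G r pal R d K0)
include h

theorem Hyp.tot' (e : Ed G r) (κ κ' : K) :
    ∑ t : Dt G r K, iw (Va pal R e κ κ' t) (wd pal R e t) ≤ 12 / K0 := h.tot e κ κ'

theorem Hyp.totX' (e : Ed G r) (κ κ' : K) :
    ∑ t : Dt G r K, iw (isX t ∧ Va pal R e κ κ' t) (wd pal R e t) ≤ 216 * d / (K0 * R.card) := by
  rw [Fintype.sum_option, Fintype.sum_option]
  have h1 := h.totX e κ κ'
  have h2 : iw (isX (none : Dt G r K) ∧ Va pal R e κ κ' none) (wd pal R e none) = 0 := by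
    unfold iw isX; simp
  have h3 : iw (isX (some none : Dt G r K) ∧ Va pal R e κ κ' (some none))
      (wd pal R e (some none)) = 0 := by
    unfold iw isX; simp
  have h4 : ∀ x : K × Ed G r, iw (isX (some (some x) : Dt G r K) ∧
      Va pal R e κ κ' (some (some x))) (wd pal R e (some (some x))) =
      if Va pal R e κ κ' (some (some x)) then wd pal R e (some (some x)) else 0 := by
    intro x
    unfold iw isX; simp
  rw [h2, h3, sum_congr rfl fun x _ => h4 x]
  linarith

/-- edges with a given tail -/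
theorem Hyp.sum_tl (w : V) (κ κ' : K) :
    ∑ e : Ed G r, ∑ t : Dt G r K, iw (tl e = w ∧ Va pal R e κ κ' t) (wd pal R e t) ≤
      12 * d / K0 := by
  have hK := h.K0_pos
  have h1 : ∀ e : Ed G r, ∑ t : Dt G r K, iw (tl e = w ∧ Va pal R e κ κ' t) (wd pal R e t) ≤
      if tl e = w then 12 / (K0 : ℝ) else 0 := by
    intro e
    simp_rw [iw_and]
    split_ifs with h2
    · exact h.tot' e κ κ'
    · simp
  refine (sum_le_sum fun e _ => h1 e).trans ?_
  rw [← sum_filter, sum_const, nsmul_eq_mul]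
  calc _ ≤ (d : ℝ) * (12 / K0) := mul_le_mul_of_nonneg_right (h.out_le w) (by positivity)
    _ = _ := by ring

/-- blocked edges with a given head -/
theorem Hyp.sum_hd (w : V) (κ κ' : K) :
    ∑ e : Ed G r, ∑ t : Dt G r K, iw (hd e = w ∧ isX t ∧ Va pal R e κ κ' t) (wd pal R e t) ≤
      432 * d / R.card := by
  have hK := h.K0_pos
  have hR := h.R_pos
  have h1 : ∀ e : Ed G r, ∑ t : Dt G r K, iw (hd e = w ∧ isX t ∧ Va pal R e κ κ' t)
      (wd pal R e t) ≤ if hd e = w then (216 : ℝ) * d / (K0 * R.card) else 0 := by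
    intro e
    simp_rw [iw_and (P := hd e = w)]
    split_ifs with h2
    · exact h.totX' e κ κ'
    · simp
  refine (sum_le_sum fun e _ => h1 e).trans ?_
  rw [← sum_filter, sum_const, nsmul_eq_mul]
  calc _ ≤ (2 * (K0 : ℝ)) * (216 * d / (K0 * R.card)) :=
        mul_le_mul_of_nonneg_right ((h.in_le w).trans (h.pal_le w)) (by positivity)
    _ = _ := by field_simp; ring

/-- the total weight of the second edges of a pair -/
theorem Hyp.partner1 (e : Ed G r) (κ : K) (t : Dt G r K) :
    ∑ e' : Ed G r, ∑ t' : Dt G r K, iw (Va pal R e' κ κ t' ∧ Rel e e' t t') (wd pal R e' t') ≤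
      24 * d / K0 + 864 * d / R.card := by
  have h1 : ∀ (e' : Ed G r) (t' : Dt G r K),
      iw (Va pal R e' κ κ t' ∧ Rel e e' t t') (wd pal R e' t') ≤
      iw (tl e' = tl e ∧ Va pal R e' κ κ t') (wd pal R e' t') +
      (iw (hd e' = hd e ∧ isX t' ∧ Va pal R e' κ κ t') (wd pal R e' t') +
      iw (tl e' = hd e ∧ Va pal R e' κ κ t') (wd pal R e' t')) := by
    intro e' t'
    have hw := wd_nonneg (pal := pal) (R := R) e' t'
    refine le_trans ?_ (le_trans (iw_or hw) (add_le_add_right (iw_or hw) _))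
    apply iw_mono hw
    rintro ⟨h1, h2 | ⟨h2, h3, h4⟩ | ⟨h2, h3⟩⟩
    · exact Or.inl ⟨h2.symm, h1⟩
    · exact Or.inr (Or.inl ⟨h2.symm, h4, h1⟩)
    · exact Or.inr (Or.inr ⟨h2.symm, h1⟩)
  refine (sum_le_sum fun e' _ => sum_le_sum fun t' _ => h1 e' t').trans ?_
  simp_rw [sum_add_distrib]
  have h2 := h.sum_tl (tl e) κ κ
  have h3 := h.sum_hd (hd e) κ κ
  have h4 := h.sum_tl (hd e) κ κ
  have hR := h.R_pos
  have h5 : (0 : ℝ) ≤ 432 * d / R.card := by positivity
  have h6 : (24 : ℝ) * d / K0 = 12 * d / K0 + 12 * d / K0 := by ring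
  have h7 : (864 : ℝ) * d / R.card = 432 * d / R.card + 432 * d / R.card := by ring
  linarith

/-- the total weight of the first edges of a pair -/
theorem Hyp.partner2 (e' : Ed G r) (κ : K) (t' : Dt G r K) :
    ∑ e : Ed G r, ∑ t : Dt G r K, iw (Va pal R e κ κ t ∧ Rel e e' t t') (wd pal R e t) ≤
      24 * d / K0 + 864 * d / R.card := by
  have h1 : ∀ (e : Ed G r) (t : Dt G r K),
      iw (Va pal R e κ κ t ∧ Rel e e' t t') (wd pal R e t) ≤
      iw (tl e = tl e' ∧ Va pal R e κ κ t) (wd pal R e t) +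
      (iw (hd e = hd e' ∧ isX t ∧ Va pal R e κ κ t) (wd pal R e t) +
      iw (hd e = tl e' ∧ isX t ∧ Va pal R e κ κ t) (wd pal R e t)) := by
    intro e t
    have hw := wd_nonneg (pal := pal) (R := R) e t
    refine le_trans ?_ (le_trans (iw_or hw) (add_le_add_right (iw_or hw) _))
    apply iw_mono hw
    rintro ⟨h1, h2 | ⟨h2, h3, h4⟩ | ⟨h2, h3⟩⟩
    · exact Or.inl ⟨h2, h1⟩
    · exact Or.inr (Or.inl ⟨h2, h3, h1⟩)
    · exact Or.inr (Or.inr ⟨h2, h3, h1⟩)
  refine (sum_le_sum fun e' _ => sum_le_sum fun t' _ => h1 e' t').trans ?_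
  simp_rw [sum_add_distrib]
  have h2 := h.sum_tl (tl e') κ κ
  have h3 := h.sum_hd (hd e') κ κ
  have h4 := h.sum_hd (tl e') κ κ
  have hK := h.K0_pos
  have h5 : (0 : ℝ) ≤ 12 * d / K0 := by positivity
  have h6 : (24 : ℝ) * d / K0 = 12 * d / K0 + 12 * d / K0 := by ring
  have h7 : (864 : ℝ) * d / R.card = 432 * d / R.card + 432 * d / R.card := by ring
  linarith

end

theorem La0_iw (p : (Ed G r ⊕ Ed G r) × K) : La0 pal R p =
    ∑ e : Ed G r, ∑ κ : K, ∑ t : Dt G r K,
      iw (Va pal R e κ κ t ∧ t ≠ some none ∧ p ∈ W e κ κ t) (wd pal R e t) := by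
  unfold La0 iw
  refine sum_congr rfl fun e _ => sum_congr rfl fun κ _ => sum_congr rfl fun t _ => ?_
  congr

theorem xw_union {A J K : Type} [DecidableEq A] [DecidableEq K] {g : A → J} {pal : J → Finset K}
    {E E' : Finset (A × K)} (hd : Disjoint E E') :
    xw g pal (E ∪ E') = xw g pal E * xw g pal E' := by
  unfold xw; rw [prod_union hd]

/-- the events for pairs that contain a given prescription -/
theorem pair_sum (h : Hyp G r pal R d K0) (p : (Ed G r ⊕ Ed G r) × K) :
    ∑ x ∈ univ.filter (fun x : Ed G r × Ed G r × K × Dt G r K × Dt G r K =>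
      P1 pal R x ∧ p ∈ Ev1 x), xw gr (pl pal R) (Ev1 x) ≤
      76 * (24 * d / K0 + 864 * d / R.card) * wp pal R p := by
  set η : ℝ := 24 * d / K0 + 864 * d / R.card with hη
  have hη0 : 0 ≤ η := by positivity
  -- the two parts
  let A1 : Ed G r → Ed G r → K → Dt G r K → Dt G r K → ℝ := fun e e' κ t t' =>
    iw (Va pal R e κ κ t ∧ t ≠ some none ∧ p ∈ W e κ κ t) (wd pal R e t) *
      iw (Va pal R e' κ κ t' ∧ Rel e e' t t') (wd pal R e' t')
  let A2 : Ed G r → Ed G r → K → Dt G r K → Dt G r K → ℝ := fun e e' κ t t' =>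
    iw (Va pal R e' κ κ t' ∧ t' ≠ some none ∧ p ∈ W e' κ κ t') (wd pal R e' t') *
      iw (Va pal R e κ κ t ∧ Rel e e' t t') (wd pal R e t)
  have hA1 : ∀ e e' κ t t', 0 ≤ A1 e e' κ t t' := fun e e' κ t t' =>
    mul_nonneg (iw_nonneg (wd_nonneg _ _)) (iw_nonneg (wd_nonneg _ _))
  have hA2 : ∀ e e' κ t t', 0 ≤ A2 e e' κ t t' := fun e e' κ t t' =>
    mul_nonneg (iw_nonneg (wd_nonneg _ _)) (iw_nonneg (wd_nonneg _ _))
  have h1 : ∀ x ∈ univ.filter (fun x : Ed G r × Ed G r × K × Dt G r K × Dt G r K =>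
      P1 pal R x ∧ p ∈ Ev1 x), xw gr (pl pal R) (Ev1 x) ≤
      A1 x.1 x.2.1 x.2.2.1 x.2.2.2.1 x.2.2.2.2 + A2 x.1 x.2.1 x.2.2.1 x.2.2.2.1 x.2.2.2.2 := by
    rintro ⟨e, e', κ, t, t'⟩ hx
    rw [mem_filter] at hx
    obtain ⟨-, ⟨hne, ht, ht', hv, hv', hdj, hrel⟩, hp⟩ := hx
    simp only at hne ht ht' hv hv' hdj hrel ⊢
    have h2 : xw gr (pl pal R) (Ev1 (e, e', κ, t, t')) = wd pal R e t * wd pal R e' t' := by
      unfold Ev1
      rw [xw_union hdj, xw_W hv, xw_W hv']
    rw [h2]
    unfold Ev1 at hp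
    rcases mem_union.1 hp with hp | hp
    · have h3 : A1 e e' κ t t' = wd pal R e t * wd pal R e' t' := by
        simp only [A1, iw]
        rw [if_pos ⟨hv, ht, hp⟩, if_pos ⟨hv', hrel⟩]
      linarith [hA2 e e' κ t t']
    · have h3 : A2 e e' κ t t' = wd pal R e t * wd pal R e' t' := by
        simp only [A2, iw]
        rw [if_pos ⟨hv', ht', hp⟩, if_pos ⟨hv, hrel⟩, mul_comm]
      linarith [hA1 e e' κ t t']
  refine (sum_le_sum h1).trans ?_
  refine (sum_le_sum_of_subset_of_nonneg (filter_subset _ _) fun x _ _ =>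
    add_nonneg (hA1 _ _ _ _ _) (hA2 _ _ _ _ _)).trans ?_
  rw [sum_add_distrib]
  have hL := La0_le h p
  have h2 : ∑ x : Ed G r × Ed G r × K × Dt G r K × Dt G r K,
      A1 x.1 x.2.1 x.2.2.1 x.2.2.2.1 x.2.2.2.2 ≤ η * La0 pal R p := by
    simp only [Fintype.sum_prod_type]
    calc ∑ e : Ed G r, ∑ e' : Ed G r, ∑ κ : K, ∑ t : Dt G r K, ∑ t' : Dt G r K, A1 e e' κ t t' =
        ∑ e : Ed G r, ∑ κ : K, ∑ t : Dt G r K,
          iw (Va pal R e κ κ t ∧ t ≠ some none ∧ p ∈ W e κ κ t) (wd pal R e t) *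
            ∑ e' : Ed G r, ∑ t' : Dt G r K,
              iw (Va pal R e' κ κ t' ∧ Rel e e' t t') (wd pal R e' t') := by
          refine sum_congr rfl fun e _ => ?_
          rw [sum_comm]
          refine sum_congr rfl fun κ _ => ?_
          rw [sum_comm]
          refine sum_congr rfl fun t _ => ?_
          rw [mul_sum]
          refine sum_congr rfl fun e' _ => ?_
          rw [mul_sum]
      _ ≤ ∑ e : Ed G r, ∑ κ : K, ∑ t : Dt G r K,
          iw (Va pal R e κ κ t ∧ t ≠ some none ∧ p ∈ W e κ κ t) (wd pal R e t) * η := by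
          refine sum_le_sum fun e _ => sum_le_sum fun κ _ => sum_le_sum fun t _ => ?_
          exact mul_le_mul_of_nonneg_left (h.partner1 e κ t) (iw_nonneg (wd_nonneg _ _))
      _ = η * La0 pal R p := by
          rw [La0_iw]
          simp_rw [mul_sum, mul_comm η]
  have h3 : ∑ x : Ed G r × Ed G r × K × Dt G r K × Dt G r K,
      A2 x.1 x.2.1 x.2.2.1 x.2.2.2.1 x.2.2.2.2 ≤ η * La0 pal R p := by
    simp only [Fintype.sum_prod_type]
    calc ∑ e : Ed G r, ∑ e' : Ed G r, ∑ κ : K, ∑ t : Dt G r K, ∑ t' : Dt G r K, A2 e e' κ t t' =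
        ∑ e' : Ed G r, ∑ κ : K, ∑ t' : Dt G r K,
          iw (Va pal R e' κ κ t' ∧ t' ≠ some none ∧ p ∈ W e' κ κ t') (wd pal R e' t') *
            ∑ e : Ed G r, ∑ t : Dt G r K,
              iw (Va pal R e κ κ t ∧ Rel e e' t t') (wd pal R e t) := by
          rw [sum_comm]
          refine sum_congr rfl fun e' _ => ?_
          rw [sum_comm]
          refine sum_congr rfl fun κ _ => ?_
          have : ∀ e : Ed G r, ∑ t : Dt G r K, ∑ t' : Dt G r K, A2 e e' κ t t' =
              ∑ t' : Dt G r K, ∑ t : Dt G r K, A2 e e' κ t t' := fun e => sum_comm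
          rw [sum_congr rfl fun e _ => this e, sum_comm]
          refine sum_congr rfl fun t' _ => ?_
          rw [mul_sum]
          refine sum_congr rfl fun e _ => ?_
          rw [mul_sum]
      _ ≤ ∑ e' : Ed G r, ∑ κ : K, ∑ t' : Dt G r K,
          iw (Va pal R e' κ κ t' ∧ t' ≠ some none ∧ p ∈ W e' κ κ t') (wd pal R e' t') * η := by
          refine sum_le_sum fun e _ => sum_le_sum fun κ _ => sum_le_sum fun t _ => ?_
          exact mul_le_mul_of_nonneg_left (h.partner2 e κ t) (iw_nonneg (wd_nonneg _ _))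
      _ = η * La0 pal R p := by
          rw [La0_iw]
          simp_rw [mul_sum, mul_comm η]
  nlinarith [mul_le_mul_of_nonneg_left hL hη0]

/-- the total weight of the data of one edge that contain the prescription `p` -/
noncomputable def La2 (pal : V → Finset K) (R : Finset K) (p : (Ed G r ⊕ Ed G r) × K) : ℝ :=
  ∑ e : Ed G r, ∑ κ : K, ∑ κ' : K, ∑ t : Dt G r K,
    iw (Va pal R e κ κ' t ∧ p ∈ W e κ κ' t) (wd pal R e t)

theorem La2_le (h : Hyp G r pal R d K0) (p : (Ed G r ⊕ Ed G r) × K) :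
    La2 pal R p ≤ 44 * Fintype.card K * wp pal R p := by
  have hR := h.R_pos
  have hK := h.K0_pos
  have h1 : ∀ (e : Ed G r) (κ κ' : K) (t : Dt G r K),
      iw (Va pal R e κ κ' t ∧ p ∈ W e κ κ' t) (wd pal R e t) ≤
      iw (Va pal R e κ κ t ∧ t ≠ some none ∧ p ∈ W e κ κ t) (wd pal R e t) +
      iw (t = some none ∧ Va pal R e κ κ' t ∧ p ∈ W e κ κ' t) (wd pal R e t) := by
    intro e κ κ' t
    have hw := wd_nonneg (pal := pal) (R := R) e t
    refine le_trans ?_ (iw_or hw)
    apply iw_mono hw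
    rintro ⟨hv, hp⟩
    rcases t with _ | _ | ⟨y, g⟩
    · exact Or.inl ⟨hv, by simp, hp⟩
    · exact Or.inr ⟨rfl, hv, hp⟩
    · exact Or.inl ⟨hv, by simp, hp⟩
  have h2 : La2 pal R p ≤ Fintype.card K * La0 pal R p +
      ∑ x : Ed G r × K × K, iw (Va pal R x.1 x.2.1 x.2.2 (some none) ∧
        p ∈ W x.1 x.2.1 x.2.2 (some none)) (wd pal R x.1 (some none)) := by
    unfold La2
    refine (sum_le_sum fun e _ => sum_le_sum fun κ _ => sum_le_sum fun κ' _ =>
      sum_le_sum fun t _ => h1 e κ κ' t).trans ?_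
    simp_rw [sum_add_distrib]
    refine add_le_add ?_ ?_
    · rw [La0_iw]
      simp_rw [sum_const, card_univ, nsmul_eq_mul, mul_sum]
      exact le_of_eq rfl
    · rw [Fintype.sum_prod_type]
      simp only [Fintype.sum_prod_type]
      refine sum_le_sum fun e _ => sum_le_sum fun κ _ => sum_le_sum fun κ' _ => ?_
      rw [sum_eq_single (some none)]
      · apply iw_mono (wd_nonneg _ _)
        rintro ⟨-, h3⟩; exact h3
      · intro t _ hne
        unfold iw
        rw [if_neg fun h3 => hne h3.1]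
      · intro h3; exact absurd (mem_univ _) h3
  have h3 : ∑ x : Ed G r × K × K, iw (Va pal R x.1 x.2.1 x.2.2 (some none) ∧
      p ∈ W x.1 x.2.1 x.2.2 (some none)) (wd pal R x.1 (some none)) ≤ 6 * wp pal R p := by
    have hF : ∀ x : Ed G r × K × K, 0 ≤ iw (Va pal R x.1 x.2.1 x.2.2 (some none) ∧
      p ∈ W x.1 x.2.1 x.2.2 (some none)) (wd pal R x.1 (some none)) :=
      fun x => iw_nonneg (wd_nonneg _ _)
    obtain ⟨a, y₀⟩ := p
    rcases a with e₀ | e₀
    · have hp₀ := h.pal_pos (hd e₀)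
      have h4 := sum_le_two _ ({e₀} ×ˢ R ×ˢ {y₀}) ∅
        (6 / ((pal (hd e₀)).card : ℝ) * (6 / R.card)) 0 hF (by
          rintro ⟨e, κ, κ'⟩ hne
          left
          by_contra hx
          apply hne
          apply if_neg
          rintro ⟨⟨hκ, hκ'⟩, hm⟩
          dsimp only at hκ hκ' hm
          rw [W, mem_insert, mem_singleton] at hm
          apply hx
          simp only [mem_product, mem_singleton]
          rcases hm with hm | hm
          · have h3 : e₀ = e := Sum.inl_injective (Prod.ext_iff.1 hm).1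
            have h4 : y₀ = κ' := (Prod.ext_iff.1 hm).2
            subst h3 h4
            exact ⟨rfl, hκ, rfl⟩
          · exact absurd (Prod.ext_iff.1 hm).1 Sum.inl_ne_inr) (by
          rintro ⟨e, κ, κ'⟩ hx
          simp only [mem_product, mem_singleton] at hx
          obtain ⟨rfl, hκ, rfl⟩ := hx
          unfold iw
          split_ifs
          · exact le_rfl
          · positivity) (by simp)
      rw [card_product, card_product, card_singleton, card_singleton] at h4
      refine h4.trans (le_of_eq ?_)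
      unfold wp
      simp only [gr, pl]
      push_cast
      field_simp
      simp
    · have hp₀ := h.pal_pos (hd e₀)
      have h4 := sum_le_two _ ({e₀} ×ˢ {y₀} ×ˢ pal (hd e₀)) ∅
        (6 / ((pal (hd e₀)).card : ℝ) * (6 / R.card)) 0 hF (by
          rintro ⟨e, κ, κ'⟩ hne
          left
          by_contra hx
          apply hne
          apply if_neg
          rintro ⟨⟨hκ, hκ'⟩, hm⟩
          dsimp only at hκ hκ' hm
          rw [W, mem_insert, mem_singleton] at hm
          apply hx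
          simp only [mem_product, mem_singleton]
          rcases hm with hm | hm
          · exact absurd (Prod.ext_iff.1 hm).1 Sum.inr_ne_inl
          · have h3 : e₀ = e := Sum.inr_injective (Prod.ext_iff.1 hm).1
            have h4 : y₀ = κ := (Prod.ext_iff.1 hm).2
            subst h3 h4
            exact ⟨rfl, rfl, hκ'⟩) (by
          rintro ⟨e, κ, κ'⟩ hx
          simp only [mem_product, mem_singleton] at hx
          obtain ⟨rfl, rfl, hκ'⟩ := hx
          unfold iw
          split_ifs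
          · exact le_rfl
          · positivity) (by simp)
      rw [card_product, card_product, card_singleton, card_singleton] at h4
      refine h4.trans (le_of_eq ?_)
      unfold wp
      simp only [gr, pl]
      push_cast
      field_simp
      simp
  have h4 := La0_le h p
  have hw := wp_nonneg (pal := pal) (R := R) p
  have hN : (1 : ℝ) ≤ Fintype.card K := by
    have h5 : 0 < Fintype.card K := by
      have h6 : 0 < R.card := by exact_mod_cast hR
      exact lt_of_lt_of_le h6 (card_le_univ _)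
    exact_mod_cast h5
  calc La2 pal R p ≤ Fintype.card K * La0 pal R p + 6 * wp pal R p := h2.trans (by linarith)
    _ ≤ Fintype.card K * (38 * wp pal R p) + 6 * (Fintype.card K * wp pal R p) := by
        have h5 : wp pal R p ≤ Fintype.card K * wp pal R p := le_mul_of_one_le_left hw hN
        have h6 : (Fintype.card K : ℝ) * La0 pal R p ≤ Fintype.card K * (38 * wp pal R p) :=
          mul_le_mul_of_nonneg_left h4 (by positivity)
        linarith
    _ = _ := by ring

end Run7.h882
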