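import Pool.Agent.Run7.h882.Sum2

/-!
# The weights of the events for cycles
-/

set_option autoImplicit false
set_option linter.unusedSectionVars false

namespace Run7.h882

open Finset Classical

variable {V K : Type} [Fintype V] [DecidableEq V] [Fintype K] [DecidableEq K]
  {G : SimpleGraph V} [DecidableRel G.Adj] {r : V → ℕ}
  {pal : V → Finset K} {R : Finset K} {d K0 : ℕ}

/-- `v` and `ee` are the vertices and edges of a closed walk -/
def Cond {n : ℕ} (v : Fin n → V) (ee : Fin n → Ed G r) : Prop :=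
  ∀ i, Ends (ee i) (v i) (v (nx i))

theorem cond_card (h : Hyp G r pal R d K0) (t : ℕ) (i : Fin (2 * t + 2)) (e : Ed G r) :
    (univ.filter fun x : (Fin (2 * t + 2) → V) × (Fin (2 * t + 2) → Ed G r) =>
      Cond x.1 x.2 ∧ x.2 i = e).card ≤ 2 * (2 ^ (2 * t + 1) * (d * Fintype.card K) ^ t) := by
  have hN : ∀ v, (Dn G r v).card ≤ Fintype.card K := fun v => (h.dn v).trans (card_le_univ _)
  have hdN : d ≤ Fintype.card K := by
    have h1 := h.res
    have h2 : R.card ≤ Fintype.card K := card_le_univ _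
    omega
  have h1 : (univ.filter fun x : (Fin (2 * t + 2) → V) × (Fin (2 * t + 2) → Ed G r) =>
      Cond x.1 x.2 ∧ x.2 i = e).card ≤
      ((univ.filter fun v : Fin (2 * t + 2) → V =>
        (∀ j, G.Adj (v j) (v (nx j))) ∧ v i = tl e ∧ v (nx i) = hd e) ∪
      (univ.filter fun v : Fin (2 * t + 2) → V =>
        (∀ j, G.Adj (v j) (v (nx j))) ∧ v i = hd e ∧ v (nx i) = tl e)).card := by
    apply card_le_card_of_injOn Prod.fst
    · rintro ⟨v, ee⟩ hx
      rw [mem_coe, mem_filter] at hx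
      obtain ⟨-, hc, he⟩ := hx
      simp only at hc he
      rw [mem_coe, mem_union, mem_filter, mem_filter]
      have h2 := hc i
      rw [he] at h2
      rcases h2 with ⟨h2, h3⟩ | ⟨h2, h3⟩
      · exact Or.inl ⟨mem_univ _, fun j => (hc j).adj, h2.symm, h3.symm⟩
      · exact Or.inr ⟨mem_univ _, fun j => (hc j).adj, h3.symm, h2.symm⟩
    · rintro ⟨v, ee⟩ hx ⟨v', ee'⟩ hx' hvv
      rw [mem_coe, mem_filter] at hx hx'
      obtain ⟨-, hc, -⟩ := hx
      obtain ⟨-, hc', -⟩ := hx'
      simp only at hc hc' hvv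
      subst hvv
      congr 1
      funext j
      exact (hc j).unique (hc' j)
  refine h1.trans ((card_union_le _ _).trans ?_)
  have h2 := closed_card (G := G) (2 * t + 1) i (tl e) (hd e)
  have h3 := closed_card (G := G) (2 * t + 1) i (hd e) (tl e)
  have h4 := wk_le h.rk h.up hN hdN t (hd e) (tl e)
  have h5 := wk_le h.rk h.up hN hdN t (tl e) (hd e)
  have h6 := h2.trans h4
  have h7 := h3.trans h5
  have h8 : ∀ a b c : ℕ, a ≤ c → b ≤ c → a + b ≤ 2 * c := fun a b c ha hb => by omega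
  apply h8
  · convert h6
  · convert h7

theorem sum_kp {n : ℕ} (i : Fin n) (F : K → K → ℝ) :
    ∑ α : K, ∑ β : K, F (kp α β i) (kp β α i) = ∑ κ : K, ∑ κ' : K, F κ κ' := by
  unfold kp
  by_cases h : Even i.val
  · simp only [if_pos h]
  · simp only [if_neg h]
    rw [sum_comm]

theorem prod_pick {n : ℕ} (i : Fin n) (F : Fin n → ℝ) (q : ℝ) (h0 : ∀ j, 0 ≤ F j)
    (hq : ∀ j, j ≠ i → F j ≤ q) : ∏ j, F j ≤ F i * q ^ (n - 1) := by
  rw [← mul_prod_erase univ F (mem_univ i)]
  apply mul_le_mul_of_nonneg_left _ (h0 i)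
  calc ∏ j ∈ univ.erase i, F j ≤ ∏ _j ∈ univ.erase i, q :=
        prod_le_prod (fun j _ => h0 j) fun j hj => hq j (ne_of_mem_erase hj)
    _ = q ^ (n - 1) := by rw [prod_const, card_erase_of_mem (mem_univ _), card_univ, Fintype.card_fin]

theorem cyc_sum (h : Hyp G r pal R d K0) (t : ℕ) (p : (Ed G r ⊕ Ed G r) × K) :
    ∑ x ∈ univ.filter (fun x : Ix G r K (2 * t + 2) => P2 pal R (2 * t + 2) x ∧
      p ∈ Ev2 (2 * t + 2) x), xw gr (pl pal R) (Ev2 (2 * t + 2) x) ≤
      (2 * t + 2) * (2 * (2 ^ (2 * t + 1) * (d * Fintype.card K) ^ t)) *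
        (12 / K0) ^ (2 * t + 1) * La2 pal R p := by
  set n := 2 * t + 2 with hn
  have hK := h.K0_pos
  -- the weight of the data of the edge `j` if the edge `i` has the prescription
  let F : Fin n → Ed G r → K → K → Fin n → Dt G r K → ℝ := fun i e κ κ' j s =>
    iw (Va pal R e κ κ' s ∧ (j = i → p ∈ W e κ κ' s)) (wd pal R e s)
  have hF0 : ∀ i e κ κ' j s, 0 ≤ F i e κ κ' j s := fun i e κ κ' j s => iw_nonneg (wd_nonneg _ _)
  let B : Fin n → Ix G r K n → ℝ := fun i x =>
    iw (Cond x.1 x.2.1) (∏ j, F i (x.2.1 j) (kp x.2.2.1 x.2.2.2.1 j) (kp x.2.2.2.1 x.2.2.1 j) j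
      (x.2.2.2.2 j))
  have hB0 : ∀ i x, 0 ≤ B i x := fun i x => iw_nonneg (prod_nonneg fun j _ => hF0 _ _ _ _ _ _)
  have h1 : ∀ x ∈ univ.filter (fun x : Ix G r K n => P2 pal R n x ∧ p ∈ Ev2 n x),
      xw gr (pl pal R) (Ev2 n x) ≤ ∑ i, B i x := by
    rintro ⟨v, ee, α, β, s⟩ hx
    rw [mem_filter] at hx
    obtain ⟨-, ⟨hn4, hev, hc, hv, hdj⟩, hp⟩ := hx
    unfold Ev2 at hp
    rw [mem_biUnion] at hp
    obtain ⟨i, -, hp⟩ := hp
    have h2 : xw gr (pl pal R) (Ev2 n (v, ee, α, β, s)) = ∏ j, wd pal R (ee j) (s j) := by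
      unfold Ev2 xw
      rw [prod_biUnion]
      · refine prod_congr rfl fun j _ => ?_
        exact xw_W (hv j)
      · intro j _ k _ hjk
        exact hdj j k hjk
    have h3 : B i (v, ee, α, β, s) = ∏ j, wd pal R (ee j) (s j) := by
      simp only [B, F, iw]
      rw [if_pos (show Cond v ee from hc)]
      refine prod_congr rfl fun j _ => ?_
      rw [if_pos]
      refine ⟨hv j, ?_⟩
      rintro rfl
      exact hp
    rw [h2, ← h3]
    exact single_le_sum (f := fun i => B i (v, ee, α, β, s)) (fun i _ => hB0 i _) (mem_univ i)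
  refine (sum_le_sum h1).trans ?_
  refine (sum_le_sum_of_subset_of_nonneg (filter_subset _ _) fun x _ _ =>
    sum_nonneg fun i _ => hB0 i x).trans ?_
  rw [sum_comm]
  -- one position
  let lo : Ed G r → K → K → ℝ := fun e κ κ' =>
    ∑ s : Dt G r K, iw (Va pal R e κ κ' s ∧ p ∈ W e κ κ' s) (wd pal R e s)
  have hlo : ∀ e κ κ', 0 ≤ lo e κ κ' := fun e κ κ' =>
    sum_nonneg fun s _ => iw_nonneg (wd_nonneg _ _)
  let Lm : Ed G r → ℝ := fun e => ∑ κ : K, ∑ κ' : K, lo e κ κ'
  have hLm : ∀ e, 0 ≤ Lm e := fun e => sum_nonneg fun κ _ => sum_nonneg fun κ' _ => hlo _ _ _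
  have hpos : ∀ i : Fin n, ∑ x : Ix G r K n, B i x ≤
      (2 * (2 ^ (2 * t + 1) * (d * Fintype.card K) ^ t) : ℕ) * (12 / K0) ^ (n - 1) *
        La2 pal R p := by
    intro i
    have h2 : ∀ (v : Fin n → V) (ee : Fin n → Ed G r) (α β : K),
        ∑ s : Fin n → Dt G r K, B i (v, ee, α, β, s) ≤
          iw (Cond v ee) (lo (ee i) (kp α β i) (kp β α i) * (12 / K0) ^ (n - 1)) := by
      intro v ee α β
      simp only [B, iw]
      split_ifs with hc
      · have h3 : ∑ s : Fin n → Dt G r K, ∏ j, F i (ee j) (kp α β j) (kp β α j) j (s j) =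
            ∏ j, ∑ s : Dt G r K, F i (ee j) (kp α β j) (kp β α j) j s := by
          rw [prod_univ_sum, Fintype.piFinset_univ]
        rw [h3]
        refine (prod_pick i (fun j => ∑ s : Dt G r K, F i (ee j) (kp α β j) (kp β α j) j s)
          (12 / K0) (fun j => sum_nonneg fun s _ => hF0 _ _ _ _ _ _) ?_).trans ?_
        · intro j hj
          refine le_trans (sum_le_sum fun s _ => ?_) (h.tot' (ee j) (kp α β j) (kp β α j))
          exact iw_mono (wd_nonneg _ _) fun h4 => h4.1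
        · apply mul_le_mul_of_nonneg_right _ (by positivity)
          refine sum_le_sum fun s _ => ?_
          exact iw_mono (wd_nonneg _ _) fun h4 => ⟨h4.1, h4.2 rfl⟩
      · simp
    have h4 : ∑ x : Ix G r K n, B i x ≤ ∑ y : (Fin n → V) × (Fin n → Ed G r),
        iw (Cond y.1 y.2) (Lm (y.2 i) * (12 / K0) ^ (n - 1)) := by
      simp only [Fintype.sum_prod_type]
      refine sum_le_sum fun v _ => sum_le_sum fun ee _ => ?_
      refine (sum_le_sum fun α _ => sum_le_sum fun β _ => h2 v ee α β).trans ?_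
      by_cases hc : Cond v ee
      · simp only [iw, if_pos hc]
        simp_rw [← sum_mul]
        rw [sum_kp i (fun κ κ' => lo (ee i) κ κ')]
      · simp [iw, hc]
    refine h4.trans ?_
    have h5 : ∑ y : (Fin n → V) × (Fin n → Ed G r),
        iw (Cond y.1 y.2) (Lm (y.2 i) * (12 / K0) ^ (n - 1)) =
        ∑ e : Ed G r, ((univ.filter fun x : (Fin n → V) × (Fin n → Ed G r) =>
          Cond x.1 x.2 ∧ x.2 i = e).card : ℝ) * (Lm e * (12 / K0) ^ (n - 1)) := by
      have h6 : ∀ y : (Fin n → V) × (Fin n → Ed G r),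
          iw (Cond y.1 y.2) (Lm (y.2 i) * (12 / K0) ^ (n - 1)) =
          ∑ e : Ed G r, if Cond y.1 y.2 ∧ y.2 i = e then Lm e * (12 / (K0 : ℝ)) ^ (n - 1)
            else 0 := by
        intro y
        unfold iw
        by_cases hc : Cond y.1 y.2
        · simp [hc]
        · simp [hc]
      rw [sum_congr rfl fun y _ => h6 y, sum_comm]
      refine sum_congr rfl fun e _ => ?_
      rw [← sum_filter, sum_const, nsmul_eq_mul]
    rw [h5]
    calc _ ≤ ∑ e : Ed G r, ((2 * (2 ^ (2 * t + 1) * (d * Fintype.card K) ^ t) : ℕ) : ℝ) *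
          (Lm e * (12 / K0) ^ (n - 1)) := by
          refine sum_le_sum fun e _ => ?_
          apply mul_le_mul_of_nonneg_right _ (mul_nonneg (hLm e) (by positivity))
          exact_mod_cast cond_card h t i e
      _ = _ := by
          rw [← mul_sum, ← sum_mul]
          have : ∑ e : Ed G r, Lm e = La2 pal R p := rfl
          rw [this]
          ring
  refine (sum_le_sum fun i _ => hpos i).trans ?_
  rw [sum_const, card_univ, Fintype.card_fin, nsmul_eq_mul]
  apply le_of_eq
  have hn1 : n - 1 = 2 * t + 1 := by omega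
  rw [hn1, hn]
  push_cast
  ring

/-- the sum of all cycle weights -/
theorem cyc_bound (h : Hyp G r pal R d K0) (t : ℕ) (p : (Ed G r ⊕ Ed G r) × K) :
    ∑ x ∈ univ.filter (fun x : Ix G r K (2 * t + 2) => P2 pal R (2 * t + 2) x ∧
      p ∈ Ev2 (2 * t + 2) x), xw gr (pl pal R) (Ev2 (2 * t + 2) x) ≤
      8448 * (2304 * d / K0) ^ t * wp pal R p := by
  refine (cyc_sum h t p).trans ?_
  have hK := h.K0_pos
  have hd := h.d_pos
  have hw := wp_nonneg (pal := pal) (R := R) p
  have hN : (Fintype.card K : ℝ) ≤ 2 * K0 := by exact_mod_cast h.card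
  have hL := La2_le h p
  have h1 : (t : ℝ) + 1 ≤ 2 ^ t := by
    have := one_add_mul_le_pow (show (-2 : ℝ) ≤ 1 by norm_num) t
    norm_num at this
    linarith
  have h2 : La2 pal R p ≤ 88 * K0 * wp pal R p := by
    refine hL.trans ?_
    have : 44 * (Fintype.card K : ℝ) ≤ 88 * K0 := by linarith
    exact mul_le_mul_of_nonneg_right this hw
  have h3 : ((d : ℝ) * Fintype.card K) ^ t ≤ (d * (2 * K0)) ^ t := by
    apply pow_le_pow_left₀ (by positivity)
    exact mul_le_mul_of_nonneg_left hN hd.le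
  calc _ ≤ (2 * (t : ℝ) + 2) * (2 * (2 ^ (2 * t + 1) * (d * (2 * K0)) ^ t)) *
        (12 / K0) ^ (2 * t + 1) * (88 * K0 * wp pal R p) := by
        have h4 : (0 : ℝ) ≤ (2 * (t : ℝ) + 2) * (2 * (2 ^ (2 * t + 1) * (d * (2 * K0)) ^ t)) *
          (12 / K0) ^ (2 * t + 1) := by positivity
        refine mul_le_mul ?_ h2 ?_ h4
        · gcongr
        · unfold La2
          exact sum_nonneg fun e _ => sum_nonneg fun κ _ => sum_nonneg fun κ' _ =>
            sum_nonneg fun s _ => iw_nonneg (wd_nonneg _ _)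
    _ = 8448 * ((t : ℝ) + 1) * (1152 * d / K0) ^ t * wp pal R p := by
        rw [show 2 * t + 1 = t + t + 1 by ring, pow_succ, pow_add, pow_succ, pow_add]
        have h5 : (1152 * (d : ℝ) / K0) ^ t = 2 ^ t * 2 ^ t * (d * (2 * K0)) ^ t *
            ((12 / K0) ^ t * (12 / K0) ^ t) := by
          rw [← mul_pow, ← mul_pow, ← mul_pow, ← mul_pow]
          congr 1
          field_simp
          norm_num
        rw [h5]
        field_simp
        ring
    _ ≤ 8448 * 2 ^ t * (1152 * d / K0) ^ t * wp pal R p := by gcongr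
    _ = _ := by
        rw [mul_assoc (8448 : ℝ), ← mul_pow]
        congr 3
        ring

end Run7.h882
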